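import Pool.Agent.Helper77.EHR.P.Lip
import Pool.Agent.Helper77.EHR.Ret

/-! # From bad boxes to unit cells -/

open Finset

namespace Pool.Agent.Helper77.EHR.P

/-- translation by a multiple of the period of the first exponential -/
lemma ev_shift {r : ℕ} (ω0 : ℝ) (ω : Fin r → ℝ) (h0 : ω0 ≠ 0) (m : ℤ) (z : ℂ) (P : A r) :
    ev ω0 ω (fun _ => 0) z P =
      ev ω0 ω (fun j => (m : ℝ) * (ω j / ω0)) (z - ((2 * Real.pi * m / ω0 : ℝ) : ℂ)) P := by
  have h0' : (ω0 : ℂ) ≠ 0 := by exact_mod_cast h0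
  have e1 : Complex.exp (Complex.I * (ω0 : ℂ) * z) =
      Complex.exp (Complex.I * (ω0 : ℂ) * (z - ((2 * Real.pi * m / ω0 : ℝ) : ℂ))) := by
    rw [Complex.exp_eq_exp_iff_exists_int]
    refine ⟨m, ?_⟩
    push_cast
    field_simp
    ring
  have e2 : (fun j : Fin r => Complex.exp (2 * Real.pi * Complex.I * ((0 : ℝ) : ℝ)) *
      Complex.exp (Complex.I * (ω j : ℂ) * z)) =
      fun j => Complex.exp (2 * Real.pi * Complex.I * (((m : ℝ) * (ω j / ω0) : ℝ) : ℂ)) *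
      Complex.exp (Complex.I * (ω j : ℂ) * (z - ((2 * Real.pi * m / ω0 : ℝ) : ℂ))) := by
    funext j
    rw [← Complex.exp_add, ← Complex.exp_add]
    congr 1
    push_cast
    field_simp
    ring
  unfold ev
  rw [e1, e2]

/-- the trivial bound for the number of cells -/
lemma card_cells (S : Finset ℤ) (R : ℝ) (hR : 1 ≤ R) (hS : ∀ k ∈ S, |(k : ℝ)| ≤ R) :
    (S.card : ℝ) ≤ 3 * R := by
  have h2 : S ⊆ Finset.Icc (-⌊R⌋) ⌊R⌋ := by
    intro k hk
    have h3 := abs_le.1 (hS k hk)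
    rw [Finset.mem_Icc]
    constructor
    · rw [neg_le]
      apply Int.le_floor.2
      push_cast
      linarith
    · exact Int.le_floor.2 h3.2
  have h4 := Finset.card_le_card h2
  rw [Int.card_Icc] at h4
  have h5 : (0 : ℤ) ≤ ⌊R⌋ := Int.floor_nonneg.2 (by linarith)
  have h6 : ((⌊R⌋ + 1 - -⌊R⌋).toNat : ℤ) = 2 * ⌊R⌋ + 1 := by
    rw [Int.toNat_of_nonneg (by omega)]
    ring
  have h7 : (S.card : ℤ) ≤ 2 * ⌊R⌋ + 1 := by
    rw [← h6]
    exact_mod_cast h4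
  have h8 : (S.card : ℝ) ≤ 2 * (⌊R⌋ : ℝ) + 1 := by exact_mod_cast h7
  linarith [Int.floor_le R]

theorem cells_row {r : ℕ} (ω0 : ℝ) (ω : Fin r → ℝ) (h0 : ω0 ≠ 0) (ha0 : IsAlgebraic ℚ ω0)
    (ha : ∀ j, IsAlgebraic ℚ (ω j)) (hind : Ind ω0 ω) (hcl : Claim ω0 ω) (H K : ℝ) (P Q : A r)
    (hP : Irreducible P) (hPQ : ¬ P ∣ Q) :
    ∃ (A : ℕ) (κ C : ℝ), 0 < κ ∧ κ ≤ 1 ∧ 0 ≤ C ∧ ∀ (L : ℕ) (R : ℝ) (S : Finset ℤ), 1 ≤ L →
      (L : ℝ) ^ A ≤ R → 1 ≤ R → (∀ k ∈ S, |(k : ℝ)| ≤ R ∧ ∃ z : ℂ, (k : ℝ) ≤ z.re ∧ z.re < k + 1 ∧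
        |z.im| ≤ H ∧ ‖ev ω0 ω (fun _ => 0) z P‖ ≤ K / L ∧ ‖ev ω0 ω (fun _ => 0) z Q‖ ≤ K / L) →
      (S.card : ℝ) ≤ C * R * (L : ℝ) ^ (-κ) := by
  classical
  have hω : 0 < |ω0| := abs_pos.2 h0
  obtain ⟨T, hT⟩ : ∃ T : ℝ, T = 2 * Real.pi / |ω0| := ⟨_, rfl⟩
  have hT0 : 0 < T := by rw [hT]; positivity
  obtain ⟨K1, hK1, hlip1⟩ := ev_lip ω0 ω T H P
  obtain ⟨K2, hK2, hlip2⟩ := ev_lip ω0 ω T H Q
  obtain ⟨κ, C1, hκ, hκ1, hC1, hbad⟩ := hcl T H P Q hP hPQ
  obtain ⟨A0, C2, hC2, hret⟩ := returns r (fun j => ω j / ω0) (fun j => by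
    rw [div_eq_mul_inv]
    exact (ha j).mul (IsAlgebraic.inv ha0)) (by
    intro h m hm
    have h1 : ∑ j, (h j : ℝ) * (ω j / ω0) = (∑ j, (h j : ℝ) * ω j) / ω0 := by
      rw [Finset.sum_div]
      exact Finset.sum_congr rfl fun j _ => by ring
    rw [h1, div_eq_iff h0] at hm
    refine (hind (-m) h ?_).2
    rw [hm]
    push_cast
    ring)
  obtain ⟨K3, hK3⟩ : ∃ K3 : ℝ, K3 = |K| + K1 + K2 + 1 := ⟨_, rfl⟩
  have hK0 := abs_nonneg K
  have hK31 : 1 ≤ K3 := by rw [hK3]; linarith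
  obtain ⟨F, hF⟩ := exists_nat_ge (T + 1)
  obtain ⟨D, hD⟩ := exists_nat_ge (2 * |ω0| + 2)
  have hD1 : (1 : ℝ) ≤ D := by linarith
  refine ⟨A0, κ, 3 * K3 + (4 * F + 1) * (2 * (C2 * (D + 2))) * (C1 * K3 ^ κ), hκ, hκ1, by positivity, ?_⟩
  intro L R S hL hLR hR hS
  have hL0 : (0 : ℝ) < L := by exact_mod_cast hL
  have hL1 : (1 : ℝ) ≤ L := by exact_mod_cast hL
  have hLκ : (0 : ℝ) < (L : ℝ) ^ (-κ) := Real.rpow_pos_of_pos hL0 _
  by_cases hLK : (L : ℝ) < K3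
  · -- the trivial bound
    refine (card_cells S R hR fun k hk => (hS k hk).1).trans ?_
    have h1 : 1 ≤ K3 * (L : ℝ) ^ (-κ) := by
      rw [Real.rpow_neg hL0.le, ← div_eq_mul_inv, le_div_iff₀ (Real.rpow_pos_of_pos hL0 _), one_mul]
      refine le_trans ?_ hLK.le
      calc (L : ℝ) ^ κ ≤ (L : ℝ) ^ (1 : ℝ) := Real.rpow_le_rpow_of_exponent_le hL1 hκ1
        _ = L := Real.rpow_one _
    have h2 : 0 ≤ (4 * F + 1) * (2 * (C2 * (D + 2))) * (C1 * K3 ^ κ) * R * (L : ℝ) ^ (-κ) := by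
      positivity
    calc 3 * R ≤ 3 * R * (K3 * (L : ℝ) ^ (-κ)) := le_mul_of_one_le_right (by positivity) h1
      _ ≤ 3 * R * (K3 * (L : ℝ) ^ (-κ)) +
          (4 * F + 1) * (2 * (C2 * (D + 2))) * (C1 * K3 ^ κ) * R * (L : ℝ) ^ (-κ) := by linarith
      _ = _ := by ring
  push Not at hLK
  obtain ⟨δ, hδ⟩ : ∃ δ : ℝ, δ = K3 / L := ⟨_, rfl⟩
  have hb := hbad L δ hL (by rw [hδ]; exact div_le_div_of_nonneg_right hK31 hL0.le)
    (by rw [hδ, div_le_one hL0]; exact hLK)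
  -- the points
  have hex : ∀ k : ℤ, ∃ z : ℂ, k ∈ S → (k : ℝ) ≤ z.re ∧ z.re < k + 1 ∧
      |z.im| ≤ H ∧ ‖ev ω0 ω (fun _ => 0) z P‖ ≤ K / L ∧ ‖ev ω0 ω (fun _ => 0) z Q‖ ≤ K / L := by
    intro k
    by_cases hk : k ∈ S
    · obtain ⟨z, hz⟩ := (hS k hk).2
      exact ⟨z, fun _ => hz⟩
    · exact ⟨0, fun h => absurd h hk⟩
  choose z hz using hex
  -- the integers
  obtain ⟨m, hm⟩ : ∃ m : ℤ → ℤ, ∀ k, m k = ⌊ω0 * (z k).re / (2 * Real.pi)⌋ := ⟨_, fun _ => rfl⟩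
  have hpi : 0 < 2 * Real.pi := by positivity
  have hpi3 : (1 : ℝ) ≤ Real.pi := by linarith [Real.pi_gt_three]
  have hfl : ∀ k, |ω0 * (z k).re - 2 * Real.pi * m k| ≤ 2 * Real.pi := by
    intro k
    have h1 := Int.floor_le (ω0 * (z k).re / (2 * Real.pi))
    have h2 := Int.lt_floor_add_one (ω0 * (z k).re / (2 * Real.pi))
    rw [← hm] at h1 h2
    rw [le_div_iff₀ hpi] at h1
    rw [div_lt_iff₀ hpi] at h2
    rw [abs_le]
    constructor <;> nlinarith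
  have hre : ∀ k, |(z k).re - 2 * Real.pi * m k / ω0| ≤ T := by
    intro k
    have h1 : (z k).re - 2 * Real.pi * m k / ω0 = (ω0 * (z k).re - 2 * Real.pi * m k) / ω0 := by
      field_simp
    rw [h1, abs_div, hT]
    exact div_le_div_of_nonneg_right (hfl k) hω.le
  have hmR : ∀ k ∈ S, |(m k : ℝ)| < D * R := by
    intro k hk
    have h1 := hfl k
    have h2 := abs_le.1 (hS k hk).1
    obtain ⟨b1, b2, b3⟩ := hz k hk
    have h3 : |(z k).re| ≤ 2 * R := by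
      rw [abs_le]
      constructor <;> linarith
    have h4 : |ω0 * (z k).re| ≤ |ω0| * (2 * R) := by
      rw [abs_mul]
      exact mul_le_mul_of_nonneg_left h3 hω.le
    have h5 : 2 * Real.pi * |(m k : ℝ)| ≤ |ω0| * (2 * R) + 2 * Real.pi := by
      have h5 : |2 * Real.pi * (m k : ℝ)| = 2 * Real.pi * |(m k : ℝ)| := by
        rw [abs_mul, abs_of_pos hpi]
      rw [← h5]
      have h6 : 2 * Real.pi * (m k : ℝ) = ω0 * (z k).re - (ω0 * (z k).re - 2 * Real.pi * m k) := by ring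
      rw [h6]
      exact (abs_sub _ _).trans (add_le_add h4 h1)
    have h6 : |(m k : ℝ)| ≤ |ω0| * (2 * R) + 1 := by
      have h7 : 2 * Real.pi * |(m k : ℝ)| ≤ 2 * Real.pi * (|ω0| * (2 * R) + 1) := by
        have h8 : |ω0| * (2 * R) ≤ 2 * Real.pi * (|ω0| * (2 * R)) :=
          le_mul_of_one_le_left (by positivity) (by linarith)
        linarith
      exact le_of_mul_le_mul_left h7 hpi
    have h9 : (2 * |ω0| + 2) * R ≤ D * R := mul_le_mul_of_nonneg_right hD (by linarith)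
    nlinarith
  obtain ⟨N, hN1, hN2⟩ : ∃ N : ℕ, D * R < N ∧ (N : ℝ) ≤ (D + 2) * R := by
    refine ⟨⌊(D : ℝ) * R⌋₊ + 1, ?_, ?_⟩
    · push_cast
      exact Nat.lt_floor_add_one _
    · push_cast
      have := Nat.floor_le (a := (D : ℝ) * R) (by positivity)
      nlinarith
  have hLN : L ^ A0 ≤ N := by
    have h2 : (L : ℝ) ^ A0 ≤ N := by nlinarith
    exact_mod_cast h2
  -- the boxes
  obtain ⟨g, hg⟩ : ∃ g : ℤ → Fin r → ℕ, ∀ k j, g k j = ⌊(L : ℝ) * Int.fract ((m k : ℝ) * (ω j / ω0))⌋₊ :=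
    ⟨_, fun _ _ => rfl⟩
  have hgr : ∀ k j, (g k j : ℝ) ≤ L * Int.fract ((m k : ℝ) * (ω j / ω0)) ∧
      (L : ℝ) * Int.fract ((m k : ℝ) * (ω j / ω0)) < g k j + 1 := by
    intro k j
    rw [hg]
    exact ⟨Nat.floor_le (mul_nonneg hL0.le (Int.fract_nonneg _)), Nat.lt_floor_add_one _⟩
  have hgL : ∀ k j, g k j < L := by
    intro k j
    have h1 := (hgr k j).1
    have h2 : (L : ℝ) * Int.fract ((m k : ℝ) * (ω j / ω0)) < L * 1 :=
      mul_lt_mul_of_pos_left (Int.fract_lt_one _) hL0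
    have h3 : (g k j : ℝ) < L := by linarith
    exact_mod_cast h3
  -- the boxes are bad
  have hgb : ∀ k ∈ S, g k ∈ bad ω0 ω T H P Q L δ := by
    intro k hk
    obtain ⟨b1, b2, b3, b4, b5⟩ := hz k hk
    have hreg : z k - ((2 * Real.pi * m k / ω0 : ℝ) : ℂ) ∈ Reg T H := by
      constructor
      · rw [Complex.sub_re, Complex.ofReal_re]
        exact hre k
      · rw [Complex.sub_im, Complex.ofReal_im, sub_zero]
        exact b3
    have hθ : ∀ j, ∃ m' : ℤ, |(m k : ℝ) * (ω j / ω0) - m' - (g k j : ℝ) / L| ≤ 1 / L := by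
      intro j
      refine ⟨⌊(m k : ℝ) * (ω j / ω0)⌋, ?_⟩
      obtain ⟨h1, h2⟩ := hgr k j
      rw [Int.fract] at h1 h2
      have h3 : (m k : ℝ) * (ω j / ω0) - ⌊(m k : ℝ) * (ω j / ω0)⌋ - (g k j : ℝ) / L =
          (L * ((m k : ℝ) * (ω j / ω0) - ⌊(m k : ℝ) * (ω j / ω0)⌋) - g k j) / L := by
        field_simp
      rw [h3, abs_div, abs_of_pos hL0]
      refine div_le_div_of_nonneg_right ?_ hL0.le
      rw [abs_le]
      constructor <;> linarith
    have hfin : ∀ (X : A r) (K' : ℝ), K' ≤ K1 + K2 → ‖ev ω0 ω (fun _ => 0) (z k) X‖ ≤ K / L →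
        ‖ev ω0 ω (fun j => (m k : ℝ) * (ω j / ω0)) (z k - ((2 * Real.pi * m k / ω0 : ℝ) : ℂ)) X -
          ev ω0 ω (fun j => (g k j : ℝ) / L) (z k - ((2 * Real.pi * m k / ω0 : ℝ) : ℂ)) X‖ ≤
          K' * (1 / L) →
        ‖ev ω0 ω (fun j => (g k j : ℝ) / L) (z k - ((2 * Real.pi * m k / ω0 : ℝ) : ℂ)) X‖ ≤ δ := by
      intro X K' hK' h1 h2
      rw [ev_shift ω0 ω h0 (m k) (z k) X] at h1
      have h3 := norm_sub_norm_le
        (ev ω0 ω (fun j => (g k j : ℝ) / L) (z k - ((2 * Real.pi * m k / ω0 : ℝ) : ℂ)) X)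
        (ev ω0 ω (fun j => (m k : ℝ) * (ω j / ω0)) (z k - ((2 * Real.pi * m k / ω0 : ℝ) : ℂ)) X)
      rw [norm_sub_rev] at h3
      have h4 : K / L + K' * (1 / L) ≤ δ := by
        rw [hδ, hK3, mul_one_div, ← add_div]
        refine div_le_div_of_nonneg_right ?_ hL0.le
        have := le_abs_self K
        linarith
      linarith
    rw [bad, Finset.mem_filter, Fintype.mem_piFinset]
    refine ⟨fun j => Finset.mem_range.2 (hgL k j), z k - ((2 * Real.pi * m k / ω0 : ℝ) : ℂ), hreg, ?_, ?_⟩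
    · exact hfin P K1 (by linarith) b4 (hlip1 _ _ _ _ (1 / L) hreg hreg hθ (by
        rw [sub_self, norm_zero]; positivity)).2
    · exact hfin Q K2 (by linarith) b5 (hlip2 _ _ _ _ (1 / L) hreg hreg hθ (by
        rw [sub_self, norm_zero]; positivity)).2
  -- the integers of a box
  have hbox : ∀ G : Fin r → ℕ, ((((S.image m).filter fun s => ∃ k ∈ S, m k = s ∧ g k = G).card : ℕ) : ℝ) ≤
      2 * (C2 * (N / (L : ℝ) ^ r)) := by
    intro G
    have h1 := hret L N (fun j => ((G j : ℝ) + 1 / 2) / L) hL hLN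
    have h2 := hret L N (fun j => -(((G j : ℝ) + 1 / 2) / L)) hL hLN
    have hsub : ((S.image m).filter fun s => ∃ k ∈ S, m k = s ∧ g k = G) ⊆
        (((Finset.range N).filter fun k : ℕ => ∀ j, ∃ p : ℤ,
          |(k : ℝ) * (fun j => ω j / ω0) j - (fun j => ((G j : ℝ) + 1 / 2) / L) j - p| ≤ 1 / (2 * L)).image
            fun t : ℕ => (t : ℤ)) ∪
        (((Finset.range N).filter fun k : ℕ => ∀ j, ∃ p : ℤ,
          |(k : ℝ) * (fun j => ω j / ω0) j - (fun j => -(((G j : ℝ) + 1 / 2) / L)) j - p| ≤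
            1 / (2 * L)).image fun t : ℕ => -(t : ℤ)) := by
      intro s hs
      rw [Finset.mem_filter] at hs
      obtain ⟨_, k, hk, hks, hkG⟩ := hs
      have hlt : ((m k).natAbs : ℝ) < N := by
        rw [Nat.cast_natAbs, Int.cast_abs]
        exact (hmR k hk).trans hN1
      have hkey : ∀ j, ∃ p : ℤ, |(m k : ℝ) * (ω j / ω0) - ((G j : ℝ) + 1 / 2) / L - p| ≤ 1 / (2 * L) := by
        intro j
        refine ⟨⌊(m k : ℝ) * (ω j / ω0)⌋, ?_⟩
        obtain ⟨h1, h2⟩ := hgr k j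
        rw [hkG, Int.fract] at h1 h2
        have h3 : (m k : ℝ) * (ω j / ω0) - ((G j : ℝ) + 1 / 2) / L - ⌊(m k : ℝ) * (ω j / ω0)⌋ =
            (L * ((m k : ℝ) * (ω j / ω0) - ⌊(m k : ℝ) * (ω j / ω0)⌋) - G j - 1 / 2) * 2 / (2 * L) := by
          field_simp
          ring
        rw [h3, abs_div, abs_of_pos (by positivity : (0 : ℝ) < 2 * L)]
        refine div_le_div_of_nonneg_right ?_ (by positivity)
        rw [abs_le]
        constructor <;> linarith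
      rw [Finset.mem_union, Finset.mem_image, Finset.mem_image]
      rcases le_total 0 (m k) with h | h
      · left
        refine ⟨(m k).natAbs, ?_, by rw [← hks]; omega⟩
        rw [Finset.mem_filter, Finset.mem_range]
        refine ⟨by exact_mod_cast hlt, fun j => ?_⟩
        obtain ⟨p, hp⟩ := hkey j
        refine ⟨p, ?_⟩
        have h1 : (((m k).natAbs : ℕ) : ℝ) = (m k : ℝ) := by
          rw [Nat.cast_natAbs, Int.cast_abs, abs_of_nonneg]
          exact_mod_cast h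
        simp only [h1]
        exact hp
      · right
        refine ⟨(m k).natAbs, ?_, by rw [← hks]; omega⟩
        rw [Finset.mem_filter, Finset.mem_range]
        refine ⟨by exact_mod_cast hlt, fun j => ?_⟩
        obtain ⟨p, hp⟩ := hkey j
        refine ⟨-p, ?_⟩
        have h1 : (((m k).natAbs : ℕ) : ℝ) = -(m k : ℝ) := by
          rw [Nat.cast_natAbs, Int.cast_abs, abs_of_nonpos]
          exact_mod_cast h
        simp only [h1]
        have h2 : -(m k : ℝ) * (ω j / ω0) - -(((G j : ℝ) + 1 / 2) / L) - ((-p : ℤ) : ℝ) =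
            -((m k : ℝ) * (ω j / ω0) - ((G j : ℝ) + 1 / 2) / L - p) := by
          push_cast
          ring
        rw [h2, abs_neg]
        exact hp
    have h3 := (Finset.card_le_card hsub).trans ((Finset.card_union_le _ _).trans
      (add_le_add Finset.card_image_le Finset.card_image_le))
    have h4 : ((((S.image m).filter fun s => ∃ k ∈ S, m k = s ∧ g k = G).card : ℕ) : ℝ) ≤
        C2 * N / (L : ℝ) ^ r + C2 * N / (L : ℝ) ^ r := by
      refine le_trans ?_ (add_le_add h1 h2)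
      exact_mod_cast h3
    refine h4.trans (le_of_eq ?_)
    ring
  -- the number of integers
  have himg : ((S.image m).card : ℝ) ≤
      ((bad ω0 ω T H P Q L δ).card : ℝ) * (2 * (C2 * (N / (L : ℝ) ^ r))) := by
    have h1 : S.image m ⊆ (bad ω0 ω T H P Q L δ).biUnion fun G =>
        (S.image m).filter fun s => ∃ k ∈ S, m k = s ∧ g k = G := by
      intro s hs
      obtain ⟨k, hk, hks⟩ := Finset.mem_image.1 hs
      rw [Finset.mem_biUnion]
      exact ⟨g k, hgb k hk, Finset.mem_filter.2 ⟨hs, k, hk, hks, rfl⟩⟩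
    have h2 := (Finset.card_le_card h1).trans Finset.card_biUnion_le
    have h3 : ((S.image m).card : ℝ) ≤ ∑ G ∈ bad ω0 ω T H P Q L δ,
        ((((S.image m).filter fun s => ∃ k ∈ S, m k = s ∧ g k = G).card : ℕ) : ℝ) := by
      exact_mod_cast h2
    refine h3.trans ((Finset.sum_le_sum fun G _ => hbox G).trans ?_)
    rw [Finset.sum_const, nsmul_eq_mul]
  -- the fibres
  have hfib : ∀ s ∈ S.image m, (S.filter fun k => m k = s).card ≤ 4 * F + 1 := by
    intro s hs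
    obtain ⟨k1, hk1, hs1⟩ := Finset.mem_image.1 hs
    have h1 : (S.filter fun k => m k = s) ⊆ Finset.Icc (k1 - 2 * F) (k1 + 2 * F) := by
      intro k hk
      rw [Finset.mem_filter] at hk
      have h2 := abs_le.1 (hre k)
      have h3 := abs_le.1 (hre k1)
      rw [hk.2] at h2
      rw [hs1] at h3
      obtain ⟨a1, a2, _⟩ := hz k hk.1
      obtain ⟨b1, b2, _⟩ := hz k1 hk1
      rw [Finset.mem_Icc]
      constructor
      · have h7 : ((k1 - 2 * F : ℤ) : ℝ) ≤ k := by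
          push_cast
          linarith
        exact_mod_cast h7
      · have h7 : (k : ℝ) ≤ ((k1 + 2 * F : ℤ) : ℝ) := by
          push_cast
          linarith
        exact_mod_cast h7
    refine (Finset.card_le_card h1).trans ?_
    rw [Int.card_Icc]
    omega
  have hcard : S.card ≤ (4 * F + 1) * (S.image m).card :=
    Finset.card_le_mul_card_image _ _ hfib
  have hδκ : δ ^ κ = K3 ^ κ * (L : ℝ) ^ (-κ) := by
    rw [hδ, Real.div_rpow (by linarith) hL0.le, Real.rpow_neg hL0.le, div_eq_mul_inv]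
  have hK3κ : 0 ≤ K3 ^ κ := Real.rpow_nonneg (by linarith) _
  have hLr : (0 : ℝ) < (L : ℝ) ^ r := by positivity
  have e1 : (S.card : ℝ) ≤ (4 * F + 1) * (((bad ω0 ω T H P Q L δ).card : ℝ) *
      (2 * (C2 * (N / (L : ℝ) ^ r)))) := by
    have h1 : (S.card : ℝ) ≤ (4 * F + 1) * ((S.image m).card : ℝ) := by exact_mod_cast hcard
    exact h1.trans (mul_le_mul_of_nonneg_left himg (by positivity))
  have e2 : ((bad ω0 ω T H P Q L δ).card : ℝ) * (2 * (C2 * (N / (L : ℝ) ^ r))) ≤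
      (C1 * δ ^ κ * (L : ℝ) ^ r) * (2 * (C2 * (((D + 2) * R) / (L : ℝ) ^ r))) := by
    refine mul_le_mul hb ?_ (by positivity) ?_
    · have h1 : (N : ℝ) / (L : ℝ) ^ r ≤ ((D + 2) * R) / (L : ℝ) ^ r :=
        div_le_div_of_nonneg_right hN2 hLr.le
      have h2 := mul_le_mul_of_nonneg_left h1 hC2.le
      linarith
    · rw [hδκ]
      positivity
  have e3 : (C1 * δ ^ κ * (L : ℝ) ^ r) * (2 * (C2 * (((D + 2) * R) / (L : ℝ) ^ r))) =
      (2 * (C2 * (D + 2))) * (C1 * K3 ^ κ) * R * (L : ℝ) ^ (-κ) := by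
    rw [hδκ]
    field_simp
  rw [e3] at e2
  have e4 := e1.trans (mul_le_mul_of_nonneg_left e2 (by positivity : (0 : ℝ) ≤ 4 * F + 1))
  refine e4.trans ?_
  have e5 : 0 ≤ 3 * K3 * R * (L : ℝ) ^ (-κ) := by positivity
  linarith

end Pool.Agent.Helper77.EHR.P
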