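import Mathlib

/-! MP_4f9849, all exponential sums: polynomials in exponentials, definitions. -/

namespace Pool.Agent.Helper77.EHR.P

/-- polynomials in `w₀` (first) and `w₁, …, w_r`. -/
abbrev A (r : ℕ) := MvPolynomial (Fin r) (Polynomial ℂ)

/-- evaluation at `w₀ = e^{iω₀z}`, `w_j = e(θ_j) e^{iω_j z}`. -/
noncomputable def ev {r : ℕ} (ω0 : ℝ) (ω θ : Fin r → ℝ) (z : ℂ) : A r →+* ℂ :=
  MvPolynomial.eval₂Hom (Polynomial.evalRingHom (Complex.exp (Complex.I * (ω0 : ℂ) * z)))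
    (fun j => Complex.exp (2 * Real.pi * Complex.I * (θ j : ℝ)) *
      Complex.exp (Complex.I * (ω j : ℂ) * z))

/-- the rectangle. -/
def Reg (T H : ℝ) : Set ℂ := {z | |z.re| ≤ T ∧ |z.im| ≤ H}

/-- rational independence of all frequencies. -/
def Ind {r : ℕ} (ω0 : ℝ) (ω : Fin r → ℝ) : Prop :=
  ∀ (h0 : ℤ) (h : Fin r → ℤ), (h0 : ℝ) * ω0 + ∑ j, (h j : ℝ) * ω j = 0 → h0 = 0 ∧ h = 0

open Classical in
/-- bad grid points. -/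
noncomputable def bad {r : ℕ} (ω0 : ℝ) (ω : Fin r → ℝ) (T H : ℝ) (P Q : A r) (L : ℕ) (δ : ℝ) :
    Finset (Fin r → ℕ) :=
  (Fintype.piFinset fun _ => Finset.range L).filter fun g =>
    ∃ z ∈ Reg T H, ‖ev ω0 ω (fun j => (g j : ℝ) / L) z P‖ ≤ δ ∧
      ‖ev ω0 ω (fun j => (g j : ℝ) / L) z Q‖ ≤ δ

/-- power saving for near common zeros. -/
def Claim {r : ℕ} (ω0 : ℝ) (ω : Fin r → ℝ) : Prop :=
  ∀ (T H : ℝ) (P Q : A r), Irreducible P → ¬ P ∣ Q → ∃ κ C : ℝ, 0 < κ ∧ κ ≤ 1 ∧ 0 ≤ C ∧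
    ∀ (L : ℕ) (δ : ℝ), 1 ≤ L → 1 / (L : ℝ) ≤ δ → δ ≤ 1 →
      ((bad ω0 ω T H P Q L δ).card : ℝ) ≤ C * δ ^ κ * (L : ℝ) ^ r

end Pool.Agent.Helper77.EHR.P
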