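import Mathlib
import Pool.Agent.Helper77.EHR.P.Defs

/-! MP_4f9849, ROW Q1: the derivation `w₀ ↦ iω₀w₀`, `w_j ↦ iω_jw_j`. -/

namespace Pool.Agent.Helper77.EHR.P

namespace Der

/-- the derivation on the coefficients of the monomial with exponent sum `c`. -/
noncomputable def D (ω0 : ℝ) (c : ℂ) (p : Polynomial ℂ) : Polynomial ℂ :=
  Polynomial.C c * p + Polynomial.C (Complex.I * (ω0 : ℂ)) * (Polynomial.X * p.derivative)

lemma D_coeff (ω0 : ℝ) (c : ℂ) (p : Polynomial ℂ) (a : ℕ) :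
    (D ω0 c p).coeff a = (c + Complex.I * (ω0 : ℂ) * a) * p.coeff a := by
  unfold D
  rw [Polynomial.coeff_add, Polynomial.coeff_C_mul, Polynomial.coeff_C_mul]
  have h : (Polynomial.X * p.derivative).coeff a = a * p.coeff a := by
    cases a with
    | zero => simp
    | succ a => rw [Polynomial.coeff_X_mul, Polynomial.coeff_derivative]; push_cast; ring
  rw [h]; ring

lemma D_zero (ω0 : ℝ) (c : ℂ) : D ω0 c 0 = 0 := by simp [D]

lemma D_natDegree (ω0 : ℝ) (c : ℂ) (p : Polynomial ℂ) : (D ω0 c p).natDegree ≤ p.natDegree := by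
  rw [Polynomial.natDegree_le_iff_coeff_eq_zero]
  intro n hn
  rw [D_coeff, Polynomial.coeff_eq_zero_of_natDegree_lt hn, mul_zero]

/-- the frequency of a monomial in `w₁, …, w_r`. -/
noncomputable def mu {r : ℕ} (ω : Fin r → ℝ) (m : Fin r →₀ ℕ) : ℂ := ∑ j, (m j : ℂ) * (ω j : ℂ)

/-- the derivative. -/
noncomputable def DD {r : ℕ} (ω0 : ℝ) (ω : Fin r → ℝ) (P : A r) : A r :=
  ∑ m ∈ P.support, MvPolynomial.monomial m (D ω0 (Complex.I * mu ω m) (P.coeff m))

lemma DD_coeff {r : ℕ} (ω0 : ℝ) (ω : Fin r → ℝ) (P : A r) (m : Fin r →₀ ℕ) :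
    (DD ω0 ω P).coeff m = D ω0 (Complex.I * mu ω m) (P.coeff m) := by
  classical
  unfold DD
  rw [MvPolynomial.coeff_sum]
  simp only [MvPolynomial.coeff_monomial]
  rw [Finset.sum_ite_eq' P.support m]
  split_ifs with h
  · rfl
  · rw [MvPolynomial.notMem_support_iff.1 h, D_zero]

lemma ev_monomial {r : ℕ} (ω0 : ℝ) (ω θ : Fin r → ℝ) (z : ℂ) (m : Fin r →₀ ℕ)
    (p : Polynomial ℂ) :
    ev ω0 ω θ z (MvPolynomial.monomial m p) = p.eval (Complex.exp (Complex.I * (ω0 : ℂ) * z)) *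
      Complex.exp (∑ j, (m j : ℂ) * (2 * Real.pi * Complex.I * (θ j : ℝ)) +
        Complex.I * mu ω m * z) := by
  unfold ev mu
  rw [MvPolynomial.eval₂Hom_monomial, Polynomial.coe_evalRingHom, Finsupp.prod_fintype _ _
    (fun i => pow_zero _)]
  congr 1
  rw [Finset.mul_sum, Finset.sum_mul, ← Finset.sum_add_distrib, Complex.exp_sum]
  refine Finset.prod_congr rfl fun j _ => ?_
  rw [← Complex.exp_add, ← Complex.exp_nat_mul]
  congr 1
  ring

lemma hasDeriv_monomial {r : ℕ} (ω0 : ℝ) (ω θ : Fin r → ℝ) (z : ℂ) (m : Fin r →₀ ℕ)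
    (p : Polynomial ℂ) :
    HasDerivAt (fun z => ev ω0 ω θ z (MvPolynomial.monomial m p))
      (ev ω0 ω θ z (MvPolynomial.monomial m (D ω0 (Complex.I * mu ω m) p))) z := by
  simp only [ev_monomial]
  set c : ℂ := ∑ j, (m j : ℂ) * (2 * Real.pi * Complex.I * (θ j : ℝ)) with hc
  have h1 : HasDerivAt (fun z : ℂ => Complex.exp (Complex.I * (ω0 : ℂ) * z))
      (Complex.exp (Complex.I * (ω0 : ℂ) * z) * (Complex.I * (ω0 : ℂ))) z := by
    have h := ((hasDerivAt_id z).const_mul (Complex.I * (ω0 : ℂ))).cexp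
    simpa using h
  have h2 : HasDerivAt (fun z : ℂ => Complex.exp (c + Complex.I * mu ω m * z))
      (Complex.exp (c + Complex.I * mu ω m * z) * (Complex.I * mu ω m)) z := by
    have h := (((hasDerivAt_id z).const_mul (Complex.I * mu ω m)).const_add c).cexp
    simpa using h
  have h3 := (Polynomial.hasDerivAt p (Complex.exp (Complex.I * (ω0 : ℂ) * z))).comp z h1
  have h4 := h3.mul h2
  refine h4.congr_deriv ?_
  unfold D
  simp only [Polynomial.eval_add, Polynomial.eval_mul, Polynomial.eval_C, Polynomial.eval_X,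
    Function.comp]
  ring

lemma hasDeriv {r : ℕ} (ω0 : ℝ) (ω θ : Fin r → ℝ) (z : ℂ) (P : A r) :
    HasDerivAt (fun z => ev ω0 ω θ z P) (ev ω0 ω θ z (DD ω0 ω P)) z := by
  have h1 : ∀ w, ev ω0 ω θ w P =
      ∑ m ∈ P.support, ev ω0 ω θ w (MvPolynomial.monomial m (P.coeff m)) := by
    intro w
    rw [← map_sum, MvPolynomial.support_sum_monomial_coeff]
  simp only [h1]
  unfold DD
  rw [map_sum]
  exact HasDerivAt.fun_sum fun m _ => hasDeriv_monomial ω0 ω θ z m (P.coeff m)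

end Der

open Der

/-- ROW Q1 (derivation). -/
theorem deriv_row {r : ℕ} (ω0 : ℝ) (ω : Fin r → ℝ) (hind : Ind ω0 ω) (P : A r) :
    (∀ θ z, ev ω0 ω θ z P ≠ 0) ∨ P = 0 ∨ ∃ Q : A r, ¬ P ∣ Q ∧
      ∀ θ z, HasDerivAt (fun z => ev ω0 ω θ z P) (ev ω0 ω θ z Q) z := by
  classical
  by_cases hP : P = 0
  · exact Or.inr (Or.inl hP)
  by_cases hdvd : P ∣ DD ω0 ω P
  swap
  · exact Or.inr (Or.inr ⟨_, hdvd, fun θ z => hasDeriv ω0 ω θ z P⟩)
  left
  obtain ⟨S, hS⟩ := hdvd
  -- the quotient is a constant polynomial in `w₁, …, w_r`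
  obtain ⟨s, rfl⟩ : ∃ s : Polynomial ℂ, S = MvPolynomial.C s := by
    by_cases hS0 : S = 0
    · exact ⟨0, by rw [hS0, map_zero]⟩
    have h1 : (DD ω0 ω P).totalDegree ≤ P.totalDegree := by
      refine MvPolynomial.totalDegree_le_of_support_subset fun m hm => ?_
      rw [MvPolynomial.mem_support_iff] at hm ⊢
      intro h
      rw [DD_coeff, h, D_zero] at hm
      exact hm rfl
    rw [hS, MvPolynomial.totalDegree_mul_of_isDomain hP hS0] at h1
    exact ⟨_, (MvPolynomial.totalDegree_eq_zero_iff_eq_C (p := S)).1 (by omega)⟩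
  have hco : ∀ m, D ω0 (Complex.I * mu ω m) (P.coeff m) = P.coeff m * s := by
    intro m
    rw [← DD_coeff, hS, mul_comm P, MvPolynomial.coeff_C_mul, mul_comm]
  obtain ⟨m0, hm0⟩ := MvPolynomial.ne_zero_iff.1 hP
  -- and in `w₀`
  obtain ⟨c, rfl⟩ : ∃ c : ℂ, s = Polynomial.C c := by
    by_cases hs0 : s = 0
    · exact ⟨0, by rw [hs0, map_zero]⟩
    have h1 := D_natDegree ω0 (Complex.I * mu ω m0) (P.coeff m0)
    rw [hco m0, Polynomial.natDegree_mul hm0 hs0] at h1
    exact ⟨_, Polynomial.eq_C_of_natDegree_eq_zero (by omega)⟩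
  have hcc : ∀ m a, (P.coeff m).coeff a ≠ 0 →
      Complex.I * mu ω m + Complex.I * (ω0 : ℂ) * a = c := by
    intro m a h
    have h1 := congrArg (fun p : Polynomial ℂ => p.coeff a) (hco m)
    simp only [D_coeff, Polynomial.coeff_mul_C] at h1
    rw [mul_comm ((P.coeff m).coeff a)] at h1
    exact mul_right_cancel₀ h h1
  set a0 := (P.coeff m0).natDegree with ha0
  have hx : (P.coeff m0).coeff a0 ≠ 0 := by
    rw [ha0, Polynomial.coeff_natDegree]
    exact Polynomial.leadingCoeff_ne_zero.2 hm0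
  have huniq : ∀ m a, (P.coeff m).coeff a ≠ 0 → m = m0 ∧ a = a0 := by
    intro m a h
    have h1 := hcc m a h
    rw [← hcc m0 a0 hx] at h1
    have h2 : mu ω m + (ω0 : ℂ) * a = mu ω m0 + (ω0 : ℂ) * a0 := by
      have h3 : Complex.I * (mu ω m + (ω0 : ℂ) * a) = Complex.I * (mu ω m0 + (ω0 : ℂ) * a0) := by
        linear_combination h1
      exact mul_left_cancel₀ Complex.I_ne_zero h3
    unfold mu at h2
    have h3 : ∑ j, (m j : ℝ) * ω j + ω0 * a = ∑ j, (m0 j : ℝ) * ω j + ω0 * a0 := by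
      exact_mod_cast h2
    have h4 := hind ((a : ℤ) - a0) (fun j => (m j : ℤ) - m0 j) (by
      push_cast
      simp only [sub_mul, Finset.sum_sub_distrib]
      linarith)
    refine ⟨Finsupp.ext fun j => ?_, by have := h4.1; omega⟩
    have h5 := congrFun h4.2 j
    simp only [Pi.zero_apply] at h5
    omega
  have hPm : P = MvPolynomial.monomial m0 (Polynomial.monomial a0 ((P.coeff m0).coeff a0)) := by
    refine MvPolynomial.ext _ _ fun m => Polynomial.ext fun a => ?_
    rw [MvPolynomial.coeff_monomial]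
    by_cases hm : m0 = m
    · subst hm
      rw [if_pos rfl, Polynomial.coeff_monomial]
      split_ifs with h
      · rw [h]
      · by_contra h1
        exact h (huniq m0 a h1).2.symm
    · rw [if_neg hm, Polynomial.coeff_zero]
      by_contra h1
      exact hm (huniq m a h1).1.symm
  intro θ z
  rw [hPm, ev_monomial, Polynomial.eval_monomial]
  exact mul_ne_zero (mul_ne_zero hx (pow_ne_zero _ (Complex.exp_ne_zero _))) (Complex.exp_ne_zero _)

end Pool.Agent.Helper77.EHR.P
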