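import Mathlib
import Pool.Agent.Helper77.EHR.Zeros

/-! MP_4f9849, all exponential sums: the zeros lie in a horizontal strip. -/

namespace Pool.Agent.Helper77.EHR.P

open Filter Topology
open Pool.Agent.Helper77.EHR (G norm_term)

variable {ι : Type*} [Fintype ι] [DecidableEq ι]

lemma domG (w l : ι → ℝ) (hl : Function.Injective l) (hw : ∃ j, w j ≠ 0) :
    ∃ j, ∃ Y : ℝ, 0 ≤ Y ∧ ∀ y, Y ≤ y →
      ∑ i ∈ Finset.univ.erase j, |w i| * Real.exp (-(l i * y)) < |w j| * Real.exp (-(l j * y)) := by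
  classical
  obtain ⟨j, hj, hmin⟩ := Finset.exists_min_image (Finset.univ.filter fun j => w j ≠ 0) l
    (by obtain ⟨j, hj⟩ := hw; exact ⟨j, by simp [hj]⟩)
  have hwj : w j ≠ 0 := by simpa using hj
  have hT : Tendsto (fun y : ℝ => ∑ i ∈ Finset.univ.erase j, |w i| * Real.exp (-((l i - l j) * y)))
      atTop (𝓝 (∑ i ∈ Finset.univ.erase j, (0 : ℝ))) := by
    refine tendsto_finsetSum _ (fun i hi => ?_)
    have hij : i ≠ j := (Finset.mem_erase.1 hi).1
    by_cases hwi : w i = 0
    · simp [hwi]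
    · have h1 : l j < l i := by
        have := hmin i (by simp [hwi])
        exact lt_of_le_of_ne this (fun h => hij (hl h.symm))
      have h2 : Tendsto (fun y : ℝ => -((l i - l j) * y)) atTop atBot := by
        have : Tendsto (fun y : ℝ => (l i - l j) * y) atTop atTop :=
          Tendsto.const_mul_atTop (by linarith) tendsto_id
        exact tendsto_neg_atTop_atBot.comp this
      have h3 := (Real.tendsto_exp_atBot.comp h2).const_mul (|w i|)
      simpa using h3
  rw [Finset.sum_const_zero] at hT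
  have hpos : 0 < |w j| := abs_pos.2 hwj
  obtain ⟨Y, hY⟩ := eventually_atTop.1 (hT.eventually (gt_mem_nhds hpos))
  refine ⟨j, max Y 0, le_max_right _ _, fun y hy => ?_⟩
  have h := hY y (le_trans (le_max_left _ _) hy)
  have he : 0 < Real.exp (-(l j * y)) := Real.exp_pos _
  have := mul_lt_mul_of_pos_right h he
  rw [Finset.sum_mul] at this
  refine lt_of_le_of_lt (le_of_eq ?_) this
  refine Finset.sum_congr rfl (fun i _ => ?_)
  rw [mul_assoc, ← Real.exp_add]
  congr 2
  ring

lemma stripG (c : ι → ℂ) (l : ι → ℝ) (hl : Function.Injective l) (hc : ∃ j, c j ≠ 0) :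
    ∃ H : ℝ, 0 ≤ H ∧ ∀ z, G c l z = 0 → |z.im| ≤ H := by
  classical
  have hw : ∃ j, ‖c j‖ ≠ 0 := by obtain ⟨j, hj⟩ := hc; exact ⟨j, by simpa using hj⟩
  obtain ⟨j, Y, hY0, hY⟩ := domG (fun j => ‖c j‖) l hl hw
  obtain ⟨j', Y', hY0', hY'⟩ := domG (fun j => ‖c j‖) (fun j => -l j)
    (fun a b h => hl (neg_injective h)) hw
  refine ⟨max Y Y', le_max_of_le_left hY0, fun z hz => ?_⟩
  by_contra hcon
  rw [not_le] at hcon
  have key : ∀ j, ‖c j‖ * Real.exp (-(l j * z.im)) ≤
      ∑ i ∈ Finset.univ.erase j, ‖c i‖ * Real.exp (-(l i * z.im)) := by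
    intro j
    unfold G at hz
    rw [← Finset.add_sum_erase _ _ (Finset.mem_univ j)] at hz
    rw [← norm_term, eq_neg_of_add_eq_zero_left hz, norm_neg]
    refine (norm_sum_le _ _).trans (le_of_eq ?_)
    exact Finset.sum_congr rfl (fun i _ => norm_term _ _ _ _)
  rcases le_or_gt 0 z.im with h | h
  · rw [abs_of_nonneg h] at hcon
    have h1 := hY z.im ((le_max_left _ _).trans hcon.le)
    simp only [abs_norm] at h1
    exact absurd h1 (not_lt.2 (key j))
  · rw [abs_of_neg h] at hcon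
    have h1 := hY' (-z.im) ((le_max_right _ _).trans hcon.le)
    simp only [abs_norm, neg_mul_neg] at h1
    exact absurd h1 (not_lt.2 (key j'))

end Pool.Agent.Helper77.EHR.P
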