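import Mathlib
import Pool.Agent.Helper77.EHR.P.Strip
import Pool.Agent.Helper77.EHR.Rank1

/-! MP_4f9849, all exponential sums: from cells to zeros. -/

namespace Pool.Agent.Helper77.EHR.P

open Filter Topology
open Pool.Agent.Helper77.EHR (G G_diff finite_zeros zeros_cell)

variable {ι : Type*} [Fintype ι]

lemma G_finite (c : ι → ℂ) (l : ι → ℝ) (hl : Function.Injective l) (hc : ∃ j, c j ≠ 0) (R : ℝ) :
    {z : ℂ | ‖z‖ ≤ R ∧ G c l z = 0}.Finite := by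
  classical
  have h1 := finite_zeros (G c l) (fun z => (G_diff c l).analyticAt z) (by
    by_contra hcon
    push Not at hcon
    obtain ⟨ρ, hρ, _, hloc⟩ := zeros_local c l hl hc 0
    have h2 := hloc 0 (by simp) ((Finset.range (Fintype.card ι)).image
      (fun n : ℕ => ((ρ / (n + 1) : ℝ) : ℂ))) (fun a ha => ⟨hcon a, by
        rw [Finset.mem_image] at ha
        obtain ⟨n, _, rfl⟩ := ha
        rw [sub_zero, Complex.norm_real, Real.norm_eq_abs, abs_of_pos (by positivity)]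
        exact div_le_self hρ.le (by linarith [(Nat.cast_nonneg n : (0 : ℝ) ≤ n)])⟩)
    rw [Finset.card_image_of_injective, Finset.card_range] at h2
    · exact lt_irrefl _ h2
    · intro a b hab
      have h3 : (ρ / (a + 1) : ℝ) = ρ / (b + 1) := Complex.ofReal_injective hab
      rw [div_eq_div_iff (by positivity) (by positivity)] at h3
      have h4 : (b : ℝ) + 1 = a + 1 := mul_left_cancel₀ hρ.ne' h3
      exact_mod_cast (by linarith : (a : ℝ) = b)) R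
  exact h1.subset (fun z hz => ⟨hz.2, hz.1⟩)

theorem final_count2 (c : ι → ℂ) (l : ι → ℝ)
    (hl : Function.Injective l) (hc : ∃ j, c j ≠ 0) (H : ℝ) (hH : ∀ z, G c l z = 0 → |z.im| ≤ H)
    (hcell : ∃ (A : ℕ) (κ C : ℝ), 0 < κ ∧ κ ≤ 1 ∧ 0 ≤ C ∧ ∀ (L : ℕ) (R : ℝ) (S : Finset ℤ), 1 ≤ L →
      (L : ℝ) ^ A ≤ R → 1 ≤ R → (∀ k ∈ S, |(k : ℝ)| ≤ R ∧ ∃ z w : ℂ, (k : ℝ) ≤ z.re ∧ z.re < k + 1 ∧
        G c l z = 0 ∧ G c l w = 0 ∧ w ≠ z ∧ ‖z - w‖ ≤ 1 / L) →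
      (S.card : ℝ) ≤ C * R * (L : ℝ) ^ (-κ)) :
    ∃ κ a C : ℝ, 0 < κ ∧ 0 < a ∧ 0 ≤ C ∧ ∀ R d : ℝ, 1 ≤ R → 0 < d → d ≤ 1 →
      ({z : ℂ | ‖z‖ ≤ R ∧ G c l z = 0 ∧ ∃ w, w ≠ z ∧ G c l w = 0 ∧ ‖z - w‖ ≤ d}.ncard : ℝ) ≤
        C * (R * d ^ κ + R ^ (1 - a)) := by
  classical
  obtain ⟨A, κ, C, hκ, hκ1, hC, hcell⟩ := hcell
  obtain ⟨Z, hZ⟩ := zeros_cell c l hl hc H
  refine ⟨κ, κ / (A + 1), Z * (4 * C), hκ, by positivity, by positivity, fun R d hR hd hd1 => ?_⟩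
  have hR0 : 0 < R := by linarith
  set W : Set ℂ := {z : ℂ | ‖z‖ ≤ R ∧ G c l z = 0 ∧ ∃ w, w ≠ z ∧ G c l w = 0 ∧ ‖z - w‖ ≤ d} with hW
  have hfin : W.Finite := (G_finite c l hl hc R).subset (fun z hz => ⟨hz.1, hz.2.1⟩)
  obtain ⟨y, hy⟩ : ∃ y : ℝ, y = min (1 / d) (R ^ (1 / ((A : ℝ) + 1))) := ⟨_, rfl⟩
  have hA1 : (0 : ℝ) < (A : ℝ) + 1 := by positivity
  have hy1 : 1 ≤ y := by
    rw [hy, le_min_iff]
    exact ⟨by rw [le_div_iff₀ hd]; linarith, Real.one_le_rpow hR (by positivity)⟩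
  have hyd : y ≤ 1 / d := hy ▸ min_le_left _ _
  have hyR : y ≤ R ^ (1 / ((A : ℝ) + 1)) := hy ▸ min_le_right _ _
  have hy0 : 0 < y := by linarith
  obtain ⟨L, hL⟩ : ∃ L : ℕ, L = ⌊y⌋₊ := ⟨_, rfl⟩
  have hL1 : 1 ≤ L := by rw [hL]; exact Nat.le_floor (by exact_mod_cast hy1)
  have hLy : (L : ℝ) ≤ y := by rw [hL]; exact Nat.floor_le hy0.le
  have hL1' : (1 : ℝ) ≤ L := by exact_mod_cast hL1
  have hyL : y ≤ 2 * L := by
    have : y < L + 1 := by rw [hL]; exact Nat.lt_floor_add_one y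
    linarith
  have hLA : (L : ℝ) ^ A ≤ R + 1 := by
    calc (L : ℝ) ^ A ≤ y ^ A := pow_le_pow_left₀ (by positivity) hLy A
      _ ≤ (R ^ (1 / ((A : ℝ) + 1))) ^ A := pow_le_pow_left₀ hy0.le hyR A
      _ = R ^ ((1 / ((A : ℝ) + 1)) * A) := by
        rw [← Real.rpow_natCast (R ^ (1 / ((A : ℝ) + 1))), ← Real.rpow_mul hR0.le]
      _ ≤ R ^ (1 : ℝ) := Real.rpow_le_rpow_of_exponent_le hR (by
        rw [one_div, inv_mul_le_iff₀ hA1]; linarith)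
      _ ≤ R + 1 := by rw [Real.rpow_one]; linarith
  set S : Finset ℤ := hfin.toFinset.image (fun z : ℂ => ⌊z.re⌋) with hS
  have e1 := hcell L (R + 1) S hL1 hLA (by linarith) (by
    intro k hk
    rw [hS, Finset.mem_image] at hk
    obtain ⟨z, hz, rfl⟩ := hk
    rw [Set.Finite.mem_toFinset] at hz
    obtain ⟨h1, h2, w, h3, h4, h5⟩ := hz
    have h6 : |z.re| ≤ R := (Complex.abs_re_le_norm z).trans h1
    have h7 := abs_le.1 h6
    have h8 := Int.floor_le z.re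
    have h9 := Int.lt_floor_add_one z.re
    refine ⟨abs_le.2 ⟨by linarith, by linarith⟩, z, w, h8, h9, h2, h4, h3, h5.trans ?_⟩
    rw [le_div_iff₀ (by linarith)]
    calc d * L ≤ d * y := mul_le_mul_of_nonneg_left hLy hd.le
      _ ≤ d * (1 / d) := mul_le_mul_of_nonneg_left hyd hd.le
      _ = 1 := by field_simp)
  have e2 : W.ncard ≤ S.card * Z := by
    rw [Set.ncard_eq_toFinset_card W hfin]
    rw [mul_comm]
    refine Finset.card_le_mul_card_image (f := fun z : ℂ => ⌊z.re⌋) hfin.toFinset Z (fun k hk => ?_)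
    refine hZ k _ (fun z hz => ?_)
    rw [Finset.mem_filter, Set.Finite.mem_toFinset] at hz
    obtain ⟨⟨h1, h2, h3⟩, h4⟩ := hz
    refine ⟨h2, hH z h2, ?_, ?_⟩
    · rw [← h4]; exact Int.floor_le z.re
    · rw [← h4]; exact Int.lt_floor_add_one z.re
  have e3 : (L : ℝ) ^ (-κ) ≤ 2 * y ^ (-κ) := by
    have h1 : (L : ℝ) ^ (-κ) ≤ (y / 2) ^ (-κ) :=
      Real.rpow_le_rpow_of_nonpos (by positivity) (by linarith) (by linarith)
    have h2 : (y / 2) ^ (-κ) = y ^ (-κ) * 2 ^ κ := by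
      rw [Real.div_rpow hy0.le (by norm_num), Real.rpow_neg (by norm_num : (0 : ℝ) ≤ 2)]
      field_simp
    have h3 : (2 : ℝ) ^ κ ≤ 2 := by
      calc (2 : ℝ) ^ κ ≤ 2 ^ (1 : ℝ) := Real.rpow_le_rpow_of_exponent_le (by norm_num) hκ1
        _ = 2 := Real.rpow_one _
    have h4 : 0 < y ^ (-κ) := by positivity
    calc _ ≤ _ := h1
      _ = _ := h2
      _ ≤ y ^ (-κ) * 2 := mul_le_mul_of_nonneg_left h3 h4.le
      _ = _ := by ring
  have e4 : y ^ (-κ) ≤ d ^ κ + R ^ (-(κ / (A + 1))) := by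
    have h1 : 0 < d ^ κ := by positivity
    have h2 : 0 < R ^ (-(κ / ((A : ℝ) + 1))) := by positivity
    rcases min_choice (1 / d) (R ^ (1 / ((A : ℝ) + 1))) with h | h
    · rw [h] at hy
      have : y ^ (-κ) = d ^ κ := by
        rw [hy, one_div, Real.inv_rpow hd.le, Real.rpow_neg hd.le, inv_inv]
      rw [this]; linarith
    · rw [h] at hy
      have : y ^ (-κ) = R ^ (-(κ / ((A : ℝ) + 1))) := by
        rw [hy, ← Real.rpow_mul hR0.le]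
        congr 1; field_simp
      rw [this]; linarith
  have e5 : R * R ^ (-(κ / ((A : ℝ) + 1))) = R ^ (1 - κ / ((A : ℝ) + 1)) := by
    rw [sub_eq_add_neg, Real.rpow_add hR0, Real.rpow_one]
  have e6 : (S.card : ℝ) ≤ 4 * C * (R * d ^ κ + R ^ (1 - κ / ((A : ℝ) + 1))) := by
    calc (S.card : ℝ) ≤ C * (R + 1) * (L : ℝ) ^ (-κ) := e1
      _ ≤ C * (2 * R) * (2 * (d ^ κ + R ^ (-(κ / ((A : ℝ) + 1))))) := by
        have h1 : R + 1 ≤ 2 * R := by linarith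
        have h2 : (L : ℝ) ^ (-κ) ≤ 2 * (d ^ κ + R ^ (-(κ / ((A : ℝ) + 1)))) := by linarith
        gcongr
      _ = 4 * C * (R * d ^ κ + R * R ^ (-(κ / ((A : ℝ) + 1)))) := by ring
      _ = _ := by rw [e5]
  calc (W.ncard : ℝ) ≤ S.card * Z := by exact_mod_cast e2
    _ ≤ (4 * C * (R * d ^ κ + R ^ (1 - κ / ((A : ℝ) + 1)))) * Z :=
      mul_le_mul_of_nonneg_right e6 (by positivity)
    _ = _ := by ring

end Pool.Agent.Helper77.EHR.P
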