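import Mathlib
import Pool.Agent.Helper77.EHR.P.Defs

/-! MP_4f9849, ROW Q2: a lattice basis of the differences of the frequencies. -/

namespace Pool.Agent.Helper77.EHR.P

/-- ROW Q2 (lattice basis of the differences). -/
theorem lattice_row {ι : Type*} [Fintype ι] (l : ι → ℝ) (ha : ∀ j, IsAlgebraic ℚ (l j))
    (i0 i1 : ι) (h : l i0 ≠ l i1) :
    ∃ (r : ℕ) (ω0 : ℝ) (ω : Fin r → ℝ) (μ : ℝ) (m0 : ι → ℕ) (m : ι → Fin r → ℕ),
      ω0 ≠ 0 ∧ IsAlgebraic ℚ ω0 ∧ (∀ j, IsAlgebraic ℚ (ω j)) ∧ Ind ω0 ω ∧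
      ∀ j, l j = μ + m0 j * ω0 + ∑ i, m j i * ω i := by
  classical
  set M : Submodule ℤ ℝ := Submodule.span ℤ (Set.range fun j => l j - l i0) with hM
  have hmem : ∀ j, l j - l i0 ∈ M := fun j => Submodule.subset_span ⟨j, rfl⟩
  have hfg : M.FG := ⟨(Set.finite_range fun j => l j - l i0).toFinset, by
    rw [Set.Finite.coe_toFinset]⟩
  have : Module.Finite ℤ M := Module.Finite.iff_fg.2 hfg
  have : Module.Free ℤ M := inferInstance
  have halg : ∀ x ∈ M, IsAlgebraic ℚ x := by
    intro x hx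
    induction hx using Submodule.span_induction with
    | mem x hx =>
      obtain ⟨j, rfl⟩ := hx
      exact (ha j).sub (ha i0)
    | zero => exact isAlgebraic_zero
    | add x y _ _ hx hy => exact hx.add hy
    | smul a x _ hx =>
      rw [zsmul_eq_mul]
      exact (isAlgebraic_intCast a).mul hx
  obtain ⟨n, b⟩ : Σ n, Module.Basis (Fin n) ℤ M := ⟨_, Module.finBasis ℤ M⟩
  have hrep : ∀ x : M, (x : ℝ) = ∑ k, (b.repr x k : ℝ) * (b k : ℝ) := by
    intro x
    have h1 := b.sum_repr x
    have h2 := congrArg (fun y : M => (y : ℝ)) h1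
    simp only [Submodule.coe_sum, Submodule.coe_smul, zsmul_eq_mul] at h2
    exact h2.symm
  have hind : ∀ g : Fin n → ℤ, ∑ k, (g k : ℝ) * (b k : ℝ) = 0 → g = 0 := by
    intro g hg
    have h1 : ∑ k, g k • b k = 0 := by
      apply Subtype.ext
      simp only [Submodule.coe_sum, Submodule.coe_smul, zsmul_eq_mul, Submodule.coe_zero]
      exact hg
    funext k
    exact Fintype.linearIndependent_iff.1 b.linearIndependent g h1 k
  cases n with
  | zero =>
    exfalso
    have h1 := hrep ⟨_, hmem i1⟩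
    simp only [Finset.univ_eq_empty, Finset.sum_empty] at h1
    exact h (sub_eq_zero.1 h1).symm
  | succ r =>
    let co : ι → Fin (r + 1) → ℤ := fun j k => b.repr ⟨_, hmem j⟩ k
    obtain ⟨N, hN⟩ : ∃ N : ℕ, ∀ j k, 0 ≤ co j k + N := by
      refine ⟨∑ j, ∑ k, (co j k).natAbs, fun j k => ?_⟩
      have h1 : (co j k).natAbs ≤ ∑ j, ∑ k, (co j k).natAbs :=
        (Finset.single_le_sum (f := fun k => (co j k).natAbs) (fun _ _ => Nat.zero_le _)
          (Finset.mem_univ k)).trans
          (Finset.single_le_sum (f := fun j => ∑ k, (co j k).natAbs) (fun _ _ => Nat.zero_le _)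
            (Finset.mem_univ j))
      have h2 : -((co j k).natAbs : ℤ) ≤ co j k := by
        rw [Int.natCast_natAbs]; exact neg_abs_le _
      have h3 : ((co j k).natAbs : ℤ) ≤ ((∑ j, ∑ k, (co j k).natAbs : ℕ) : ℤ) := by
        exact_mod_cast h1
      linarith
    have hcast : ∀ j k, (((co j k + N).toNat : ℕ) : ℝ) = (co j k : ℝ) + N := by
      intro j k
      have h1 : (((co j k + N).toNat : ℕ) : ℤ) = co j k + N := Int.toNat_of_nonneg (hN j k)
      have h2 := congrArg (fun x : ℤ => (x : ℝ)) h1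
      push_cast at h2
      exact h2
    refine ⟨r, (b 0 : ℝ), fun j => (b j.succ : ℝ), l i0 - N * ∑ k, (b k : ℝ),
      fun j => (co j 0 + N).toNat, fun j k => (co j k.succ + N).toNat, ?_, halg _ (b 0).2,
      fun j => halg _ (b j.succ).2, ?_, ?_⟩
    · intro h0
      have h1 := b.ne_zero 0
      exact h1 (Subtype.ext h0)
    · intro h0 g hg
      have h1 := hind (Fin.cons h0 g) (by
        rw [Fin.sum_univ_succ]
        simpa only [Fin.cons_zero, Fin.cons_succ] using hg)
      refine ⟨by simpa using congrFun h1 0, funext fun k => by simpa using congrFun h1 k.succ⟩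
    · intro j
      have h1 : l j - l i0 = ∑ k, (co j k : ℝ) * (b k : ℝ) := hrep ⟨_, hmem j⟩
      have h2 : ∑ k, (b k : ℝ) = (b 0 : ℝ) + ∑ k : Fin r, (b k.succ : ℝ) := Fin.sum_univ_succ _
      rw [Fin.sum_univ_succ] at h1
      simp only [hcast, h2]
      simp only [add_mul, Finset.sum_add_distrib]
      rw [← Finset.mul_sum]
      linarith

end Pool.Agent.Helper77.EHR.P
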