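import Mathlib
import Pool.Agent.Helper77.EHR.P.Defs
import Pool.Agent.Helper77.EHR.Zeros

/-! MP_4f9849, all exponential sums: close distinct zeros are near common zeros of a pair of
polynomials (row Q3, with the rows Q1, Q2, L as hypotheses). -/

namespace Pool.Agent.Helper77.EHR.P

open Pool.Agent.Helper77.EHR (G)

/-- the polynomial of an exponential sum -/
noncomputable def poly9 {ι : Type*} [Fintype ι] {r : ℕ} (c : ι → ℂ) (m0 : ι → ℕ) (m : ι → Fin r → ℕ) : A r :=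
  ∑ j, MvPolynomial.monomial (Finsupp.equivFunOnFinite.symm (m j)) (Polynomial.monomial (m0 j) (c j))

theorem ev_poly9 {ι : Type*} [Fintype ι] {r : ℕ} (c : ι → ℂ) (l : ι → ℝ) (m0 : ι → ℕ)
    (m : ι → Fin r → ℕ) (ω0 : ℝ) (ω : Fin r → ℝ) (μ : ℝ)
    (hm : ∀ j, l j = μ + m0 j * ω0 + ∑ i, m j i * ω i) (z : ℂ) :
    G c l z = Complex.exp (Complex.I * μ * z) * ev ω0 ω (fun _ => 0) z (poly9 c m0 m) := by
  rw [poly9, map_sum, G, Finset.mul_sum]
  refine Finset.sum_congr rfl fun j _ => ?_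
  rw [ev, MvPolynomial.coe_eval₂Hom, MvPolynomial.eval₂_monomial, Polynomial.coe_evalRingHom,
    Polynomial.eval_monomial, Finsupp.prod_fintype _ _ (fun i => pow_zero _)]
  have h1 : ∀ i : Fin r, (Complex.exp (2 * Real.pi * Complex.I * ((0 : ℝ) : ℂ)) *
      Complex.exp (Complex.I * (ω i : ℂ) * z)) ^ ((Finsupp.equivFunOnFinite.symm (m j)) i) =
      Complex.exp (m j i * (Complex.I * (ω i : ℂ) * z)) := by
    intro i
    rw [Complex.exp_nat_mul]
    simp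
  have h2 : Complex.I * (l j : ℂ) * z = Complex.I * μ * z + ((m0 j : ℂ) * (Complex.I * (ω0 : ℂ) * z) +
      ∑ i, (m j i : ℂ) * (Complex.I * (ω i : ℂ) * z)) := by
    have h3 : ∑ i, (m j i : ℂ) * (Complex.I * (ω i : ℂ) * z) =
        Complex.I * (∑ i, (m j i : ℂ) * (ω i : ℂ)) * z := by
      rw [Finset.mul_sum, Finset.sum_mul]
      exact Finset.sum_congr rfl fun i _ => by ring
    rw [h3, hm j]
    push_cast
    ring
  simp only [h1]
  rw [h2, Complex.exp_add, Complex.exp_add, Complex.exp_sum, Complex.exp_nat_mul]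
  ring

theorem poly9_ne_zero {ι : Type*} [Fintype ι] [Nonempty ι] {r : ℕ} (c : ι → ℂ) (l : ι → ℝ)
    (hl : Function.Injective l) (hc : ∀ j, c j ≠ 0) (m0 : ι → ℕ)
    (m : ι → Fin r → ℕ) (ω0 : ℝ) (ω : Fin r → ℝ) (μ : ℝ)
    (hm : ∀ j, l j = μ + m0 j * ω0 + ∑ i, m j i * ω i) : poly9 c m0 m ≠ 0 := by
  classical
  intro h
  obtain ⟨j₀⟩ := (inferInstance : Nonempty ι)
  have h1 := congrArg (fun P : A r => ((P.coeff (Finsupp.equivFunOnFinite.symm (m j₀)))).coeff (m0 j₀)) h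
  simp only [poly9, MvPolynomial.coeff_sum, Polynomial.finsetSum_coeff, MvPolynomial.coeff_monomial,
    MvPolynomial.coeff_zero, Polynomial.coeff_zero] at h1
  rw [Finset.sum_eq_single j₀] at h1
  · rw [if_pos rfl, Polynomial.coeff_monomial, if_pos rfl] at h1
    exact hc j₀ h1
  · intro j _ hj
    by_cases h2 : Finsupp.equivFunOnFinite.symm (m j) = Finsupp.equivFunOnFinite.symm (m j₀)
    · rw [if_pos h2, Polynomial.coeff_monomial]
      by_cases h3 : m0 j = m0 j₀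
      · exfalso
        apply hj
        apply hl
        have h4 : m j = m j₀ := Finsupp.equivFunOnFinite.symm.injective h2
        rw [hm j, hm j₀, h3, h4]
      · rw [if_neg h3]
    · rw [if_neg h2, Polynomial.coeff_zero]
  · intro h2
    exact absurd (Finset.mem_univ _) h2

/-- the shift by a multiple of the period of the first exponential -/
theorem ev_shift9 {r : ℕ} {ω0 : ℝ} (h0 : ω0 ≠ 0) (ω : Fin r → ℝ) (n : ℤ) (z : ℂ) (P : A r) :
    ev ω0 ω (fun _ => 0) (z + ((n * (2 * Real.pi / ω0) : ℝ) : ℂ)) P =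
      ev ω0 ω (fun j => n * (ω j / ω0)) z P := by
  have hc : (ω0 : ℂ) ≠ 0 := by exact_mod_cast h0
  have h1 : Complex.exp (Complex.I * (ω0 : ℂ) * (z + ((n * (2 * Real.pi / ω0) : ℝ) : ℂ))) =
      Complex.exp (Complex.I * (ω0 : ℂ) * z) := by
    have : Complex.I * (ω0 : ℂ) * (z + ((n * (2 * Real.pi / ω0) : ℝ) : ℂ)) =
        Complex.I * (ω0 : ℂ) * z + n * (2 * Real.pi * Complex.I) := by
      push_cast
      field_simp
    rw [this]
    exact Complex.exp_periodic.int_mul n _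
  have h2 : ∀ j, Complex.exp (2 * Real.pi * Complex.I * ((0 : ℝ) : ℂ)) *
      Complex.exp (Complex.I * (ω j : ℂ) * (z + ((n * (2 * Real.pi / ω0) : ℝ) : ℂ))) =
      Complex.exp (2 * Real.pi * Complex.I * ((n * (ω j / ω0) : ℝ) : ℂ)) *
      Complex.exp (Complex.I * (ω j : ℂ) * z) := by
    intro j
    rw [← Complex.exp_add, ← Complex.exp_add]
    congr 1
    push_cast
    field_simp
    ring
  unfold ev
  rw [h1]
  simp only [h2]

/-- the Lipschitz property on a strip -/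
theorem lip9 {r : ℕ} {ω0 : ℝ} (h0 : ω0 ≠ 0) (ω : Fin r → ℝ)
    (hL : ∀ (T H : ℝ) (P : A r), ∃ K : ℝ, 0 ≤ K ∧ ∀ (θ θ' : Fin r → ℝ) (z z' : ℂ) (s : ℝ),
      z ∈ Reg T H → z' ∈ Reg T H → (∀ j, ∃ m : ℤ, |θ j - m - θ' j| ≤ s) → ‖z - z'‖ ≤ s →
      ‖ev ω0 ω θ z P‖ ≤ K ∧ ‖ev ω0 ω θ z P - ev ω0 ω θ' z' P‖ ≤ K * s) (H : ℝ) (P : A r) :
    ∃ K : ℝ, 0 ≤ K ∧ ∀ z w : ℂ, |z.im| ≤ H → |w.im| ≤ H → ‖z - w‖ ≤ 1 →
      ‖ev ω0 ω (fun _ => 0) z P - ev ω0 ω (fun _ => 0) w P‖ ≤ K * ‖z - w‖ := by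
  obtain ⟨K, hK, h⟩ := hL (2 * Real.pi / |ω0| + 1) H P
  refine ⟨K, hK, fun z w hz hw hzw => ?_⟩
  have hp : 0 < 2 * Real.pi / |ω0| := by positivity
  set p : ℝ := 2 * Real.pi / ω0 with hpdef
  have hpabs : |p| = 2 * Real.pi / |ω0| := by
    rw [hpdef, abs_div, abs_of_pos (by positivity : (0 : ℝ) < 2 * Real.pi)]
  have hp0 : p ≠ 0 := by
    intro h1
    rw [h1, abs_zero] at hpabs
    exact hp.ne hpabs
  set n : ℤ := ⌊z.re / p⌋ with hn
  set ζ : ℂ := z - ((n * p : ℝ) : ℂ) with hζ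
  set ξ : ℂ := w - ((n * p : ℝ) : ℂ) with hξ
  have hzz : z = ζ + ((n * p : ℝ) : ℂ) := by rw [hζ]; ring
  have hww : w = ξ + ((n * p : ℝ) : ℂ) := by rw [hξ]; ring
  have hre : |ζ.re| ≤ |p| := by
    have h1 : ζ.re = Int.fract (z.re / p) * p := by
      rw [hζ, Complex.sub_re, Complex.ofReal_re, Int.fract, sub_mul, div_mul_cancel₀ _ hp0]
    rw [h1, abs_mul, abs_of_nonneg (Int.fract_nonneg _)]
    exact mul_le_of_le_one_left (abs_nonneg _) (Int.fract_lt_one _).le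
  have hζξ : ζ - ξ = z - w := by rw [hζ, hξ]; ring
  have hre2 : |ξ.re| ≤ |p| + 1 := by
    have h1 : |(ζ - ξ).re| ≤ 1 := by
      rw [hζξ]
      exact (Complex.abs_re_le_norm _).trans hzw
    have h2 : ξ.re = ζ.re - (ζ - ξ).re := by
      have := Complex.sub_re ζ ξ
      linarith
    rw [h2]
    exact (abs_sub _ _).trans (add_le_add hre h1)
  have h3 := (h (fun j => n * (ω j / ω0)) (fun j => n * (ω j / ω0)) ζ ξ ‖z - w‖
    ⟨by rw [← hpabs]; linarith, by rw [hζ, Complex.sub_im, Complex.ofReal_im, sub_zero]; exact hz⟩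
    ⟨by rw [← hpabs]; exact hre2, by rw [hξ, Complex.sub_im, Complex.ofReal_im, sub_zero]; exact hw⟩
    (fun j => ⟨0, by simp⟩) (by rw [hζξ])).2
  rw [hzz, hww, hpdef, ev_shift9 h0, ev_shift9 h0]
  have h4 : ζ + ((n * p : ℝ) : ℂ) - (ξ + ((n * p : ℝ) : ℂ)) = z - w := by rw [← hzz, ← hww]
  rw [hpdef] at h4
  rw [h4]
  exact h3

/-- two close zeros of a function with Lipschitz derivative: the derivative is small -/
theorem deriv_small9 {f f' : ℂ → ℂ} (hf : ∀ z, HasDerivAt f (f' z) z) {K : ℝ} (hK : 0 ≤ K) {z w : ℂ} (hne : w ≠ z)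
    (hz : f z = 0) (hw : f w = 0) (hlip : ∀ u ∈ segment ℝ z w, ‖f' u - f' z‖ ≤ K * ‖z - w‖) :
    ‖f' z‖ ≤ K * ‖z - w‖ := by
  have h1 : ∀ u ∈ segment ℝ z w, HasDerivWithinAt (fun u => f u - f' z * u) (f' u - f' z) (segment ℝ z w) u := by
    intro u _
    have h2 : HasDerivAt (fun u => f u - f' z * u) (f' u - f' z * 1) u :=
      (hf u).fun_sub ((hasDerivAt_id' u).const_mul (f' z))
    rw [mul_one] at h2
    exact h2.hasDerivWithinAt
  have h2 := (convex_segment (𝕜 := ℝ) z w).norm_image_sub_le_of_norm_hasDerivWithin_le h1 hlip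
    (left_mem_segment ℝ z w) (right_mem_segment ℝ z w)
  simp only [hz, hw] at h2
  have h3 : (0 : ℂ) - f' z * w - (0 - f' z * z) = - (f' z * (w - z)) := by ring
  rw [h3, norm_neg, norm_mul] at h2
  exact le_of_mul_le_mul_right h2 (norm_pos_iff.2 (sub_ne_zero.2 hne))

/-- **row Q3** with the rows Q1, Q2, L as hypotheses -/
theorem pairs_of {ι : Type*} [Fintype ι] [Nonempty ι] (c : ι → ℂ) (l : ι → ℝ) (hl : Function.Injective l)
    (hc : ∀ j, c j ≠ 0) (H : ℝ) {r : ℕ} {ω0 : ℝ} {ω : Fin r → ℝ} {μ : ℝ} {m0 : ι → ℕ} {m : ι → Fin r → ℕ}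
    (h0 : ω0 ≠ 0) (hm : ∀ j, l j = μ + m0 j * ω0 + ∑ i, m j i * ω i)
    (hQ1 : ∀ P : A r, (∀ θ z, ev ω0 ω θ z P ≠ 0) ∨ P = 0 ∨ ∃ Q : A r, ¬ P ∣ Q ∧
      ∀ θ z, HasDerivAt (fun z => ev ω0 ω θ z P) (ev ω0 ω θ z Q) z)
    (hL : ∀ (T H : ℝ) (P : A r), ∃ K : ℝ, 0 ≤ K ∧ ∀ (θ θ' : Fin r → ℝ) (z z' : ℂ) (s : ℝ),
      z ∈ Reg T H → z' ∈ Reg T H → (∀ j, ∃ m : ℤ, |θ j - m - θ' j| ≤ s) → ‖z - z'‖ ≤ s →
      ‖ev ω0 ω θ z P‖ ≤ K ∧ ‖ev ω0 ω θ z P - ev ω0 ω θ' z' P‖ ≤ K * s) :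
    ∃ (D : Finset (A r × A r)) (K : ℝ), (∀ p ∈ D, Irreducible p.1 ∧ ¬ p.1 ∣ p.2) ∧
      ∀ z w : ℂ, |z.im| ≤ H → |w.im| ≤ H → G c l z = 0 → G c l w = 0 → w ≠ z → ‖z - w‖ ≤ 1 →
        ∃ p ∈ D, ‖ev ω0 ω (fun _ => 0) z p.1‖ ≤ K * ‖z - w‖ ∧
          ‖ev ω0 ω (fun _ => 0) z p.2‖ ≤ K * ‖z - w‖ := by
  classical
  set P := poly9 c m0 m with hP
  have hP0 : P ≠ 0 := poly9_ne_zero c l hl hc m0 m ω0 ω μ hm
  obtain ⟨s, hs, hsP⟩ := UniqueFactorizationMonoid.exists_prime_factors P hP0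
  -- the derivatives
  have hQ : ∀ a : A r, ∃ Q : A r, (∃ θ z, ev ω0 ω θ z a = 0) → a ≠ 0 → ¬ a ∣ Q ∧
      ∀ θ z, HasDerivAt (fun z => ev ω0 ω θ z a) (ev ω0 ω θ z Q) z := by
    intro a
    rcases hQ1 a with h | h | ⟨Q, h⟩
    · exact ⟨0, fun ⟨θ, z, h1⟩ _ => absurd h1 (h θ z)⟩
    · exact ⟨0, fun _ h1 => absurd h h1⟩
    · exact ⟨Q, fun _ _ => h⟩
  choose Q hQ using hQ
  choose K hK0 hK using fun a : A r => lip9 h0 ω hL H a
  let F : Finset (A r) := s.toFinset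
  let D : Finset (A r × A r) := ((F ×ˢ F) ∪ F.image fun a => (a, Q a)).filter fun p => ¬ p.1 ∣ p.2
  let K' : ℝ := ∑ a ∈ F, K a + ∑ a ∈ F, K (Q a)
  have hs1 : ∀ a ∈ F, K a ≤ K' := by
    intro a ha
    have h1 : K a ≤ ∑ a ∈ F, K a := Finset.single_le_sum (fun b _ => hK0 b) ha
    have h2 : 0 ≤ ∑ a ∈ F, K (Q a) := Finset.sum_nonneg fun b _ => hK0 (Q b)
    show K a ≤ ∑ a ∈ F, K a + ∑ a ∈ F, K (Q a)
    linarith
  have hs2 : ∀ a ∈ F, K (Q a) ≤ K' := by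
    intro a ha
    have h1 : K (Q a) ≤ ∑ a ∈ F, K (Q a) := Finset.single_le_sum (f := fun b => K (Q b)) (fun b _ => hK0 (Q b)) ha
    have h2 : 0 ≤ ∑ a ∈ F, K a := Finset.sum_nonneg fun b _ => hK0 b
    show K (Q a) ≤ ∑ a ∈ F, K a + ∑ a ∈ F, K (Q a)
    linarith
  have hF : ∀ a ∈ F, Prime a := fun a ha => hs a (Multiset.mem_toFinset.1 ha)
  -- a zero of the sum is a zero of a factor
  have hzero : ∀ z : ℂ, G c l z = 0 → ∃ a ∈ F, ev ω0 ω (fun _ => 0) z a = 0 := by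
    intro z hz
    rw [ev_poly9 c l m0 m ω0 ω μ hm z, mul_eq_zero, or_iff_right (Complex.exp_ne_zero _)] at hz
    obtain ⟨u, hu⟩ := hsP
    rw [← hP, ← hu, map_mul, mul_eq_zero] at hz
    have hu' : ev ω0 ω (fun _ => 0) z (u : A r) ≠ 0 := (u.isUnit.map (ev ω0 ω (fun _ => 0) z)).ne_zero
    rw [or_iff_left hu', map_multiset_prod, Multiset.prod_eq_zero_iff, Multiset.mem_map] at hz
    obtain ⟨a, ha, ha0⟩ := hz
    exact ⟨a, Multiset.mem_toFinset.2 ha, ha0⟩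
  refine ⟨D, K', fun p hp => ?_, fun z w hz hw hGz hGw hne hzw => ?_⟩
  · obtain ⟨h1, h2⟩ := Finset.mem_filter.1 hp
    refine ⟨?_, h2⟩
    rcases Finset.mem_union.1 h1 with h3 | h3
    · exact (hF _ (Finset.mem_product.1 h3).1).irreducible
    · obtain ⟨a, ha, rfl⟩ := Finset.mem_image.1 h3
      exact (hF _ ha).irreducible
  · obtain ⟨a, ha, ha0⟩ := hzero z hGz
    obtain ⟨b, hb, hb0⟩ := hzero w hGw
    have hnn : 0 ≤ ‖z - w‖ := norm_nonneg _
    have hK'0 : 0 ≤ K' := (hK0 a).trans (hs1 a ha)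
    by_cases hab : a ∣ b
    · -- the same factor: the derivative
      obtain ⟨d, hd⟩ := hab
      have hdu : IsUnit d := by
        rcases (hF b hb).irreducible.isUnit_or_isUnit hd with h | h
        · exact absurd h (hF a ha).not_isUnit
        · exact h
      have haw : ev ω0 ω (fun _ => 0) w a = 0 := by
        rw [hd, map_mul, mul_eq_zero] at hb0
        rcases hb0 with h | h
        · exact h
        · exact absurd h (hdu.map (ev ω0 ω (fun _ => 0) w)).ne_zero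
      obtain ⟨hdvd, hder⟩ := hQ a ⟨_, _, ha0⟩ (hF a ha).ne_zero
      refine ⟨(a, Q a), Finset.mem_filter.2 ⟨Finset.mem_union_right _ (Finset.mem_image_of_mem _ ha), hdvd⟩, ?_, ?_⟩
      · show ‖ev ω0 ω (fun _ => 0) z a‖ ≤ _
        rw [ha0, norm_zero]
        exact mul_nonneg hK'0 hnn
      · refine (deriv_small9 (hder fun _ => 0) (hK0 (Q a)) hne ha0 haw fun u hu => ?_).trans
          (mul_le_mul_of_nonneg_right (hs2 a ha) hnn)
        have huz : ‖u - z‖ ≤ ‖z - w‖ := by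
          obtain ⟨α, β, hα, hβ, hαβ, rfl⟩ := hu
          have h1 : α • z + β • w - z = β • (w - z) := by
            have : α = 1 - β := by linarith
            rw [this]
            module
          rw [h1, norm_smul, Real.norm_of_nonneg hβ, norm_sub_rev w z]
          exact mul_le_of_le_one_left hnn (by linarith)
        have huim : |u.im| ≤ H := by
          obtain ⟨α, β, hα, hβ, hαβ, rfl⟩ := hu
          have h1 : (α • z + β • w).im = α * z.im + β * w.im := by simp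
          rw [h1]
          calc |α * z.im + β * w.im| ≤ |α * z.im| + |β * w.im| := abs_add_le _ _
            _ = α * |z.im| + β * |w.im| := by rw [abs_mul, abs_mul, abs_of_nonneg hα, abs_of_nonneg hβ]
            _ ≤ α * H + β * H := by
              exact add_le_add (mul_le_mul_of_nonneg_left hz hα) (mul_le_mul_of_nonneg_left hw hβ)
            _ = H := by rw [← add_mul, hαβ, one_mul]
        refine (hK (Q a) u z huim hz (huz.trans hzw)).trans ?_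
        exact mul_le_mul_of_nonneg_left huz (hK0 _)
    · refine ⟨(a, b), Finset.mem_filter.2 ⟨Finset.mem_union_left _ (Finset.mem_product.2 ⟨ha, hb⟩), hab⟩, ?_, ?_⟩
      · show ‖ev ω0 ω (fun _ => 0) z a‖ ≤ _
        rw [ha0, norm_zero]
        exact mul_nonneg hK'0 hnn
      · show ‖ev ω0 ω (fun _ => 0) z b‖ ≤ _
        have h1 := hK b z w hz hw hzw
        rw [hb0, sub_zero] at h1
        exact h1.trans (mul_le_mul_of_nonneg_right (hs1 b hb) hnn)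

end Pool.Agent.Helper77.EHR.P
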