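import Mathlib
import Pool.Agent.Helper77.EHR.P.Defs
import Pool.Agent.Helper77.EHR.Two

/-! MP_4f9849, row D: a polynomial of bounded degree with one large coefficient is small only on
few grid points of a circle. -/

namespace Pool.Agent.Helper77.EHR.P

open Pool.Agent.Helper77.EHR (rt norm_rt arc)

lemma coeff_prod79 {ι : Type*} [DecidableEq ι] (t : Finset ι) (a y : ι → ℂ) (k : ℕ) :
    ‖(∏ j ∈ t, (Polynomial.C (a j) * (Polynomial.X - Polynomial.C (y j)))).coeff k‖ ≤
      ∏ j ∈ t, (‖a j‖ * (1 + ‖y j‖)) := by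
  induction t using Finset.induction_on generalizing k with
  | empty =>
    rw [Finset.prod_empty, Finset.prod_empty, Polynomial.coeff_one]
    split_ifs <;> simp
  | insert i t hi ih =>
    set f := ∏ j ∈ t, (Polynomial.C (a j) * (Polynomial.X - Polynomial.C (y j))) with hf
    set b := ∏ j ∈ t, (‖a j‖ * (1 + ‖y j‖)) with hb
    have hb0 : 0 ≤ b := Finset.prod_nonneg fun j _ => by positivity
    rw [Finset.prod_insert hi, Finset.prod_insert hi, ← hf, ← hb, mul_assoc,
      Polynomial.coeff_C_mul, sub_mul, Polynomial.coeff_sub, Polynomial.coeff_C_mul, norm_mul,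
      mul_assoc]
    have h1 : ‖(Polynomial.X * f).coeff k‖ ≤ b := by
      cases k with
      | zero => rw [Polynomial.coeff_X_mul_zero, norm_zero]; exact hb0
      | succ k => rw [Polynomial.coeff_X_mul]; exact ih k
    have h2 : ‖y i * f.coeff k‖ ≤ ‖y i‖ * b := by
      rw [norm_mul]
      exact mul_le_mul_of_nonneg_left (ih k) (norm_nonneg _)
    refine mul_le_mul_of_nonneg_left ?_ (norm_nonneg _)
    refine (norm_sub_le _ _).trans ?_
    linarith

/-- Lagrange: small values at `d + 1` separated points give small coefficients. -/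
lemma lagr79 {ι : Type*} [DecidableEq ι] (d : ℕ) (T : Finset ι) (y : ι → ℂ) (p : Polynomial ℂ)
    (hT : T.card = d + 1) (hp : p.natDegree ≤ d) (ε B r : ℝ) (hr : 0 < r) (hB : 0 ≤ B)
    (hε : 0 ≤ ε)
    (hy : ∀ i ∈ T, ‖y i‖ ≤ B) (hs : ∀ i ∈ T, ∀ j ∈ T, i ≠ j → r ≤ ‖y i - y j‖)
    (he : ∀ i ∈ T, ‖p.eval (y i)‖ ≤ ε) (k : ℕ) :
    ‖p.coeff k‖ ≤ (d + 1) * (ε * ((1 + B) / r) ^ d) := by
  have hinj : Set.InjOn y T := by
    intro i hi j hj h
    by_contra hne
    have := hs i hi j hj hne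
    rw [h, sub_self, norm_zero] at this
    linarith
  have hdeg : p.degree < (T.card : ℕ) := by
    rw [hT]
    refine lt_of_le_of_lt Polynomial.degree_le_natDegree ?_
    exact_mod_cast Nat.lt_succ_of_le hp
  have h1 := Lagrange.eq_interpolate hinj hdeg
  have h2 : p.coeff k = ∑ i ∈ T, (p.eval (y i)) * (Lagrange.basis T y i).coeff k := by
    conv_lhs => rw [h1]
    rw [Lagrange.interpolate_apply, Polynomial.finsetSum_coeff]
    exact Finset.sum_congr rfl fun i _ => by rw [Polynomial.coeff_C_mul]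
  rw [h2]
  refine (norm_sum_le _ _).trans ?_
  have h3 : ∀ i ∈ T, ‖(p.eval (y i)) * (Lagrange.basis T y i).coeff k‖ ≤
      ε * ((1 + B) / r) ^ d := by
    intro i hi
    rw [norm_mul]
    refine mul_le_mul (he i hi) ?_ (norm_nonneg _) hε
    have h4 := coeff_prod79 (T.erase i) (fun j => (y i - y j)⁻¹) y k
    have h5 : (Lagrange.basis T y i) = ∏ j ∈ T.erase i,
        (Polynomial.C ((y i - y j)⁻¹) * (Polynomial.X - Polynomial.C (y j))) := rfl
    rw [h5]
    refine h4.trans ?_
    have h6 : ∏ j ∈ T.erase i, (‖(y i - y j)⁻¹‖ * (1 + ‖y j‖)) ≤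
        ∏ _j ∈ T.erase i, ((1 + B) / r) := by
      refine Finset.prod_le_prod (fun j _ => by positivity) fun j hj => ?_
      rw [Finset.mem_erase] at hj
      have h7 := hs i hi j hj.2 (Ne.symm hj.1)
      have h8 := hy j hj.2
      rw [norm_inv, div_eq_mul_inv, mul_comm]
      refine mul_le_mul (by linarith) ?_ (by positivity) (by positivity)
      exact inv_anti₀ hr h7
    refine h6.trans (le_of_eq ?_)
    rw [Finset.prod_const, Finset.card_erase_of_mem hi, hT, Nat.add_sub_cancel]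
  refine (Finset.sum_le_sum h3).trans (le_of_eq ?_)
  rw [Finset.sum_const, hT, nsmul_eq_mul]
  push_cast
  ring

/-- ROW D (one variable polynomials on a grid of a circle). -/
theorem circle (d : ℕ) (B : ℝ) (hB : 1 ≤ B) :
    ∃ K : ℝ, 0 ≤ K ∧ ∀ (p : Polynomial ℂ) (x : ℂ) (L : ℕ) (ε η s : ℝ), p.natDegree ≤ d → 1 ≤ L →
      1 / B ≤ ‖x‖ → ‖x‖ ≤ B → 0 ≤ ε → 0 < η → 0 < s → (∃ k, η ≤ ‖p.coeff k‖) →
      K * ε ≤ η * s ^ d →
      (((Finset.range L).filter fun g : ℕ =>
        ‖p.eval (Complex.exp (2 * Real.pi * Complex.I * ((g : ℝ) / (L : ℝ) : ℝ)) * x)‖ ≤ ε).card : ℝ)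
        ≤ K * ((L : ℝ) * s + 1) := by
  classical
  have hB0 : 0 < B := by linarith
  refine ⟨(d + 1) * ((1 + B) * B) ^ d + 3 * d + 1, by positivity, ?_⟩
  intro p x L ε η s hp hL hx1 hx2 hε hη hs hk hK
  obtain ⟨k, hk⟩ := hk
  set F : Finset ℕ := (Finset.range L).filter fun g : ℕ =>
    ‖p.eval (Complex.exp (2 * Real.pi * Complex.I * ((g : ℝ) / (L : ℝ) : ℝ)) * x)‖ ≤ ε with hF
  have hFe : ∀ g ∈ F, ‖p.eval (rt L g * x)‖ ≤ ε := by
    intro g hg
    rw [hF, Finset.mem_filter] at hg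
    exact hg.2
  -- a maximal separated subset
  let Q : Finset (Finset ℕ) := F.powerset.filter fun M =>
    ∀ g ∈ M, ∀ g' ∈ M, g ≠ g' → s ≤ ‖rt L g - rt L g'‖
  have hQ : Q.Nonempty := ⟨∅, by simp [Q]⟩
  obtain ⟨M, hM, hmax⟩ := Finset.exists_max_image Q Finset.card hQ
  obtain ⟨hMF, hMs⟩ : M ⊆ F ∧ ∀ g ∈ M, ∀ g' ∈ M, g ≠ g' → s ≤ ‖rt L g - rt L g'‖ := by
    have := Finset.mem_filter.1 hM
    exact ⟨Finset.mem_powerset.1 this.1, this.2⟩
  have hcard : M.card ≤ d := by
    by_contra hcon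
    obtain ⟨T, hTM, hT⟩ := Finset.exists_subset_card_eq (s := M) (n := d + 1) (by omega)
    have h1 := lagr79 d T (fun g => rt L g * x) p hT hp ε B (s / B) (by positivity) hB0.le hε
      (fun g _ => by rw [norm_mul, norm_rt, one_mul]; exact hx2)
      (fun g hg g' hg' hne => by
        rw [← sub_mul, norm_mul, div_eq_mul_one_div]
        exact mul_le_mul (hMs g (hTM hg) g' (hTM hg') hne) hx1 (by positivity) (norm_nonneg _))
      (fun g hg => hFe g (hMF (hTM hg))) k
    have h2 : (1 + B) / (s / B) = (1 + B) * B / s := by field_simp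
    rw [h2, div_pow] at h1
    have hsd : 0 < s ^ d := by positivity
    have h3 : η * s ^ d ≤ (d + 1) * ((1 + B) * B) ^ d * ε := by
      have h4 : η ≤ ((d + 1) * ((1 + B) * B) ^ d * ε) / s ^ d := by
        refine (hk.trans h1).trans (le_of_eq ?_)
        ring
      rwa [le_div_iff₀ hsd] at h4
    have h5 : (3 * (d : ℝ) + 1) * ε ≤ 0 := by nlinarith
    have h6 : 0 < η * s ^ d := by positivity
    have h7 : ε ≤ 0 := by
      by_contra hcon2
      push Not at hcon2
      have : 0 < (3 * (d : ℝ) + 1) * ε := by positivity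
      linarith
    have h8 : ε = 0 := le_antisymm h7 hε
    rw [h8, mul_zero] at h3
    linarith
  have hcov : F ⊆ M.biUnion fun g' => (Finset.range L).filter fun g : ℕ =>
      ‖rt L g - rt L g'‖ ≤ s := by
    intro g hg
    rw [Finset.mem_biUnion]
    by_contra hcon
    push Not at hcon
    have hgL : g ∈ Finset.range L := (Finset.mem_filter.1 hg).1
    have hfar : ∀ g' ∈ M, s < ‖rt L g - rt L g'‖ := by
      intro g' hg'
      have := hcon g' hg'
      rw [Finset.mem_filter, not_and, not_le] at this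
      exact this hgL
    have hgM : g ∉ M := by
      intro h
      have := hfar g h
      rw [sub_self, norm_zero] at this
      linarith
    have hnew : insert g M ∈ Q := by
      refine Finset.mem_filter.2 ⟨Finset.mem_powerset.2 (Finset.insert_subset hg hMF), ?_⟩
      intro a ha b hb hab
      rw [Finset.mem_insert] at ha hb
      rcases ha with rfl | ha <;> rcases hb with rfl | hb
      · exact absurd rfl hab
      · exact (hfar b hb).le
      · rw [norm_sub_rev]; exact (hfar a ha).le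
      · exact hMs a ha b hb hab
    have := hmax _ hnew
    rw [Finset.card_insert_of_notMem hgM] at this
    omega
  have hLs : 0 ≤ (L : ℝ) * s + 1 := by positivity
  have h1 : (F.card : ℝ) ≤ ∑ g' ∈ M, (((Finset.range L).filter fun g : ℕ =>
      ‖rt L g - rt L g'‖ ≤ s).card : ℝ) := by
    exact_mod_cast (Finset.card_le_card hcov).trans Finset.card_biUnion_le
  have h2 : ∑ g' ∈ M, (((Finset.range L).filter fun g : ℕ =>
      ‖rt L g - rt L g'‖ ≤ s).card : ℝ) ≤ ∑ _g' ∈ M, 3 * ((L : ℝ) * s + 1) :=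
    Finset.sum_le_sum fun g' _ => arc L hL (rt L g') s hs.le
  rw [Finset.sum_const, nsmul_eq_mul] at h2
  have h3 : (M.card : ℝ) ≤ d := by exact_mod_cast hcard
  have h4 : (M.card : ℝ) * (3 * ((L : ℝ) * s + 1)) ≤ d * (3 * ((L : ℝ) * s + 1)) :=
    mul_le_mul_of_nonneg_right h3 (by positivity)
  have h5 : 0 ≤ ((d : ℝ) + 1) * ((1 + B) * B) ^ d + 1 := by positivity
  calc (F.card : ℝ) ≤ d * (3 * ((L : ℝ) * s + 1)) := h1.trans (h2.trans h4)
    _ ≤ ((d + 1) * ((1 + B) * B) ^ d + 3 * d + 1) * ((L : ℝ) * s + 1) := by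
        have := mul_nonneg h5 hLs
        linarith

end Pool.Agent.Helper77.EHR.P
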