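import Mathlib
import Pool.Agent.Helper77.EHR.P.Defs
import Pool.Agent.Helper77.EHR.Zeros

/-! MP_4f9849, all exponential sums: few separated near zeros, uniformly in the coefficients. -/

namespace Pool.Agent.Helper77.EHR.P

open Pool.Agent.Helper77.EHR (G)

/-- interpolation at separated points, with a bound. -/
lemma interp (S : Finset ℂ) (g : ℂ → ℂ) (z0 : ℂ) (ρ ε s : ℝ) (hρ1 : ρ ≤ 1)
    (hε : 0 ≤ ε) (hs : 0 < s) (hS : ∀ a ∈ S, ‖g a‖ ≤ ε ∧ ‖a - z0‖ ≤ ρ)
    (hsep : ∀ z ∈ S, ∀ w ∈ S, z ≠ w → s ≤ ‖z - w‖) :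
    ∃ q : ℂ → ℂ, Differentiable ℂ q ∧ (∀ a ∈ S, q a = g a) ∧
      ∀ z, ‖z - z0‖ ≤ 2 → ‖q z‖ ≤ S.card * (ε * (3 / s) ^ (S.card - 1)) := by
  classical
  refine ⟨fun z => (Lagrange.interpolate S id g).eval z, Polynomial.differentiable _,
    fun a ha => ?_, fun z hz => ?_⟩
  · exact Lagrange.eval_interpolate_at_node (v := id) g (Function.injective_id.injOn) ha
  · show ‖(Lagrange.interpolate S id g).eval z‖ ≤ _
    rw [Lagrange.interpolate_apply, Polynomial.eval_finsetSum]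
    refine (norm_sum_le _ _).trans ?_
    rw [← nsmul_eq_mul]
    refine Finset.sum_le_card_nsmul _ _ _ (fun a ha => ?_)
    rw [Polynomial.eval_mul, Polynomial.eval_C, norm_mul]
    refine mul_le_mul (hS a ha).1 ?_ (norm_nonneg _) hε
    unfold Lagrange.basis
    rw [Polynomial.eval_prod, norm_prod, ← Finset.card_erase_of_mem ha]
    rw [← Finset.prod_const]
    refine Finset.prod_le_prod (fun _ _ => norm_nonneg _) ?_
    intro b hb
    rw [Finset.mem_erase] at hb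
    unfold Lagrange.basisDivisor
    simp only [id, Polynomial.eval_mul, Polynomial.eval_C, Polynomial.eval_sub, Polynomial.eval_X,
      norm_mul, norm_inv]
    have h1 := hsep a ha b hb.2 (fun h => hb.1 h.symm)
    have h2 : ‖z - b‖ ≤ 3 := by
      have h3 := (hS b hb.2).2
      have h4 : ‖z - b‖ ≤ ‖z - z0‖ + ‖z0 - b‖ := norm_sub_le_norm_sub_add_norm_sub _ _ _
      rw [norm_sub_rev z0 b] at h4
      linarith
    rw [inv_mul_eq_div]
    exact div_le_div₀ (by norm_num) h2 hs h1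

theorem clus_local {ι : Type*} [Fintype ι] (l : ι → ℝ) (hl : Function.Injective l) (j0 : ι)
    (m B H : ℝ) (hm : 0 < m) :
    ∃ (ρ K : ℝ), 0 < ρ ∧ ρ ≤ 1 ∧ 0 ≤ K ∧ ∀ (c : ι → ℂ), m ≤ ‖c j0‖ → (∀ j, ‖c j‖ ≤ B) →
      ∀ (ε s : ℝ) (z0 : ℂ) (S : Finset ℂ), |z0.im| ≤ H → 0 ≤ ε → 0 < s →
        K * ε ≤ s ^ Fintype.card ι →
        (∀ z ∈ S, ‖G c l z‖ ≤ ε ∧ ‖z - z0‖ ≤ ρ) → (∀ z ∈ S, ∀ w ∈ S, z ≠ w → s ≤ ‖z - w‖) →
        S.card ≤ Fintype.card ι := by
  classical
  set N := Fintype.card ι with hN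
  have hNpos : 0 < N := Fintype.card_pos_iff.2 ⟨j0⟩
  -- interpolation polynomial
  let x : ι → ℂ := fun j => Complex.I * (l j : ℂ)
  have hx : Set.InjOn x (Finset.univ : Finset ι) := by
    intro a _ b _ h
    have h1 : (l a : ℂ) = (l b : ℂ) := mul_left_cancel₀ Complex.I_ne_zero h
    exact hl (by exact_mod_cast h1)
  let p : Polynomial ℂ := Lagrange.basis Finset.univ x j0
  have hp0 : p.eval (x j0) = 1 := Lagrange.eval_basis_self hx (Finset.mem_univ _)
  have hp1 : ∀ j, j ≠ j0 → p.eval (x j) = 0 := fun j hj =>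
    Lagrange.eval_basis_of_ne (fun h => hj h.symm) (Finset.mem_univ _)
  have hdeg : p.natDegree < N := by
    have h1 := Lagrange.degree_basis hx (Finset.mem_univ j0)
    have h2 : p.natDegree = N - 1 := by
      have : p.degree = ((N - 1 : ℕ) : WithBot ℕ) := by
        rw [h1]; rfl
      exact Polynomial.natDegree_eq_of_degree_eq_some this
    omega
  set PP : ℝ := ∑ n ∈ Finset.range N, ‖p.coeff n‖ with hPP
  have hPP0 : 0 ≤ PP := Finset.sum_nonneg (fun _ _ => norm_nonneg _)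
  -- bounds
  set B' : ℝ := ∑ j, |B| * Real.exp (|l j| * (|H| + 2)) with hB'
  have hB0 : 0 ≤ B' := Finset.sum_nonneg (fun _ _ => by positivity)
  set m' : ℝ := m * Real.exp (-(|l j0| * |H|)) with hm'
  have hmpos : 0 < m' := by positivity
  set K1 : ℝ := PP * (N.factorial * (2 ^ N * (B' + 1) + 1)) + m' with hK1
  have hKpos : 0 < K1 := by positivity
  set ρ := min 1 (m' / (2 * K1)) with hρ
  have hρpos : 0 < ρ := by positivity
  have hρ1 : ρ ≤ 1 := min_le_left _ _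
  have hρ2 : ρ ≤ m' / (2 * K1) := min_le_right _ _
  have h2ρ : 2 * ρ ≤ 1 := by
    have h5 : m' / (2 * K1) ≤ 1 / 2 := by
      rw [div_le_iff₀ (by positivity)]
      have : 0 ≤ PP * (N.factorial * (2 ^ N * (B' + 1) + 1)) := by positivity
      linarith
    linarith
  refine ⟨ρ, N * 3 ^ N / ρ ^ (N + 1), hρpos, hρ1, by positivity,
    fun c hc0 hcB ε s z0 S hz0 hε hs hK hS hsep => ?_⟩
  by_contra hcard
  rw [not_le] at hcard
  -- the separation is at most one
  have hs1 : s ≤ 1 := by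
    obtain ⟨a, ha, b, hb, hab⟩ := Finset.one_lt_card.1 (lt_of_le_of_lt hNpos hcard)
    have h1 := hsep a ha b hb hab
    have h2 : ‖a - b‖ ≤ ‖a - z0‖ + ‖z0 - b‖ := norm_sub_le_norm_sub_add_norm_sub _ _ _
    rw [norm_sub_rev z0 b] at h2
    linarith [(hS a ha).2, (hS b hb).2]
  obtain ⟨S', hS'S, hS'c⟩ := Finset.exists_subset_card_eq hcard.le
  obtain ⟨q, hq, hqe, hqb⟩ := interp S' (G c l) z0 ρ ε s hρ1 hε hs
    (fun a ha => hS a (hS'S ha)) (fun a ha b hb => hsep a (hS'S ha) b (hS'S hb))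
  rw [hS'c] at hqb
  -- the interpolation is small
  have hη : (N : ℝ) * (ε * (3 / s) ^ (N - 1)) ≤ ρ ^ (N + 1) := by
    have h1 : (N : ℝ) * 3 ^ N * ε ≤ s ^ N * ρ ^ (N + 1) := by
      rw [div_mul_eq_mul_div, div_le_iff₀ (by positivity)] at hK
      exact hK
    have h2 : (3 / s) ^ (N - 1) ≤ 3 ^ N / s ^ N := by
      rw [← div_pow]
      refine pow_le_pow_right₀ ?_ (by omega)
      rw [one_le_div hs]; linarith
    calc (N : ℝ) * (ε * (3 / s) ^ (N - 1)) ≤ N * (ε * (3 ^ N / s ^ N)) := by gcongr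
      _ = ((N : ℝ) * 3 ^ N * ε) / s ^ N := by ring
      _ ≤ (s ^ N * ρ ^ (N + 1)) / s ^ N := by gcongr
      _ = ρ ^ (N + 1) := by field_simp
  have hρN1 : ρ ^ (N + 1) ≤ 1 := pow_le_one₀ hρpos.le hρ1
  have hBz : ∀ z, ‖z - z0‖ ≤ 2 → ‖G c l z‖ ≤ B' := by
    intro z hz
    unfold G
    refine (norm_sum_le _ _).trans (Finset.sum_le_sum (fun j _ => ?_))
    rw [norm_term]
    refine mul_le_mul ((hcB j).trans (le_abs_self _)) (Real.exp_le_exp.2 ?_)
      (Real.exp_pos _).le (abs_nonneg _)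
    have h1 : |z.im| ≤ |H| + 2 := by
      have h2 : |(z - z0).im| ≤ 2 := (Complex.abs_im_le_norm _).trans hz
      rw [Complex.sub_im] at h2
      have h3 : |z.im| ≤ |z.im - z0.im| + |z0.im| := by
        have := abs_add_le (z.im - z0.im) z0.im
        simpa using this
      have h4 := le_abs_self H
      linarith
    calc -(l j * z.im) ≤ |l j * z.im| := neg_le_abs _
      _ = |l j| * |z.im| := abs_mul _ _
      _ ≤ _ := mul_le_mul_of_nonneg_left h1 (abs_nonneg _)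
  have hfB : ∀ z, ‖z - z0‖ ≤ 2 → ‖G c l z - q z‖ ≤ B' + 1 := by
    intro z hz
    have h1 := hBz z hz
    have h2 := (hqb z hz).trans (hη.trans hρN1)
    exact (norm_sub_le _ _).trans (by linarith)
  have hsm : ∀ z ∈ Metric.sphere z0 ρ, ‖G c l z‖ ≤ (2 * ρ) ^ N * (B' + 1) + ρ ^ (N + 1) := by
    intro z hz
    have hz' : ‖z - z0‖ ≤ ρ := by
      rw [← dist_eq_norm]; exact (Metric.mem_sphere.1 hz).le
    have h1 := small_of_zeros (fun w => G c l w - q w) ((G_diff c l).sub hq) z0 ρ (B' + 1)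
      hρpos hρ1 hfB S' (fun a ha => ⟨by simp [hqe a ha], (hS a (hS'S ha)).2⟩) z hz'
    rw [hS'c] at h1
    have h2 := (hqb z (by linarith)).trans hη
    calc ‖G c l z‖ = ‖(G c l z - q z) + q z‖ := by rw [sub_add_cancel]
      _ ≤ ‖G c l z - q z‖ + ‖q z‖ := norm_add_le _ _
      _ ≤ _ := add_le_add h1 h2
  have hcoef : ∀ n ∈ Finset.range N, ‖iteratedDeriv n (G c l) z0‖ ≤
      N.factorial * (2 ^ N * (B' + 1) + 1) * ρ := by
    intro n hn
    rw [Finset.mem_range] at hn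
    have h1 := Complex.norm_iteratedDeriv_le_of_forall_mem_sphere_norm_le n hρpos
      (G_diff c l).diffContOnCl hsm
    refine h1.trans ?_
    rw [div_le_iff₀ (by positivity)]
    have h2 : (2 * ρ) ^ N ≤ 2 ^ N * ρ ^ (n + 1) := by
      rw [mul_pow]
      exact mul_le_mul_of_nonneg_left (pow_le_pow_of_le_one hρpos.le hρ1 (by omega)) (by positivity)
    have h2' : ρ ^ (N + 1) ≤ ρ ^ (n + 1) := pow_le_pow_of_le_one hρpos.le hρ1 (by omega)
    have h3 : (n.factorial : ℝ) ≤ N.factorial := by exact_mod_cast Nat.factorial_le hn.le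
    calc (n.factorial : ℝ) * ((2 * ρ) ^ N * (B' + 1) + ρ ^ (N + 1))
        ≤ N.factorial * ((2 ^ N * ρ ^ (n + 1)) * (B' + 1) + ρ ^ (n + 1)) := by
          gcongr
      _ = _ := by rw [pow_succ]; ring
  have hkey : c j0 * Complex.exp (Complex.I * (l j0 : ℂ) * z0) =
      ∑ n ∈ Finset.range N, p.coeff n * iteratedDeriv n (G c l) z0 := by
    have h1 : ∑ n ∈ Finset.range N, p.coeff n * iteratedDeriv n (G c l) z0 =
        ∑ j, p.eval (x j) * (c j * Complex.exp (Complex.I * (l j : ℂ) * z0)) := by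
      simp_rw [iter_G, Finset.mul_sum]
      rw [Finset.sum_comm]
      refine Finset.sum_congr rfl (fun j _ => ?_)
      rw [Polynomial.eval_eq_sum_range' hdeg, Finset.sum_mul]
      refine Finset.sum_congr rfl (fun n _ => ?_)
      ring
    rw [h1, Finset.sum_eq_single j0 (fun j _ hj => by rw [hp1 j hj, zero_mul]) (by simp), hp0,
      one_mul]
  have hlow : m' ≤ ‖c j0 * Complex.exp (Complex.I * (l j0 : ℂ) * z0)‖ := by
    rw [norm_term]
    refine mul_le_mul hc0 (Real.exp_le_exp.2 ?_) (Real.exp_pos _).le (norm_nonneg _)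
    have h1 : l j0 * z0.im ≤ |l j0| * |H| := by
      calc l j0 * z0.im ≤ |l j0 * z0.im| := le_abs_self _
        _ = |l j0| * |z0.im| := abs_mul _ _
        _ ≤ |l j0| * |H| := mul_le_mul_of_nonneg_left (hz0.trans (le_abs_self _)) (abs_nonneg _)
    linarith
  have hup : ‖c j0 * Complex.exp (Complex.I * (l j0 : ℂ) * z0)‖ ≤
      PP * (N.factorial * (2 ^ N * (B' + 1) + 1) * ρ) := by
    rw [hkey]
    refine (norm_sum_le _ _).trans ?_
    rw [hPP, Finset.sum_mul]
    refine Finset.sum_le_sum (fun n hn => ?_)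
    rw [norm_mul]
    exact mul_le_mul_of_nonneg_left (hcoef n hn) (norm_nonneg _)
  have h1 : m' ≤ (K1 - m') * ρ := by
    calc m' ≤ _ := hlow
      _ ≤ _ := hup
      _ = (K1 - m') * ρ := by rw [hK1]; ring
  have h2 : K1 * ρ ≤ m' / 2 := by
    calc K1 * ρ ≤ K1 * (m' / (2 * K1)) := mul_le_mul_of_nonneg_left hρ2 hKpos.le
      _ = m' / 2 := by field_simp
  nlinarith [mul_pos hmpos hρpos]

theorem clusters {ι : Type*} [Fintype ι] (l : ι → ℝ) (hl : Function.Injective l) (j0 : ι)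
    (m B T H : ℝ) (hm : 0 < m) :
    ∃ (N Z : ℕ) (K : ℝ), 1 ≤ N ∧ 0 ≤ K ∧ ∀ (c : ι → ℂ), m ≤ ‖c j0‖ → (∀ j, ‖c j‖ ≤ B) →
      ∀ (ε s : ℝ) (S : Finset ℂ), 0 ≤ ε → ε ≤ 1 → 0 < s → K * ε ≤ s ^ N →
        (∀ z ∈ S, z ∈ Reg T H ∧ ‖G c l z‖ ≤ ε) → (∀ z ∈ S, ∀ w ∈ S, z ≠ w → s ≤ ‖z - w‖) →
        S.card ≤ Z := by
  classical
  obtain ⟨ρ, K, hρ, _, hK, hloc⟩ := clus_local l hl j0 m B H hm
  have hcpt : IsCompact (Reg T H) := by
    refine Metric.isCompact_of_isClosed_isBounded ?_ ?_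
    · have e : Reg T H = {a | |a.re| ≤ T} ∩ {a | |a.im| ≤ H} := by
        ext a; simp [Reg]
      rw [e]
      exact (isClosed_le Complex.continuous_re.abs continuous_const).inter
        (isClosed_le Complex.continuous_im.abs continuous_const)
    · refine (Metric.isBounded_closedBall (x := (0 : ℂ)) (r := |T| + |H|)).subset (fun a ha => ?_)
      rw [Metric.mem_closedBall, dist_zero_right]
      have h1 := Complex.norm_le_abs_re_add_abs_im a
      have h2 := ha.1.trans (le_abs_self T)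
      have h3 := ha.2.trans (le_abs_self H)
      linarith
  obtain ⟨t, ht1, ht2⟩ := hcpt.elim_nhds_subcover (fun a => Metric.ball a ρ)
    (fun a _ => Metric.ball_mem_nhds a hρ)
  refine ⟨Fintype.card ι, t.card * Fintype.card ι, K, Fintype.card_pos_iff.2 ⟨j0⟩, hK,
    fun c hc0 hcB ε s S hε _ hs hKε hS hsep => ?_⟩
  have hcov : S ⊆ t.biUnion (fun b => S.filter (fun a => ‖a - b‖ ≤ ρ)) := by
    intro a ha
    have h5 := ht2 (hS a ha).1
    simp only [Set.mem_iUnion] at h5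
    obtain ⟨b, hb, h6⟩ := h5
    rw [Finset.mem_biUnion]
    refine ⟨b, hb, ?_⟩
    rw [Finset.mem_filter]
    refine ⟨ha, ?_⟩
    rw [Metric.mem_ball, dist_eq_norm] at h6
    exact h6.le
  calc S.card ≤ _ := Finset.card_le_card hcov
    _ ≤ ∑ b ∈ t, (S.filter (fun a => ‖a - b‖ ≤ ρ)).card := Finset.card_biUnion_le
    _ ≤ ∑ _b ∈ t, Fintype.card ι := by
        refine Finset.sum_le_sum (fun b hb => ?_)
        refine hloc c hc0 hcB ε s b _ (ht1 b hb).2 hε hs hKε (fun a ha => ?_)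
          (fun a ha b hb => ?_)
        · rw [Finset.mem_filter] at ha
          exact ⟨(hS a ha.1).2, ha.2⟩
        · rw [Finset.mem_filter] at ha hb
          exact hsep a ha.1 b hb.1
    _ = t.card * Fintype.card ι := by rw [Finset.sum_const, smul_eq_mul]

end Pool.Agent.Helper77.EHR.P
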