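import Mathlib

/-! MP_4f9849, row A: elimination in a polynomial ring over a factorial ring (Gauss lemma). -/

namespace Pool.Agent.Helper77.EHR.P

open Polynomial

/-- ROW A (elimination, Gauss lemma). -/
theorem elim {R : Type*} [CommRing R] [IsDomain R] [UniqueFactorizationMonoid R]
    (P Q : Polynomial R) (hP : Irreducible P) (hPQ : ¬ P ∣ Q) (hdeg : 0 < P.natDegree) :
    ∃ (a b : Polynomial R) (s : R), s ≠ 0 ∧ a * P + b * Q = Polynomial.C s := by
  obtain ⟨inst⟩ : Nonempty (NormalizedGCDMonoid R) := inferInstance
  let K := FractionRing R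
  have hprim : P.IsPrimitive := hP.isPrimitive hdeg.ne'
  have hirr : Irreducible (P.map (algebraMap R K)) :=
    (hprim.irreducible_iff_irreducible_map_fraction_map (K := K)).1 hP
  have hinj : Function.Injective (algebraMap R K) := IsFractionRing.injective R K
  have hndvd : ¬ P.map (algebraMap R K) ∣ Q.map (algebraMap R K) := by
    intro h
    have hQ0 : Q ≠ 0 := by
      rintro rfl
      exact hPQ (dvd_zero P)
    have hc : Q.content ≠ 0 := by
      intro h0
      exact hQ0 (Polynomial.content_eq_zero_iff.1 h0)
    have h1 : Q.map (algebraMap R K) =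
        C (algebraMap R K Q.content) * Q.primPart.map (algebraMap R K) := by
      conv_lhs => rw [Q.eq_C_content_mul_primPart]
      rw [Polynomial.map_mul, Polynomial.map_C]
    have hu : IsUnit (C (algebraMap R K Q.content) : K[X]) := by
      rw [Polynomial.isUnit_C]
      exact IsUnit.mk0 _ (fun h0 => hc (hinj (by rw [h0, map_zero])))
    rw [h1] at h
    have h2 : P.map (algebraMap R K) ∣ Q.primPart.map (algebraMap R K) :=
      (hu.dvd_mul_left).1 h
    have h3 : P ∣ Q.primPart :=
      hprim.dvd_of_fraction_map_dvd_fraction_map h2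
    exact hPQ (h3.trans Q.primPart_dvd)
  obtain ⟨u, v, huv⟩ := (hirr.coprime_iff_not_dvd).2 hndvd
  obtain ⟨b1, hb1', hb1⟩ := IsLocalization.integerNormalization_spec (nonZeroDivisors R) u
  obtain ⟨b2, hb2', hb2⟩ := IsLocalization.integerNormalization_spec (nonZeroDivisors R) v
  refine ⟨C b2 * IsLocalization.integerNormalization (nonZeroDivisors R) u,
    C b1 * IsLocalization.integerNormalization (nonZeroDivisors R) v, b1 * b2,
    mul_ne_zero (nonZeroDivisors.ne_zero hb1') (nonZeroDivisors.ne_zero hb2'), ?_⟩
  apply Polynomial.map_injective _ hinj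
  rw [Polynomial.map_add, Polynomial.map_mul, Polynomial.map_mul, Polynomial.map_mul,
    Polynomial.map_mul, Polynomial.map_C, Polynomial.map_C, Polynomial.map_C, hb1, hb2, map_mul,
    C_mul]
  have e1 : ∀ (b : R) (w : K[X]), b • w = C (algebraMap R K b) * w := by
    intro b w
    rw [← algebraMap_smul K, Polynomial.smul_eq_C_mul]
  rw [e1, e1]
  linear_combination (C (algebraMap R K b1) * C (algebraMap R K b2)) * huv

end Pool.Agent.Helper77.EHR.P
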