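import Mathlib
import Pool.Agent.Helper77.EHR.P.Defs
import Pool.Agent.Helper77.EHR.Zeros

/-! MP_4f9849, row C2: the evaluation of a polynomial is an exponential sum. -/

namespace Pool.Agent.Helper77.EHR.P

open Pool.Agent.Helper77.EHR (G)

/-- the exponents of `P`. -/
noncomputable def idx79 {r : ℕ} (P : A r) : Finset (Σ _ : (Fin r →₀ ℕ), ℕ) :=
  P.support.sigma (fun m => (P.coeff m).support)

/-- the frequency of an exponent. -/
noncomputable def fr79 {r : ℕ} (ω0 : ℝ) (ω : Fin r → ℝ) (x : Σ _ : (Fin r →₀ ℕ), ℕ) : ℝ :=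
  (x.2 : ℝ) * ω0 + ∑ j, (x.1 j : ℝ) * ω j

/-- the coefficient of an exponent. -/
noncomputable def cf79 {r : ℕ} (P : A r) (x : Σ _ : (Fin r →₀ ℕ), ℕ) : ℂ :=
  (P.coeff x.1).coeff x.2

/-- the phase of an exponent. -/
noncomputable def ph79 {r : ℕ} (θ : Fin r → ℝ) (x : Σ _ : (Fin r →₀ ℕ), ℕ) : ℂ :=
  ∏ j, Complex.exp (2 * Real.pi * Complex.I * (θ j : ℝ)) ^ x.1 j

lemma norm_ph79 {r : ℕ} (θ : Fin r → ℝ) (x : Σ _ : (Fin r →₀ ℕ), ℕ) : ‖ph79 θ x‖ = 1 := by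
  rw [ph79, norm_prod]
  refine Finset.prod_eq_one fun j _ => ?_
  have h : (2 * Real.pi * Complex.I * (θ j : ℝ) : ℂ) = ((2 * Real.pi * θ j : ℝ) : ℂ) * Complex.I := by
    push_cast; ring
  rw [norm_pow, h, Complex.norm_exp_ofReal_mul_I, one_pow]

lemma fr79_inj {r : ℕ} {ω0 : ℝ} {ω : Fin r → ℝ} (hind : Ind ω0 ω) :
    Function.Injective (fr79 ω0 ω) := by
  rintro ⟨m, k⟩ ⟨m', k'⟩ h
  simp only [fr79] at h
  have h1 := hind ((k : ℤ) - k') (fun j => (m j : ℤ) - m' j) (by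
    push_cast
    have h2 : ∑ j, (((m j : ℝ)) - m' j) * ω j = ∑ j, (m j : ℝ) * ω j - ∑ j, (m' j : ℝ) * ω j := by
      rw [← Finset.sum_sub_distrib]
      exact Finset.sum_congr rfl fun j _ => by ring
    rw [h2]
    linarith)
  obtain ⟨h2, h3⟩ := h1
  have h4 : k = k' := by omega
  have h5 : m = m' := by
    ext j
    have := congrFun h3 j
    simp only [Pi.zero_apply] at this
    omega
  rw [h4, h5]

lemma ev_expand79 {r : ℕ} (ω0 : ℝ) (ω θ : Fin r → ℝ) (z : ℂ) (P : A r) :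
    ev ω0 ω θ z P = ∑ x ∈ idx79 P, (cf79 P x * ph79 θ x) *
      Complex.exp (Complex.I * (fr79 ω0 ω x : ℂ) * z) := by
  rw [ev, MvPolynomial.coe_eval₂Hom, MvPolynomial.eval₂_eq', idx79, Finset.sum_sigma]
  refine Finset.sum_congr rfl fun m _ => ?_
  rw [Polynomial.coe_evalRingHom, Polynomial.eval_eq_sum, Polynomial.sum_def, Finset.sum_mul]
  refine Finset.sum_congr rfl fun k _ => ?_
  have h1 : Complex.exp (Complex.I * ((fr79 ω0 ω ⟨m, k⟩ : ℝ) : ℂ) * z) =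
      Complex.exp (Complex.I * (ω0 : ℂ) * z) ^ k *
        ∏ j, Complex.exp (Complex.I * (ω j : ℂ) * z) ^ m j := by
    rw [← Complex.exp_nat_mul]
    simp_rw [← Complex.exp_nat_mul]
    rw [← Complex.exp_sum, ← Complex.exp_add]
    congr 1
    rw [fr79]
    push_cast
    rw [mul_add, add_mul, Finset.mul_sum, Finset.sum_mul]
    congr 1
    · ring
    · exact Finset.sum_congr rfl fun j _ => by ring
  rw [h1, cf79, ph79]
  simp_rw [mul_pow]
  rw [Finset.prod_mul_distrib]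
  ring

/-- ROW C2: evaluation of a polynomial is an exponential sum. -/
theorem ev_G {r : ℕ} (ω0 : ℝ) (ω : Fin r → ℝ) (hind : Ind ω0 ω) (P : A r) (hP : P ≠ 0) :
    ∃ (n : ℕ) (l : Fin (n + 1) → ℝ) (a : Fin (n + 1) → ℂ), Function.Injective l ∧ (∀ j, a j ≠ 0) ∧
      ∀ θ : Fin r → ℝ, ∃ c : Fin (n + 1) → ℂ, (∀ j, ‖c j‖ = ‖a j‖) ∧
        ∀ z, ev ω0 ω θ z P = G c l z := by
  have hne : (idx79 P).Nonempty := by
    obtain ⟨m, hm⟩ := MvPolynomial.support_nonempty.2 hP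
    obtain ⟨k, hk⟩ := Polynomial.nonempty_support_iff.2 (MvPolynomial.mem_support_iff.1 hm)
    exact ⟨⟨m, k⟩, Finset.mem_sigma.2 ⟨hm, hk⟩⟩
  obtain ⟨n, hn⟩ : ∃ n, (idx79 P).card = n + 1 := ⟨(idx79 P).card - 1, by
    have := hne.card_pos; omega⟩
  let e : Fin (n + 1) ≃ idx79 P := ((idx79 P).equivFinOfCardEq hn).symm
  refine ⟨n, fun j => fr79 ω0 ω (e j), fun j => cf79 P (e j), ?_, ?_, ?_⟩
  · intro i j h
    exact e.injective (Subtype.ext (fr79_inj hind h))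
  · intro j
    exact Polynomial.mem_support_iff.1 (Finset.mem_sigma.1 (e j).2).2
  · intro θ
    refine ⟨fun j => cf79 P (e j) * ph79 θ (e j), fun j => ?_, fun z => ?_⟩
    · rw [norm_mul, norm_ph79, mul_one]
    · rw [ev_expand79, G, ← Finset.sum_coe_sort]
      exact (Equiv.sum_comp e (fun x : idx79 P => (cf79 P x * ph79 θ x) *
        Complex.exp (Complex.I * (fr79 ω0 ω x : ℂ) * z))).symm

end Pool.Agent.Helper77.EHR.P
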