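import Pool.Agent.Helper77.EHR.P.Defs

/-! MP_4f9849, all exponential sums: bound and Lipschitz constant on the rectangle. -/

set_option autoImplicit false

namespace Pool.Agent.Helper77.EHR.P

/-- bounded and Lipschitz on the rectangle, `θ` modulo one. -/
def BL {r : ℕ} (T H : ℝ) (f : (Fin r → ℝ) → ℂ → ℂ) : Prop :=
  ∃ K : ℝ, 0 ≤ K ∧ ∀ (θ θ' : Fin r → ℝ) (z z' : ℂ) (s : ℝ), z ∈ Reg T H → z' ∈ Reg T H →
    (∀ j, ∃ m : ℤ, |θ j - m - θ' j| ≤ s) → ‖z - z'‖ ≤ s →
    ‖f θ z‖ ≤ K ∧ ‖f θ z - f θ' z'‖ ≤ K * s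

theorem BL.const {r : ℕ} (T H : ℝ) (c : ℂ) : BL (r := r) T H (fun _ _ => c) := by
  refine ⟨‖c‖, norm_nonneg c, ?_⟩
  intro θ θ' z z' s _ _ _ hs
  have h0 : 0 ≤ s := le_trans (norm_nonneg _) hs
  refine ⟨le_rfl, ?_⟩
  rw [sub_self, norm_zero]
  positivity

theorem BL.add {r : ℕ} {T H : ℝ} {f g : (Fin r → ℝ) → ℂ → ℂ} (hf : BL T H f) (hg : BL T H g) :
    BL T H (fun θ z => f θ z + g θ z) := by
  obtain ⟨K, hK, h1⟩ := hf
  obtain ⟨K', hK', h2⟩ := hg
  refine ⟨K + K', by positivity, ?_⟩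
  intro θ θ' z z' s hz hz' hθ hs
  obtain ⟨a1, a2⟩ := h1 θ θ' z z' s hz hz' hθ hs
  obtain ⟨b1, b2⟩ := h2 θ θ' z z' s hz hz' hθ hs
  constructor
  · exact le_trans (norm_add_le _ _) (add_le_add a1 b1)
  · have e : f θ z + g θ z - (f θ' z' + g θ' z') = (f θ z - f θ' z') + (g θ z - g θ' z') := by
      ring
    rw [e, add_mul]
    exact le_trans (norm_add_le _ _) (add_le_add a2 b2)

theorem BL.mul {r : ℕ} {T H : ℝ} {f g : (Fin r → ℝ) → ℂ → ℂ} (hf : BL T H f) (hg : BL T H g) :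
    BL T H (fun θ z => f θ z * g θ z) := by
  obtain ⟨K, hK, h1⟩ := hf
  obtain ⟨K', hK', h2⟩ := hg
  refine ⟨2 * (K * K'), by positivity, ?_⟩
  intro θ θ' z z' s hz hz' hθ hs
  have h0 : 0 ≤ s := le_trans (norm_nonneg _) hs
  obtain ⟨a1, a2⟩ := h1 θ θ' z z' s hz hz' hθ hs
  obtain ⟨b1, b2⟩ := h2 θ θ' z z' s hz hz' hθ hs
  have hθ' : ∀ j, ∃ m : ℤ, |θ' j - m - θ j| ≤ s := by
    intro j
    obtain ⟨m, hm⟩ := hθ j
    refine ⟨-m, ?_⟩
    rw [abs_sub_comm] at hm
    have e : θ' j - ((-m : ℤ) : ℝ) - θ j = θ' j - (θ j - m) := by push_cast; ring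
    rw [e]
    exact hm
  have hs' : ‖z' - z‖ ≤ s := by rw [norm_sub_rev]; exact hs
  obtain ⟨c1, -⟩ := h1 θ' θ z' z s hz' hz hθ' hs'
  constructor
  · rw [norm_mul]
    calc ‖f θ z‖ * ‖g θ z‖ ≤ K * K' := mul_le_mul a1 b1 (norm_nonneg _) hK
      _ ≤ 2 * (K * K') := by nlinarith [mul_nonneg hK hK']
  · have e : f θ z * g θ z - f θ' z' * g θ' z' =
        (f θ z - f θ' z') * g θ z + f θ' z' * (g θ z - g θ' z') := by ring
    rw [e]
    calc ‖(f θ z - f θ' z') * g θ z + f θ' z' * (g θ z - g θ' z')‖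
        ≤ ‖(f θ z - f θ' z') * g θ z‖ + ‖f θ' z' * (g θ z - g θ' z')‖ := norm_add_le _ _
      _ = ‖f θ z - f θ' z'‖ * ‖g θ z‖ + ‖f θ' z'‖ * ‖g θ z - g θ' z'‖ := by
          rw [norm_mul, norm_mul]
      _ ≤ (K * s) * K' + K * (K' * s) := by
          apply add_le_add
          · exact mul_le_mul a2 b1 (norm_nonneg _) (by positivity)
          · exact mul_le_mul c1 b2 (norm_nonneg _) hK
      _ = 2 * (K * K') * s := by ring

theorem convex_Reg (T H : ℝ) : Convex ℝ (Reg T H) := by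
  intro x hx y hy a b ha hb hab
  obtain ⟨h1, h2⟩ := hx
  obtain ⟨h3, h4⟩ := hy
  rw [abs_le] at h1 h2 h3 h4
  have e1 : (a • x + b • y).re = a * x.re + b * y.re := by simp
  have e2 : (a • x + b • y).im = a * x.im + b * y.im := by simp
  refine ⟨?_, ?_⟩
  · rw [e1, abs_le]
    have hb' : b = 1 - a := by linarith
    subst hb'
    constructor <;> nlinarith
  · rw [e2, abs_le]
    have hb' : b = 1 - a := by linarith
    subst hb'
    constructor <;> nlinarith

theorem norm_ew (ω T H : ℝ) (z : ℂ) (hz : z ∈ Reg T H) :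
    ‖Complex.exp (Complex.I * (ω : ℂ) * z)‖ ≤ Real.exp (|ω| * H) := by
  rw [Complex.norm_exp]
  apply Real.exp_le_exp.mpr
  have e : (Complex.I * (ω : ℂ) * z).re = -(ω * z.im) := by simp
  rw [e]
  calc -(ω * z.im) ≤ |ω * z.im| := neg_le_abs _
    _ = |ω| * |z.im| := abs_mul _ _
    _ ≤ |ω| * H := mul_le_mul_of_nonneg_left hz.2 (abs_nonneg _)

theorem BL.ew {r : ℕ} (T H ω : ℝ) :
    BL (r := r) T H (fun _ z => Complex.exp (Complex.I * (ω : ℂ) * z)) := by
  refine ⟨(|ω| + 1) * Real.exp (|ω| * H), by positivity, ?_⟩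
  intro θ θ' z z' s hz hz' _ hs
  have hE : 0 < Real.exp (|ω| * H) := Real.exp_pos _
  have h0 : 0 ≤ s := le_trans (norm_nonneg _) hs
  constructor
  · refine le_trans (norm_ew ω T H z hz) ?_
    nlinarith [abs_nonneg ω]
  · have hd : ∀ x ∈ Reg T H, HasDerivWithinAt (fun z => Complex.exp (Complex.I * (ω : ℂ) * z))
        (Complex.exp (Complex.I * (ω : ℂ) * x) * (Complex.I * (ω : ℂ))) (Reg T H) x := by
      intro x _
      have h1 : HasDerivAt (fun z : ℂ => Complex.I * (ω : ℂ) * z) (Complex.I * (ω : ℂ)) x := by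
        simpa using (hasDerivAt_id x).const_mul (Complex.I * (ω : ℂ))
      exact (h1.cexp).hasDerivWithinAt
    have hb : ∀ x ∈ Reg T H, ‖Complex.exp (Complex.I * (ω : ℂ) * x) * (Complex.I * (ω : ℂ))‖ ≤
        |ω| * Real.exp (|ω| * H) := by
      intro x hx
      rw [norm_mul, norm_mul, Complex.norm_I, one_mul, Complex.norm_real, Real.norm_eq_abs,
        mul_comm]
      exact mul_le_mul_of_nonneg_left (norm_ew ω T H x hx) (abs_nonneg _)
    have h2 := (convex_Reg T H).norm_image_sub_le_of_norm_hasDerivWithin_le hd hb hz' hz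
    refine le_trans h2 ?_
    calc |ω| * Real.exp (|ω| * H) * ‖z - z'‖ ≤ |ω| * Real.exp (|ω| * H) * s :=
          mul_le_mul_of_nonneg_left hs (by positivity)
      _ ≤ (|ω| + 1) * Real.exp (|ω| * H) * s := by
          have : 0 ≤ Real.exp (|ω| * H) * s := by positivity
          nlinarith

theorem norm_et (t : ℝ) : ‖Complex.exp (2 * Real.pi * Complex.I * (t : ℝ))‖ = 1 := by
  have e : (2 * Real.pi * Complex.I * (t : ℝ) : ℂ) = ((2 * Real.pi * t : ℝ) : ℂ) * Complex.I := by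
    push_cast; ring
  rw [e, Complex.norm_exp_ofReal_mul_I]

theorem BL.et {r : ℕ} (T H : ℝ) (j : Fin r) :
    BL (r := r) T H (fun θ _ => Complex.exp (2 * Real.pi * Complex.I * (θ j : ℝ))) := by
  refine ⟨2 * Real.pi, by positivity, ?_⟩
  intro θ θ' z z' s hz hz' hθ hs
  have hpi : (1 : ℝ) ≤ 2 * Real.pi := by nlinarith [Real.pi_gt_three]
  constructor
  · rw [norm_et]; exact hpi
  · obtain ⟨m, hm⟩ := hθ j
    have e1 : Complex.exp (2 * Real.pi * Complex.I * (θ j : ℝ)) =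
        Complex.exp (2 * Real.pi * Complex.I * ((θ j - m : ℝ) : ℝ)) := by
      have e : (2 * Real.pi * Complex.I * (θ j : ℝ) : ℂ) =
          2 * Real.pi * Complex.I * ((θ j - m : ℝ) : ℝ) + m * (2 * Real.pi * Complex.I) := by
        push_cast; ring
      rw [e, Complex.exp_add, Complex.exp_int_mul_two_pi_mul_I, mul_one]
    beta_reduce
    rw [e1]
    set t := θ j - m with ht
    have e2 : Complex.exp (2 * Real.pi * Complex.I * (t : ℝ)) -
        Complex.exp (2 * Real.pi * Complex.I * (θ' j : ℝ)) =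
        Complex.exp (2 * Real.pi * Complex.I * (θ' j : ℝ)) *
          (Complex.exp (Complex.I * ((2 * Real.pi * (t - θ' j) : ℝ) : ℂ)) - 1) := by
      rw [mul_sub, ← Complex.exp_add, mul_one]
      congr 2
      push_cast; ring
    rw [e2, norm_mul, norm_et, one_mul]
    refine le_trans Real.norm_exp_I_mul_ofReal_sub_one_le ?_
    rw [Real.norm_eq_abs, abs_mul, abs_of_nonneg (by positivity : (0 : ℝ) ≤ 2 * Real.pi)]
    exact mul_le_mul_of_nonneg_left hm (by positivity)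

theorem BL_poly {r : ℕ} (ω0 T H : ℝ) (p : Polynomial ℂ) :
    BL (r := r) T H (fun _ z => p.eval (Complex.exp (Complex.I * (ω0 : ℂ) * z))) := by
  induction p using Polynomial.induction_on' with
  | add p q hp hq =>
    have h := BL.add hp hq
    simpa only [Polynomial.eval_add] using h
  | monomial n a =>
    induction n with
    | zero =>
      have h := BL.const (r := r) T H a
      simpa using h
    | succ n ih =>
      have h := BL.mul ih (BL.ew (r := r) T H ω0)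
      have e : (fun (_ : Fin r → ℝ) (z : ℂ) =>
          (Polynomial.monomial (n + 1) a).eval (Complex.exp (Complex.I * (ω0 : ℂ) * z))) =
          fun _ z => (Polynomial.monomial n a).eval (Complex.exp (Complex.I * (ω0 : ℂ) * z)) *
            Complex.exp (Complex.I * (ω0 : ℂ) * z) := by
        funext _ z
        simp only [Polynomial.eval_monomial]
        ring
      rw [e]
      exact h

theorem ev_C {r : ℕ} (ω0 : ℝ) (ω θ : Fin r → ℝ) (z : ℂ) (p : Polynomial ℂ) :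
    ev ω0 ω θ z (MvPolynomial.C p) = p.eval (Complex.exp (Complex.I * (ω0 : ℂ) * z)) := by
  rw [ev, MvPolynomial.eval₂Hom_C]
  rfl

theorem ev_X {r : ℕ} (ω0 : ℝ) (ω θ : Fin r → ℝ) (z : ℂ) (j : Fin r) :
    ev ω0 ω θ z (MvPolynomial.X j) = Complex.exp (2 * Real.pi * Complex.I * (θ j : ℝ)) *
      Complex.exp (Complex.I * (ω j : ℂ) * z) := by
  rw [ev, MvPolynomial.eval₂Hom_X']

/-- ROW L (Lipschitz in z and θ on the rectangle, and bound). -/
theorem ev_lip {r : ℕ} (ω0 : ℝ) (ω : Fin r → ℝ) (T H : ℝ) (P : A r) :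
    ∃ K : ℝ, 0 ≤ K ∧ ∀ (θ θ' : Fin r → ℝ) (z z' : ℂ) (s : ℝ), z ∈ Reg T H → z' ∈ Reg T H →
      (∀ j, ∃ m : ℤ, |θ j - m - θ' j| ≤ s) → ‖z - z'‖ ≤ s →
      ‖ev ω0 ω θ z P‖ ≤ K ∧ ‖ev ω0 ω θ z P - ev ω0 ω θ' z' P‖ ≤ K * s := by
  change BL T H (fun θ z => ev ω0 ω θ z P)
  induction P using MvPolynomial.induction_on with
  | C p =>
    have h := BL_poly (r := r) ω0 T H p
    simpa only [ev_C] using h
  | add p q hp hq =>
    have h := BL.add hp hq
    simpa only [map_add] using h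
  | mul_X p j hp =>
    have h := BL.mul hp (BL.mul (BL.et (r := r) T H j) (BL.ew (r := r) T H (ω j)))
    simpa only [map_mul, ev_X] using h

end Pool.Agent.Helper77.EHR.P
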