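import Mathlib
import Pool.Agent.Helper77.EHR.P.Defs

/-! MP_4f9849, row S: the evaluation and the first variable. -/

namespace Pool.Agent.Helper77.EHR.P

/-- ROW S (finSuccEquiv). -/
theorem ev_succ {r : ℕ} (ω0 : ℝ) (ω θ : Fin (r + 1) → ℝ) (z : ℂ) (P : A (r + 1)) :
    ev ω0 ω θ z P = ((MvPolynomial.finSuccEquiv (Polynomial ℂ) r P).map
      (ev ω0 (fun j => ω j.succ) (fun j => θ j.succ) z)).eval
      (Complex.exp (2 * Real.pi * Complex.I * (θ 0 : ℝ)) * Complex.exp (Complex.I * (ω 0 : ℂ) * z))
      := by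
  induction P using MvPolynomial.induction_on with
  | C a =>
    rw [MvPolynomial.finSuccEquiv_apply, MvPolynomial.eval₂Hom_C, RingHom.comp_apply,
      Polynomial.map_C, Polynomial.eval_C]
    simp [ev]
  | add p q hp hq => rw [map_add, map_add, Polynomial.map_add, Polynomial.eval_add, hp, hq]
  | mul_X p j hp =>
    rw [map_mul, map_mul, Polynomial.map_mul, Polynomial.eval_mul, hp]
    congr 1
    refine Fin.cases ?_ (fun i => ?_) j
    · rw [MvPolynomial.finSuccEquiv_X_zero, Polynomial.map_X, Polynomial.eval_X]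
      simp [ev]
    · rw [MvPolynomial.finSuccEquiv_X_succ, Polynomial.map_C, Polynomial.eval_C]
      simp [ev]

end Pool.Agent.Helper77.EHR.P
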