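import Pool.Agent.Helper77.EHR.P.Lip

/-! MP_4f9849, all exponential sums: base of the induction. -/

set_option autoImplicit false

namespace Pool.Agent.Helper77.EHR.P

theorem coprime_zero (P Q : A 0) (hP : Irreducible P) (hPQ : ¬ P ∣ Q) :
    ∃ a b : A 0, a * P + b * Q = 1 := by
  let e : A 0 ≃+* Polynomial ℂ := (MvPolynomial.isEmptyRingEquiv (Polynomial ℂ) (Fin 0))
  have h1 : Irreducible (e P) := (MulEquiv.irreducible_iff e.toMulEquiv).mpr hP
  have h2 : ¬ e P ∣ e Q := by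
    intro h
    apply hPQ
    have h3 := map_dvd e.symm.toRingHom h
    simpa using h3
  have h4 : IsCoprime (e P) (e Q) := (h1.coprime_iff_not_dvd).mpr h2
  obtain ⟨a, b, hab⟩ := h4
  refine ⟨e.symm a, e.symm b, ?_⟩
  apply e.injective
  rw [map_add, map_mul, map_mul, RingEquiv.apply_symm_apply, RingEquiv.apply_symm_apply, hab,
    map_one]

/-- ROW B (base of the induction). -/
theorem claim_zero (ω0 : ℝ) (ω : Fin 0 → ℝ) : Claim ω0 ω := by
  classical
  intro T H P Q hP hPQ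
  obtain ⟨a, b, hab⟩ := coprime_zero P Q hP hPQ
  obtain ⟨K, hK, hKa⟩ := ev_lip ω0 ω T H a
  obtain ⟨K', hK', hKb⟩ := ev_lip ω0 ω T H b
  refine ⟨1, K + K', one_pos, le_rfl, by positivity, ?_⟩
  intro L δ hL hδ hδ1
  rw [Real.rpow_one, pow_zero, mul_one]
  have hL' : (0 : ℝ) < 1 / (L : ℝ) := by
    have : (0 : ℝ) < L := by exact_mod_cast hL
    positivity
  have hδ0 : 0 ≤ δ := le_trans hL'.le hδ
  have hcard : (bad ω0 ω T H P Q L δ).card ≤ 1 := by
    unfold bad
    refine le_trans (Finset.card_le_card (Finset.filter_subset _ _)) ?_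
    rw [Fintype.card_piFinset]
    simp
  by_cases hne : (bad ω0 ω T H P Q L δ).Nonempty
  · obtain ⟨g, hg⟩ := hne
    rw [bad, Finset.mem_filter] at hg
    obtain ⟨-, z, hz, h1, h2⟩ := hg
    set θ : Fin 0 → ℝ := fun j => (g j : ℝ) / L with hθ
    obtain ⟨h3, -⟩ := hKa θ θ z z 0 hz hz (fun j => j.elim0) (by simp)
    obtain ⟨h4, -⟩ := hKb θ θ z z 0 hz hz (fun j => j.elim0) (by simp)
    have h5 : ev ω0 ω θ z a * ev ω0 ω θ z P + ev ω0 ω θ z b * ev ω0 ω θ z Q = 1 := by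
      rw [← map_mul, ← map_mul, ← map_add, hab, map_one]
    have h6 : (1 : ℝ) ≤ (K + K') * δ := by
      calc (1 : ℝ) = ‖ev ω0 ω θ z a * ev ω0 ω θ z P + ev ω0 ω θ z b * ev ω0 ω θ z Q‖ := by
            rw [h5, norm_one]
        _ ≤ ‖ev ω0 ω θ z a * ev ω0 ω θ z P‖ + ‖ev ω0 ω θ z b * ev ω0 ω θ z Q‖ := norm_add_le _ _
        _ = ‖ev ω0 ω θ z a‖ * ‖ev ω0 ω θ z P‖ + ‖ev ω0 ω θ z b‖ * ‖ev ω0 ω θ z Q‖ := by
            rw [norm_mul, norm_mul]
        _ ≤ K * δ + K' * δ := by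
            apply add_le_add
            · exact mul_le_mul h3 h1 (norm_nonneg _) hK
            · exact mul_le_mul h4 h2 (norm_nonneg _) hK'
        _ = (K + K') * δ := by ring
    calc ((bad ω0 ω T H P Q L δ).card : ℝ) ≤ 1 := by exact_mod_cast hcard
      _ ≤ (K + K') * δ := h6
  · rw [Finset.not_nonempty_iff_eq_empty] at hne
    rw [hne]
    simp only [Finset.card_empty, Nat.cast_zero]
    positivity

end Pool.Agent.Helper77.EHR.P
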