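import Mathlib
import Pool.Agent.Helper77.EHR.P.Lip
import Pool.Agent.Helper77.EHR.P.Zero
import Pool.Agent.Helper77.EHR.P.EvG
import Pool.Agent.Helper77.EHR.P.Elim
import Pool.Agent.Helper77.EHR.P.Succ
import Pool.Agent.Helper77.EHR.P.Clus
import Pool.Agent.Helper77.EHR.P.Circ

/-! MP_4f9849, all exponential sums: the induction step for near common zeros. -/

namespace Pool.Agent.Helper77.EHR.P

open Pool.Agent.Helper77.EHR (G)

lemma ev_bdd {r : ℕ} (ω0 : ℝ) (ω : Fin r → ℝ) (T H : ℝ) (P : A r) :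
    ∃ K : ℝ, 0 ≤ K ∧ ∀ (θ : Fin r → ℝ) (z : ℂ), z ∈ Reg T H → ‖ev ω0 ω θ z P‖ ≤ K := by
  obtain ⟨K, hK, h⟩ := ev_lip ω0 ω T H P
  exact ⟨K, hK, fun θ z hz => (h θ θ z z 0 hz hz (fun j => ⟨0, by simp⟩) (by simp)).1⟩

lemma ev_lipz {r : ℕ} (ω0 : ℝ) (ω : Fin r → ℝ) (T H : ℝ) (P : A r) :
    ∃ K : ℝ, 0 ≤ K ∧ ∀ (θ : Fin r → ℝ) (z z' : ℂ) (s : ℝ), z ∈ Reg T H → z' ∈ Reg T H →
      ‖z - z'‖ ≤ s → ‖ev ω0 ω θ z P - ev ω0 ω θ z' P‖ ≤ K * s := by
  obtain ⟨K, hK, h⟩ := ev_lip ω0 ω T H P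
  refine ⟨K, hK, fun θ z z' s hz hz' hs => (h θ θ z z' s hz hz' (fun j => ⟨0, ?_⟩) hs).2⟩
  simp only [Int.cast_zero, sub_zero, sub_self, abs_zero]
  exact (norm_nonneg _).trans hs

lemma small (K a : ℝ) (ha : 0 < a) : ∃ δ0 : ℝ, 0 < δ0 ∧ ∀ δ : ℝ, 0 < δ → δ ≤ δ0 → K * δ ^ a ≤ 1 := by
  refine ⟨(1 / (|K| + 1)) ^ (1 / a), by positivity, fun δ h0 h1 => ?_⟩
  have h2 : δ ^ a ≤ 1 / (|K| + 1) := by
    calc δ ^ a ≤ ((1 / (|K| + 1)) ^ (1 / a)) ^ a := Real.rpow_le_rpow h0.le h1 ha.le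
      _ = 1 / (|K| + 1) := by
        rw [← Real.rpow_mul (by positivity), one_div_mul_cancel ha.ne', Real.rpow_one]
  calc K * δ ^ a ≤ |K| * δ ^ a := mul_le_mul_of_nonneg_right (le_abs_self K) (by positivity)
    _ ≤ |K| * (1 / (|K| + 1)) := mul_le_mul_of_nonneg_left h2 (abs_nonneg _)
    _ ≤ 1 := by
      rw [mul_one_div, div_le_one (by positivity)]
      linarith

lemma net (X : Set ℂ) (s : ℝ) (hs : 0 < s) (Z : ℕ)
    (h : ∀ S : Finset ℂ, (∀ z ∈ S, z ∈ X) → (∀ z ∈ S, ∀ w ∈ S, z ≠ w → s ≤ ‖z - w‖) → S.card ≤ Z) :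
    ∃ S : Finset ℂ, (∀ z ∈ S, z ∈ X) ∧ S.card ≤ Z ∧ ∀ z ∈ X, ∃ w ∈ S, ‖z - w‖ ≤ s := by
  classical
  let p : ℕ → Prop := fun k => ∃ S : Finset ℂ, (∀ z ∈ S, z ∈ X) ∧
    (∀ z ∈ S, ∀ w ∈ S, z ≠ w → s ≤ ‖z - w‖) ∧ S.card = k
  have h0 : p 0 := ⟨∅, by simp, by simp, rfl⟩
  have h1 : p (Nat.findGreatest p Z) := Nat.findGreatest_spec (P := p) (Nat.zero_le _) h0
  obtain ⟨S, hS1, hS2, hS3⟩ := h1
  refine ⟨S, hS1, hS3 ▸ Nat.findGreatest_le Z, fun z hz => ?_⟩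
  by_contra hcon
  push Not at hcon
  have hzS : z ∉ S := fun hm => by
    have := hcon z hm
    simp at this
    linarith
  have h2 : p (S.card + 1) := by
    refine ⟨insert z S, ?_, ?_, Finset.card_insert_of_notMem hzS⟩
    · intro w hw
      rcases Finset.mem_insert.1 hw with rfl | hw
      · exact hz
      · exact hS1 w hw
    · intro w hw w' hw' hne
      rcases Finset.mem_insert.1 hw with e | hw1 <;> rcases Finset.mem_insert.1 hw' with e' | hw1'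
      · exact absurd (e.trans e'.symm) hne
      · rw [e]; exact (hcon w' hw1').le
      · rw [e', norm_sub_rev]; exact (hcon w hw1).le
      · exact hS2 w hw1 w' hw1' hne
  have h3 : S.card + 1 ≤ Z := by
    obtain ⟨S', h3, h4, h5⟩ := h2
    exact h5 ▸ h S' h3 h4
  have h4 := Nat.le_findGreatest (P := p) h3 h2
  omega

lemma claim_fin {r : ℕ} (ω0 : ℝ) (ω : Fin r → ℝ) (h : Claim ω0 ω) (T H : ℝ)
    (D : Finset (A r × A r)) (hD : ∀ p ∈ D, Irreducible p.1 ∧ ¬ p.1 ∣ p.2) :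
    ∃ κ C : ℝ, 0 < κ ∧ κ ≤ 1 ∧ 0 ≤ C ∧ ∀ (L : ℕ) (δ : ℝ), 1 ≤ L → 1 / (L : ℝ) ≤ δ → δ ≤ 1 →
      ∑ p ∈ D, ((bad ω0 ω T H p.1 p.2 L δ).card : ℝ) ≤ C * δ ^ κ * (L : ℝ) ^ r := by
  classical
  induction D using Finset.induction_on with
  | empty => exact ⟨1, 0, one_pos, le_rfl, le_rfl, fun L δ _ _ _ => by simp⟩
  | insert p D hp ih =>
    obtain ⟨κ, C, hκ, hκ1, hC, ih⟩ := ih (fun p hp => hD p (Finset.mem_insert_of_mem hp))
    obtain ⟨κ', C', hκ', hκ'1, hC', h'⟩ := h T H p.1 p.2 (hD p (Finset.mem_insert_self _ _)).1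
      (hD p (Finset.mem_insert_self _ _)).2
    refine ⟨min κ κ', C + C', lt_min hκ hκ', (min_le_left _ _).trans hκ1, add_nonneg hC hC',
      fun L δ hL h1 h2 => ?_⟩
    have hL0 : (0 : ℝ) < L := by exact_mod_cast hL
    have hδ : 0 < δ := lt_of_lt_of_le (by positivity) h1
    rw [Finset.sum_insert hp]
    have e1 := ih L δ hL h1 h2
    have e2 := h' L δ hL h1 h2
    have e3 : δ ^ κ ≤ δ ^ (min κ κ') := Real.rpow_le_rpow_of_exponent_ge hδ h2 (min_le_left _ _)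
    have e4 : δ ^ κ' ≤ δ ^ (min κ κ') := Real.rpow_le_rpow_of_exponent_ge hδ h2 (min_le_right _ _)
    have e5 : C * δ ^ κ * (L : ℝ) ^ r ≤ C * δ ^ (min κ κ') * (L : ℝ) ^ r := by gcongr
    have e6 : C' * δ ^ κ' * (L : ℝ) ^ r ≤ C' * δ ^ (min κ κ') * (L : ℝ) ^ r := by gcongr
    calc _ ≤ C' * δ ^ (min κ κ') * (L : ℝ) ^ r + C * δ ^ (min κ κ') * (L : ℝ) ^ r :=
          add_le_add (e2.trans e6) (e1.trans e5)
      _ = _ := by ring

lemma prod_ge {R : Type*} [CommRing R] (φ : R →+* ℂ) (f : Multiset R) (δ : ℝ) (hδ : 0 ≤ δ)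
    (h : ∀ b ∈ f, δ ≤ ‖φ b‖) : δ ^ f.card ≤ ‖φ f.prod‖ := by
  induction f using Multiset.induction_on with
  | empty => simp
  | cons a f ih =>
    rw [Multiset.prod_cons, map_mul, norm_mul, Multiset.card_cons, pow_succ, mul_comm]
    exact mul_le_mul (h a (Multiset.mem_cons_self _ _))
      (ih (fun b hb => h b (Multiset.mem_cons_of_mem hb))) (by positivity) (norm_nonneg _)

/-- the fibre count: `card S ≤ ∑_{g'} card (fibre)`. -/
lemma fibre {r : ℕ} (L : ℕ) (p : (Fin (r + 1) → ℕ) → Prop) [DecidablePred p] :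
    ((Fintype.piFinset fun _ : Fin (r + 1) => Finset.range L).filter p).card ≤
      ∑ g' ∈ Fintype.piFinset fun _ : Fin r => Finset.range L,
        ((Finset.range L).filter fun t => p (Fin.cons t g')).card := by
  classical
  rw [← Finset.card_sigma]
  refine Finset.card_le_card_of_injOn (fun g => ⟨fun j => g j.succ, g 0⟩) ?_ ?_
  · intro g hg
    simp only [Finset.coe_filter, Fintype.mem_piFinset, Finset.mem_range, Set.mem_ofPred_eq] at hg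
    simp only [Finset.coe_sigma, Set.mem_sigma_iff, Finset.mem_coe, Fintype.mem_piFinset,
      Finset.mem_range, Finset.mem_filter]
    refine ⟨fun j => hg.1 _, hg.1 _, ?_⟩
    have : (Fin.cons (g 0) (fun j => g j.succ) : Fin (r + 1) → ℕ) = g := Fin.cons_self_tail g
    rw [this]; exact hg.2
  · intro g _ g' _ h
    simp only [Sigma.mk.injEq, heq_eq_eq] at h
    funext j
    refine Fin.cases h.2 (fun i => ?_) j
    exact congrFun h.1 i

end Pool.Agent.Helper77.EHR.P
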