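import Mathlib
import Pool.Agent.Helper77.EHR.P.Step

/-! MP_4f9849, all exponential sums: the main counting lemma of the induction step. -/

namespace Pool.Agent.Helper77.EHR.P

open Pool.Agent.Helper77.EHR (G)

set_option maxHeartbeats 4000000 in
open Classical in
theorem lemM {r : ℕ} (ω0 : ℝ) (ω : Fin (r + 1) → ℝ) (hind : Ind ω0 (fun j => ω j.succ))
    (h : Claim ω0 (fun j => ω j.succ)) (T H : ℝ) (s : A r) (hs : s ≠ 0) (F : A (r + 1))
    (hF : ∀ p : A r, Irreducible p → p ∣ s →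
      ∃ k, ¬ p ∣ (MvPolynomial.finSuccEquiv (Polynomial ℂ) r F).coeff k) :
    ∃ κ C : ℝ, 0 < κ ∧ κ ≤ 1 ∧ 0 ≤ C ∧ ∀ (L : ℕ) (δ : ℝ), 1 ≤ L → 1 / (L : ℝ) ≤ δ → δ ≤ 1 →
      (((Fintype.piFinset fun _ : Fin (r + 1) => Finset.range L).filter fun g =>
        ∃ z ∈ Reg T H, ‖ev ω0 (fun j => ω j.succ) (fun j => (g j.succ : ℝ) / L) z s‖ ≤ δ ∧
          ‖ev ω0 ω (fun j => (g j : ℝ) / L) z F‖ ≤ δ).card : ℝ) ≤ C * δ ^ κ * (L : ℝ) ^ (r + 1) := by
  obtain ⟨n, l, a, hl, ha, hsG⟩ := ev_G ω0 (fun j => ω j.succ) hind s hs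
  obtain ⟨N, Z, K, hN, hK, hclus⟩ := clusters l hl 0 ‖a 0‖ (∑ j, ‖a j‖) T H (norm_pos_iff.2 (ha 0))
  obtain ⟨f, hf, u, hu⟩ := UniqueFactorizationMonoid.exists_prime_factors s hs
  obtain ⟨Ku, hKu, hKu'⟩ := ev_bdd ω0 (fun j => ω j.succ) T H ((u⁻¹ : (A r)ˣ) : A r)
  obtain ⟨K2, hK2, hlip⟩ := ev_lipz ω0 ω T H F
  set Φ := MvPolynomial.finSuccEquiv (Polynomial ℂ) r F with hΦ
  obtain ⟨K3, hK3, hcirc⟩ := circle Φ.natDegree (Real.exp (|ω 0| * |H|))
    (Real.one_le_exp (by positivity))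
  have hk : ∀ b : A r, ∃ k, b ∈ f → ¬ b ∣ Φ.coeff k := by
    intro b
    by_cases hb : b ∈ f
    · obtain ⟨k, hk⟩ := hF b (hf b hb).irreducible (by
        rw [← hu]; exact Dvd.dvd.mul_right (Multiset.dvd_prod hb) _)
      exact ⟨k, fun _ => hk⟩
    · exact ⟨0, fun h => absurd h hb⟩
  choose k hk using hk
  obtain ⟨κ1, C1, hκ1, hκ1', hC1, hD⟩ := claim_fin ω0 (fun j => ω j.succ) h T H
    (f.toFinset.image (fun b => (b, Φ.coeff (k b)))) (by
      intro p hp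
      rw [Finset.mem_image] at hp
      obtain ⟨b, hb, rfl⟩ := hp
      rw [Multiset.mem_toFinset] at hb
      exact ⟨(hf b hb).irreducible, hk b hb⟩)
  set D := f.toFinset.image (fun b => (b, Φ.coeff (k b))) with hDdef
  have hN0 : (0 : ℝ) < N := by exact_mod_cast hN
  obtain ⟨E, hE⟩ : ∃ E : ℝ, E = 1 / (8 * N) := ⟨_, rfl⟩
  have hE0 : 0 < E := by rw [hE]; positivity
  have hE1 : E ≤ 1 / 8 := by
    rw [hE]
    apply one_div_le_one_div_of_le (by norm_num)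
    have : (1 : ℝ) ≤ N := by exact_mod_cast hN
    linarith
  have hEN : 8 * E * N = 1 := by rw [hE]; field_simp
  obtain ⟨d, hd⟩ : ∃ d : ℝ, d = Φ.natDegree := ⟨_, rfl⟩
  have hd0 : 0 ≤ d := by rw [hd]; positivity
  obtain ⟨m, hm⟩ : ∃ m : ℝ, m = f.card := ⟨_, rfl⟩
  have hm0 : 0 ≤ m := by rw [hm]; positivity
  obtain ⟨δ1, hδ1, hsm1⟩ := small K (1 / 2) (by norm_num)
  obtain ⟨δ2, hδ2, hsm2⟩ := small (K3 * (1 + K2)) E hE0
  obtain ⟨δ3, hδ3, hsm3⟩ := small (2 * Ku) (1 / 2) (by norm_num)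
  obtain ⟨δ0, hδ0⟩ : ∃ δ0 : ℝ, δ0 = min δ1 (min δ2 δ3) := ⟨_, rfl⟩
  have hδ0p : 0 < δ0 := by rw [hδ0]; exact lt_min hδ1 (lt_min hδ2 hδ3)
  obtain ⟨e2, he2⟩ : ∃ e2 : ℝ, e2 = E / (d + 1) := ⟨_, rfl⟩
  obtain ⟨e3, he3⟩ : ∃ e3 : ℝ, e3 = 2 * E / (m + 1) := ⟨_, rfl⟩
  have he2p : 0 < e2 := by rw [he2]; positivity
  have he3p : 0 < e3 := by rw [he3]; positivity
  have he2E : e2 ≤ E := by
    rw [he2]; exact div_le_self hE0.le (by linarith)
  have he3E : e3 ≤ 2 * E := by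
    rw [he3]; exact div_le_self (by positivity) (by linarith)
  have he2d : e2 * d ≤ E := by
    rw [he2, div_mul_eq_mul_div, div_le_iff₀ (by positivity)]
    nlinarith
  have he3m : e3 * m ≤ 2 * E := by
    rw [he3, div_mul_eq_mul_div, div_le_iff₀ (by positivity)]
    nlinarith
  obtain ⟨κ, hκ⟩ : ∃ κ : ℝ, κ = min e2 (e3 * κ1) := ⟨_, rfl⟩
  have hκp : 0 < κ := by rw [hκ]; exact lt_min he2p (by positivity)
  have hκ1 : κ ≤ 1 := by rw [hκ]; exact (min_le_left _ _).trans (by linarith)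
  refine ⟨κ, 2 * Z * K3 + C1 + 1 / δ0, hκp, hκ1, by positivity, fun L δ hL h1 h2 => ?_⟩
  have hL0 : (0 : ℝ) < L := by exact_mod_cast hL
  have hδp : 0 < δ := lt_of_lt_of_le (by positivity) h1
  have hκδ : 0 < δ ^ κ := by positivity
  by_cases hδ : δ ≤ δ0
  swap
  · -- trivial bound
    rw [not_le] at hδ
    have e1 : (((Fintype.piFinset fun _ : Fin (r + 1) => Finset.range L).filter fun g =>
        ∃ z ∈ Reg T H, ‖ev ω0 (fun j => ω j.succ) (fun j => (g j.succ : ℝ) / L) z s‖ ≤ δ ∧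
          ‖ev ω0 ω (fun j => (g j : ℝ) / L) z F‖ ≤ δ).card : ℝ) ≤ (L : ℝ) ^ (r + 1) := by
      have := Finset.card_filter_le (Fintype.piFinset fun _ : Fin (r + 1) => Finset.range L)
        (fun g => ∃ z ∈ Reg T H, ‖ev ω0 (fun j => ω j.succ) (fun j => (g j.succ : ℝ) / L) z s‖ ≤ δ ∧
          ‖ev ω0 ω (fun j => (g j : ℝ) / L) z F‖ ≤ δ)
      rw [Fintype.card_piFinset_const, Finset.card_range] at this
      exact_mod_cast this
    have e2 : 1 ≤ 1 / δ0 * δ ^ κ := by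
      have e3 : δ ≤ δ ^ κ := by
        calc δ = δ ^ (1 : ℝ) := (Real.rpow_one _).symm
          _ ≤ δ ^ κ := Real.rpow_le_rpow_of_exponent_ge hδp h2 hκ1
      rw [one_div, ← div_eq_inv_mul, le_div_iff₀ hδ0p]
      linarith
    have e3 : (0 : ℝ) ≤ (2 * Z * K3 + C1) * δ ^ κ := by positivity
    calc _ ≤ (L : ℝ) ^ (r + 1) := e1
      _ = 1 * (L : ℝ) ^ (r + 1) := (one_mul _).symm
      _ ≤ ((2 * Z * K3 + C1 + 1 / δ0) * δ ^ κ) * (L : ℝ) ^ (r + 1) := by
        refine mul_le_mul_of_nonneg_right ?_ (by positivity)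
        rw [add_mul]; linarith
  -- main case
  have hδ1' : δ ≤ δ1 := hδ.trans (hδ0 ▸ min_le_left _ _)
  have hδ2' : δ ≤ δ2 := hδ.trans (hδ0 ▸ (min_le_right _ _).trans (min_le_left _ _))
  have hδ3' : δ ≤ δ3 := hδ.trans (hδ0 ▸ (min_le_right _ _).trans (min_le_right _ _))
  have q1 := hsm1 δ hδp hδ1'
  have q2 := hsm2 δ hδp hδ2'
  have q3 := hsm3 δ hδp hδ3'
  obtain ⟨s1, hs1⟩ : ∃ s1 : ℝ, s1 = δ ^ (4 * E) := ⟨_, rfl⟩
  obtain ⟨s2, hs2⟩ : ∃ s2 : ℝ, s2 = δ ^ e2 := ⟨_, rfl⟩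
  obtain ⟨η, hη⟩ : ∃ η : ℝ, η = δ ^ (2 * E) := ⟨_, rfl⟩
  obtain ⟨δ', hδ'⟩ : ∃ δ' : ℝ, δ' = δ ^ e3 := ⟨_, rfl⟩
  have hs1p : 0 < s1 := by rw [hs1]; positivity
  have hs2p : 0 < s2 := by rw [hs2]; positivity
  have hηp : 0 < η := by rw [hη]; positivity
  have hδ'p : 0 < δ' := by rw [hδ']; positivity
  have mono : ∀ x y : ℝ, x ≤ y → δ ^ y ≤ δ ^ x := fun x y hxy =>
    Real.rpow_le_rpow_of_exponent_ge hδp h2 hxy
  have hδ1e : δ = δ ^ (1 : ℝ) := (Real.rpow_one _).symm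
  have hδs1 : δ ≤ s1 := by rw [hs1]; nth_rw 1 [hδ1e]; exact mono _ _ (by linarith)
  have hδs2 : δ ≤ s2 := by rw [hs2]; nth_rw 1 [hδ1e]; exact mono _ _ (by linarith)
  have hδδ' : δ ≤ δ' := by rw [hδ']; nth_rw 1 [hδ1e]; exact mono _ _ (by linarith)
  have hδ'1 : δ' ≤ 1 := by rw [hδ']; exact Real.rpow_le_one hδp.le h2 he3p.le
  have hηδ' : η ≤ δ' := by rw [hη, hδ']; exact mono _ _ he3E
  have hhalf : δ = δ ^ (1 / 2 : ℝ) * δ ^ (1 / 2 : ℝ) := by
    rw [← Real.rpow_add hδp]; norm_num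
  have hhp : 0 < δ ^ (1 / 2 : ℝ) := by positivity
  have p1 : K * δ ≤ s1 ^ N := by
    have e1 : s1 ^ N = δ ^ (1 / 2 : ℝ) := by
      rw [hs1, ← Real.rpow_natCast, ← Real.rpow_mul hδp.le]
      congr 1
      linarith
    rw [e1]
    calc K * δ = (K * δ ^ (1 / 2 : ℝ)) * δ ^ (1 / 2 : ℝ) := by nth_rw 1 [hhalf]; ring
      _ ≤ 1 * δ ^ (1 / 2 : ℝ) := mul_le_mul_of_nonneg_right q1 hhp.le
      _ = _ := one_mul _
  have p2 : K3 * ((1 + K2) * s1) ≤ η * s2 ^ Φ.natDegree := by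
    have e1 : δ ^ E ≤ s2 ^ Φ.natDegree := by
      rw [hs2, ← Real.rpow_natCast, ← Real.rpow_mul hδp.le, ← hd]
      exact mono _ _ he2d
    have e2 : s1 = δ ^ E * (δ ^ E * η) := by
      rw [hs1, hη, ← Real.rpow_add hδp, ← Real.rpow_add hδp]
      congr 1; ring
    have e3 : 0 < δ ^ E := by positivity
    calc K3 * ((1 + K2) * s1) = (K3 * (1 + K2) * δ ^ E) * (δ ^ E * η) := by
          nth_rw 1 [e2]; ring
      _ ≤ 1 * (δ ^ E * η) := mul_le_mul_of_nonneg_right q2 (by positivity)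
      _ = η * δ ^ E := by ring
      _ ≤ _ := mul_le_mul_of_nonneg_left e1 hηp.le
  have p3 : Ku * δ < δ' ^ f.card := by
    have e1 : δ ^ (1 / 2 : ℝ) ≤ δ' ^ f.card := by
      rw [hδ', ← Real.rpow_natCast, ← Real.rpow_mul hδp.le, ← hm]
      exact mono _ _ (by linarith)
    calc Ku * δ = (2 * Ku * δ ^ (1 / 2 : ℝ)) * (δ ^ (1 / 2 : ℝ) / 2) := by nth_rw 1 [hhalf]; ring
      _ ≤ 1 * (δ ^ (1 / 2 : ℝ) / 2) := mul_le_mul_of_nonneg_right q3 (by positivity)
      _ < δ ^ (1 / 2 : ℝ) := by linarith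
      _ ≤ _ := e1
  have p4 : (L : ℝ) * s2 + 1 ≤ 2 * (L * s2) := by
    have : 1 ≤ L * s2 := by
      calc (1 : ℝ) = L * (1 / L) := by field_simp
        _ ≤ L * s2 := mul_le_mul_of_nonneg_left (h1.trans hδs2) hL0.le
    linarith
  -- per fibre
  have hfib : ∀ g' ∈ Fintype.piFinset fun _ : Fin r => Finset.range L,
      ((((Finset.range L).filter fun t => ∃ z ∈ Reg T H,
        ‖ev ω0 (fun j => ω j.succ) (fun j => ((Fin.cons t g' : Fin (r + 1) → ℕ) j.succ : ℝ) / L) z s‖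
          ≤ δ ∧ ‖ev ω0 ω (fun j => ((Fin.cons t g' : Fin (r + 1) → ℕ) j : ℝ) / L) z F‖ ≤ δ).card : ℕ) : ℝ)
        ≤ 2 * Z * K3 * s2 * L + ∑ p ∈ D,
          (if g' ∈ bad ω0 (fun j => ω j.succ) T H p.1 p.2 L δ' then (L : ℝ) else 0) := by
    intro g' hg'
    by_cases hex : ∃ p ∈ D, g' ∈ bad ω0 (fun j => ω j.succ) T H p.1 p.2 L δ'
    · obtain ⟨p, hp, hpb⟩ := hex
      have e1 : (L : ℝ) ≤ ∑ p ∈ D,
          (if g' ∈ bad ω0 (fun j => ω j.succ) T H p.1 p.2 L δ' then (L : ℝ) else 0) := by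
        have := Finset.single_le_sum (f := fun p : A r × A r =>
          (if g' ∈ bad ω0 (fun j => ω j.succ) T H p.1 p.2 L δ' then (L : ℝ) else 0))
          (fun q _ => by split_ifs <;> positivity) hp
        simpa only [hpb, if_true] using this
      have e2 : ((((Finset.range L).filter fun t => ∃ z ∈ Reg T H,
        ‖ev ω0 (fun j => ω j.succ) (fun j => ((Fin.cons t g' : Fin (r + 1) → ℕ) j.succ : ℝ) / L) z s‖
          ≤ δ ∧ ‖ev ω0 ω (fun j => ((Fin.cons t g' : Fin (r + 1) → ℕ) j : ℝ) / L) z F‖ ≤ δ).card : ℕ) : ℝ)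
          ≤ L := by
        have := Finset.card_filter_le (Finset.range L) (fun t => ∃ z ∈ Reg T H,
        ‖ev ω0 (fun j => ω j.succ) (fun j => ((Fin.cons t g' : Fin (r + 1) → ℕ) j.succ : ℝ) / L) z s‖
          ≤ δ ∧ ‖ev ω0 ω (fun j => ((Fin.cons t g' : Fin (r + 1) → ℕ) j : ℝ) / L) z F‖ ≤ δ)
        rw [Finset.card_range] at this
        exact_mod_cast this
      have e3 : 0 ≤ 2 * Z * K3 * s2 * L := by positivity
      linarith
    · push Not at hex
      have hsum0 : 0 ≤ ∑ p ∈ D,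
          (if g' ∈ bad ω0 (fun j => ω j.succ) T H p.1 p.2 L δ' then (L : ℝ) else 0) :=
        Finset.sum_nonneg (fun q _ => by split_ifs <;> positivity)
      obtain ⟨θ, hθ⟩ : ∃ θ : Fin r → ℝ, θ = fun j => (g' j : ℝ) / L := ⟨_, rfl⟩
      obtain ⟨c, hc1, hc2⟩ := hsG θ
      obtain ⟨S, hS1, hS2, hS3⟩ := net
        {z | z ∈ Reg T H ∧ ‖ev ω0 (fun j => ω j.succ) θ z s‖ ≤ δ} s1 hs1p Z (by
          intro S hS1 hS2
          refine hclus c (by rw [hc1]) (fun j => ?_) δ s1 S hδp.le h2 hs1p p1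
            (fun z hz => ⟨(hS1 z hz).1, ?_⟩) hS2
          · rw [hc1]
            exact Finset.single_le_sum (f := fun j => ‖a j‖) (fun _ _ => norm_nonneg _)
              (Finset.mem_univ j)
          · rw [← hc2]; exact (hS1 z hz).2)
      have hsub : ((Finset.range L).filter fun t => ∃ z ∈ Reg T H,
        ‖ev ω0 (fun j => ω j.succ) (fun j => ((Fin.cons t g' : Fin (r + 1) → ℕ) j.succ : ℝ) / L) z s‖
          ≤ δ ∧ ‖ev ω0 ω (fun j => ((Fin.cons t g' : Fin (r + 1) → ℕ) j : ℝ) / L) z F‖ ≤ δ) ⊆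
          S.biUnion (fun w => (Finset.range L).filter fun g : ℕ =>
            ‖(Φ.map (ev ω0 (fun j => ω j.succ) θ w)).eval
              (Complex.exp (2 * Real.pi * Complex.I * ((g : ℝ) / (L : ℝ) : ℝ)) *
                Complex.exp (Complex.I * (ω 0 : ℂ) * w))‖ ≤ (1 + K2) * s1) := by
        intro t ht
        rw [Finset.mem_filter] at ht
        obtain ⟨ht1, z, hz, hz1, hz2⟩ := ht
        have e1 : (fun j => ((Fin.cons t g' : Fin (r + 1) → ℕ) j.succ : ℝ) / L) = θ := by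
          rw [hθ]; funext j; rw [Fin.cons_succ]
        rw [e1] at hz1
        obtain ⟨w, hw, hzw⟩ := hS3 z ⟨hz, hz1⟩
        rw [Finset.mem_biUnion]
        refine ⟨w, hw, ?_⟩
        rw [Finset.mem_filter]
        refine ⟨ht1, ?_⟩
        have e2 := hlip (fun j => ((Fin.cons t g' : Fin (r + 1) → ℕ) j : ℝ) / L) w z s1 (hS1 w hw).1 hz
          (by rw [norm_sub_rev]; exact hzw)
        have e3 : ‖ev ω0 ω (fun j => ((Fin.cons t g' : Fin (r + 1) → ℕ) j : ℝ) / L) w F‖ ≤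
            (1 + K2) * s1 := by
          have e4 := norm_sub_norm_le
            (ev ω0 ω (fun j => ((Fin.cons t g' : Fin (r + 1) → ℕ) j : ℝ) / L) w F)
            (ev ω0 ω (fun j => ((Fin.cons t g' : Fin (r + 1) → ℕ) j : ℝ) / L) z F)
          have e5 : (1 + K2) * s1 = s1 + K2 * s1 := by ring
          rw [e5]
          linarith only [e4, e2, hz2, hδs1]
        rw [ev_succ, e1, ← hΦ] at e3
        simpa only [Fin.cons_zero] using e3
      have hcard : ∀ w ∈ S, ((((Finset.range L).filter fun g : ℕ =>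
            ‖(Φ.map (ev ω0 (fun j => ω j.succ) θ w)).eval
              (Complex.exp (2 * Real.pi * Complex.I * ((g : ℝ) / (L : ℝ) : ℝ)) *
                Complex.exp (Complex.I * (ω 0 : ℂ) * w))‖ ≤ (1 + K2) * s1).card : ℕ) : ℝ)
          ≤ K3 * (L * s2 + 1) := by
        intro w hw
        have hwR := (hS1 w hw).1
        have e0 : |ω 0 * w.im| ≤ |ω 0| * |H| := by
          rw [abs_mul]
          exact mul_le_mul_of_nonneg_left (hwR.2.trans (le_abs_self _)) (abs_nonneg _)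
        have e1 : ‖Complex.exp (Complex.I * (ω 0 : ℂ) * w)‖ = Real.exp (-(ω 0 * w.im)) := by
          rw [Complex.norm_exp]; congr 1; simp
        refine hcirc (Φ.map (ev ω0 (fun j => ω j.succ) θ w)) _ L _ η s2
          (Polynomial.natDegree_map_le) hL ?_ ?_ (by positivity) hηp hs2p ?_ p2
        · rw [e1, one_div, ← Real.exp_neg]
          exact Real.exp_le_exp.2 (by linarith [(abs_le.1 e0).2])
        · rw [e1]
          exact Real.exp_le_exp.2 (by linarith [(abs_le.1 e0).1])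
        · by_contra hcon
          push Not at hcon
          have hprod : ‖ev ω0 (fun j => ω j.succ) θ w f.prod‖ ≤ Ku * δ := by
            have e2 : f.prod = s * ((u⁻¹ : (A r)ˣ) : A r) := by
              rw [← hu, mul_assoc, Units.mul_inv, mul_one]
            rw [e2, map_mul, norm_mul, mul_comm]
            exact mul_le_mul (hKu' θ w hwR) (hS1 w hw).2 (norm_nonneg _) hKu
          have hb : ∃ b ∈ f, ‖ev ω0 (fun j => ω j.succ) θ w b‖ < δ' := by
            by_contra hcon2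
            push Not at hcon2
            have := prod_ge (ev ω0 (fun j => ω j.succ) θ w) f δ' hδ'p.le hcon2
            linarith
          obtain ⟨b, hb, hbs⟩ := hb
          refine hex (b, Φ.coeff (k b)) ?_ ?_
          · rw [hDdef, Finset.mem_image]
            exact ⟨b, Multiset.mem_toFinset.2 hb, rfl⟩
          · unfold bad
            rw [Finset.mem_filter]
            refine ⟨hg', w, hwR, ?_, ?_⟩
            · rw [hθ] at hbs; exact hbs.le
            · have e3 := hcon (k b)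
              rw [Polynomial.coeff_map, hθ] at e3
              exact e3.le.trans hηδ'
      have e1 := Finset.card_le_card hsub
      have e2 : ((S.biUnion (fun w => (Finset.range L).filter fun g : ℕ =>
            ‖(Φ.map (ev ω0 (fun j => ω j.succ) θ w)).eval
              (Complex.exp (2 * Real.pi * Complex.I * ((g : ℝ) / (L : ℝ) : ℝ)) *
                Complex.exp (Complex.I * (ω 0 : ℂ) * w))‖ ≤ (1 + K2) * s1)).card : ℝ)
          ≤ ∑ w ∈ S, K3 * (L * s2 + 1) := by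
        refine le_trans ?_ (Finset.sum_le_sum hcard)
        exact_mod_cast Finset.card_biUnion_le
      rw [Finset.sum_const, nsmul_eq_mul] at e2
      have e3 : ((((Finset.range L).filter fun t => ∃ z ∈ Reg T H,
        ‖ev ω0 (fun j => ω j.succ) (fun j => ((Fin.cons t g' : Fin (r + 1) → ℕ) j.succ : ℝ) / L) z s‖
          ≤ δ ∧ ‖ev ω0 ω (fun j => ((Fin.cons t g' : Fin (r + 1) → ℕ) j : ℝ) / L) z F‖ ≤ δ).card : ℕ) : ℝ)
          ≤ S.card * (K3 * (L * s2 + 1)) := (Nat.cast_le.2 e1).trans e2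
      have e4 : (S.card : ℝ) * (K3 * (L * s2 + 1)) ≤ Z * (K3 * (2 * (L * s2))) := by
        have : (S.card : ℝ) ≤ Z := by exact_mod_cast hS2
        gcongr
      calc _ ≤ _ := e3
        _ ≤ _ := e4
        _ = 2 * Z * K3 * s2 * L := by ring
        _ ≤ _ := le_add_of_nonneg_right hsum0
  -- total
  have t1 := fibre L (fun g : Fin (r + 1) → ℕ => ∃ z ∈ Reg T H,
    ‖ev ω0 (fun j => ω j.succ) (fun j => (g j.succ : ℝ) / L) z s‖ ≤ δ ∧
          ‖ev ω0 ω (fun j => (g j : ℝ) / L) z F‖ ≤ δ)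
  have t2 : (((Fintype.piFinset fun _ : Fin (r + 1) => Finset.range L).filter fun g =>
        ∃ z ∈ Reg T H, ‖ev ω0 (fun j => ω j.succ) (fun j => (g j.succ : ℝ) / L) z s‖ ≤ δ ∧
          ‖ev ω0 ω (fun j => (g j : ℝ) / L) z F‖ ≤ δ).card : ℝ) ≤
      ∑ g' ∈ Fintype.piFinset fun _ : Fin r => Finset.range L,
        (2 * Z * K3 * s2 * L + ∑ p ∈ D,
          (if g' ∈ bad ω0 (fun j => ω j.succ) T H p.1 p.2 L δ' then (L : ℝ) else 0)) := by
    refine le_trans ?_ (Finset.sum_le_sum hfib)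
    exact_mod_cast t1
  have t3 : ∑ g' ∈ Fintype.piFinset fun _ : Fin r => Finset.range L,
        (2 * Z * K3 * s2 * L + ∑ p ∈ D,
          (if g' ∈ bad ω0 (fun j => ω j.succ) T H p.1 p.2 L δ' then (L : ℝ) else 0)) =
      2 * Z * K3 * s2 * L * L ^ r + (∑ p ∈ D, ((bad ω0 (fun j => ω j.succ) T H p.1 p.2 L δ').card : ℝ))
        * L := by
    rw [Finset.sum_add_distrib, Finset.sum_const, Fintype.card_piFinset_const, Finset.card_range,
      nsmul_eq_mul, Finset.sum_comm, Finset.sum_mul]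
    congr 1
    · push_cast; ring
    · refine Finset.sum_congr rfl (fun p _ => ?_)
      rw [← Finset.sum_filter, Finset.sum_const, nsmul_eq_mul]
      congr 3
      ext g'
      rw [Finset.mem_filter]
      refine ⟨fun h => h.2, fun h => ⟨?_, h⟩⟩
      unfold bad at h
      exact (Finset.mem_filter.1 h).1
  have t4 := hD L δ' hL (h1.trans hδδ') hδ'1
  have t5 : δ' ^ κ1 ≤ δ ^ κ := by
    rw [hδ', ← Real.rpow_mul hδp.le]
    exact mono _ _ (hκ ▸ min_le_right _ _)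
  have t6 : s2 ≤ δ ^ κ := by
    rw [hs2]; exact mono _ _ (hκ ▸ min_le_left _ _)
  calc _ ≤ _ := t2
    _ = _ := t3
    _ ≤ 2 * Z * K3 * δ ^ κ * L * L ^ r + (C1 * δ ^ κ * L ^ r) * L := by
        have : C1 * δ' ^ κ1 * (L : ℝ) ^ r ≤ C1 * δ ^ κ * L ^ r := by gcongr
        have := t4.trans this
        gcongr
    _ = (2 * Z * K3 + C1) * δ ^ κ * L ^ (r + 1) := by rw [pow_succ]; ring
    _ ≤ (2 * Z * K3 + C1 + 1 / δ0) * δ ^ κ * L ^ (r + 1) := by
        have e1 : 0 ≤ 1 / δ0 := by positivity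
        rw [mul_assoc, mul_assoc (2 * (Z : ℝ) * K3 + C1 + 1 / δ0)]
        exact mul_le_mul_of_nonneg_right (by linarith only [e1]) (by positivity)

end Pool.Agent.Helper77.EHR.P
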