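import Mathlib
import Pool.Agent.Helper77.EHR.P.LemM

/-! MP_4f9849, all exponential sums: the induction. -/

namespace Pool.Agent.Helper77.EHR.P

open Pool.Agent.Helper77.EHR (G)

lemma ev_C_of {r : ℕ} (ω0 : ℝ) (ω θ : Fin (r + 1) → ℝ) (z : ℂ) (s : A r) (P : A (r + 1))
    (h : MvPolynomial.finSuccEquiv (Polynomial ℂ) r P = Polynomial.C s) :
    ev ω0 ω θ z P = ev ω0 (fun j => ω j.succ) (fun j => θ j.succ) z s := by
  rw [ev_succ, h, Polynomial.map_C, Polynomial.eval_C]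

lemma irr_of_C {R : Type*} [CommRing R] [IsDomain R] (p : R) (h : Irreducible (Polynomial.C p)) :
    Irreducible p := by
  refine ⟨fun hu => h.not_isUnit (Polynomial.isUnit_C.2 hu), fun a b hab => ?_⟩
  have := h.isUnit_or_isUnit (a := Polynomial.C a) (b := Polynomial.C b) (by rw [hab, map_mul])
  rcases this with h | h
  · exact Or.inl (Polynomial.isUnit_C.1 h)
  · exact Or.inr (Polynomial.isUnit_C.1 h)

theorem key {r : ℕ} (ω0 : ℝ) (ω : Fin (r + 1) → ℝ) (T H : ℝ) (P Q : A (r + 1))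
    (hP : Irreducible P) (hPQ : ¬ P ∣ Q) :
    ∃ (s : A r) (F : A (r + 1)) (K : ℝ), s ≠ 0 ∧
      (∀ p : A r, Irreducible p → p ∣ s →
        ∃ k, ¬ p ∣ (MvPolynomial.finSuccEquiv (Polynomial ℂ) r F).coeff k) ∧ 1 ≤ K ∧
      ∀ (θ : Fin (r + 1) → ℝ) (z : ℂ) (δ : ℝ), z ∈ Reg T H → ‖ev ω0 ω θ z P‖ ≤ δ →
        ‖ev ω0 ω θ z Q‖ ≤ δ →
        ‖ev ω0 (fun j => ω j.succ) (fun j => θ j.succ) z s‖ ≤ K * δ ∧ ‖ev ω0 ω θ z F‖ ≤ K * δ := by
  obtain ⟨φ, hφ⟩ : ∃ φ, φ = MvPolynomial.finSuccEquiv (Polynomial ℂ) r := ⟨_, rfl⟩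
  have hirr : Irreducible (φ P) := (MulEquiv.irreducible_iff φ).2 hP
  have hnd : ¬ φ P ∣ φ Q := fun h => hPQ ((map_dvd_iff φ).1 h)
  by_cases hdeg : (φ P).natDegree = 0
  · obtain ⟨p, hp⟩ : ∃ p, p = (φ P).coeff 0 := ⟨_, rfl⟩
    have hC : φ P = Polynomial.C p := by
      rw [hp]; exact Polynomial.eq_C_of_natDegree_eq_zero hdeg
    have hpi : Irreducible p := irr_of_C p (hC ▸ hirr)
    refine ⟨p, Q, 1, hpi.ne_zero, fun p' hp' hd => ?_, le_rfl, fun θ z δ hz h1 h2 => ?_⟩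
    · by_contra hcon
      push Not at hcon
      have hass : p ∣ p' := (hp'.dvd_symm hpi hd)
      apply hnd
      rw [hC, Polynomial.C_dvd_iff_dvd_coeff]
      intro k
      have := hcon k
      rw [← hφ] at this
      exact hass.trans this
    · rw [one_mul]
      rw [ev_C_of ω0 ω θ z p P (hφ ▸ hC)] at h1
      exact ⟨h1, h2⟩
  · obtain ⟨a, b, s, hs, hab⟩ := elim (φ P) (φ Q) hirr hnd (Nat.pos_of_ne_zero hdeg)
    obtain ⟨Ka, hKa, hKa'⟩ := ev_bdd ω0 ω T H (φ.symm a)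
    obtain ⟨Kb, hKb, hKb'⟩ := ev_bdd ω0 ω T H (φ.symm b)
    have hprim : (φ P).IsPrimitive := hirr.isPrimitive hdeg
    refine ⟨s, P, 1 + Ka + Kb, hs, fun p hp _ => ?_, by linarith, fun θ z δ hz h1 h2 => ?_⟩
    · by_contra hcon
      push Not at hcon
      apply hp.not_isUnit
      apply hprim
      rw [Polynomial.C_dvd_iff_dvd_coeff]
      intro k
      have := hcon k
      rwa [← hφ] at this
    · have hδ : 0 ≤ δ := (norm_nonneg _).trans h1
      have e0 : φ.symm a * P + φ.symm b * Q = φ.symm (Polynomial.C s) := by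
        rw [← hab, map_add, map_mul, map_mul]
        simp
      have e1 : ev ω0 (fun j => ω j.succ) (fun j => θ j.succ) z s =
          ev ω0 ω θ z (φ.symm a) * ev ω0 ω θ z P + ev ω0 ω θ z (φ.symm b) * ev ω0 ω θ z Q := by
        rw [← map_mul, ← map_mul, ← map_add, e0]
        exact (ev_C_of ω0 ω θ z s _ (by rw [← hφ]; simp)).symm
      constructor
      · rw [e1]
        calc _ ≤ ‖ev ω0 ω θ z (φ.symm a)‖ * ‖ev ω0 ω θ z P‖ +
              ‖ev ω0 ω θ z (φ.symm b)‖ * ‖ev ω0 ω θ z Q‖ := by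
              rw [← norm_mul, ← norm_mul]; exact norm_add_le _ _
          _ ≤ Ka * δ + Kb * δ := by
              gcongr
              · exact hKa' θ z hz
              · exact hKb' θ z hz
          _ ≤ (1 + Ka + Kb) * δ := by nlinarith
      · calc _ ≤ δ := h1
          _ ≤ (1 + Ka + Kb) * δ := by nlinarith [mul_nonneg hKa hδ, mul_nonneg hKb hδ]

set_option maxHeartbeats 4000000 in
theorem claim_succ' {r : ℕ} (ω0 : ℝ) (ω : Fin (r + 1) → ℝ) (hind : Ind ω0 (fun j => ω j.succ))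
    (h : Claim ω0 (fun j => ω j.succ)) : Claim ω0 ω := by
  classical
  intro T H P Q hP hPQ
  obtain ⟨s, F, K, hs, hF, hK, hkey⟩ := key ω0 ω T H P Q hP hPQ
  obtain ⟨κ, C, hκ, hκ1, hC, hM⟩ := lemM ω0 ω hind h T H s hs F hF
  have hK0 : 0 < K := by linarith
  refine ⟨κ, (C + 1) * K ^ κ, hκ, hκ1, by positivity, fun L δ hL h1 h2 => ?_⟩
  have hL0 : (0 : ℝ) < L := by exact_mod_cast hL
  have hδp : 0 < δ := lt_of_lt_of_le (by positivity) h1
  have hδK : δ ≤ K * δ := le_mul_of_one_le_left hδp.le hK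
  have hpow : (K * δ) ^ κ = K ^ κ * δ ^ κ := Real.mul_rpow hK0.le hδp.le
  by_cases hKδ : K * δ ≤ 1
  · have e1 := hM L (K * δ) hL (h1.trans hδK) hKδ
    have e2 : (bad ω0 ω T H P Q L δ) ⊆
        (Fintype.piFinset fun _ : Fin (r + 1) => Finset.range L).filter fun g =>
        ∃ z ∈ Reg T H, ‖ev ω0 (fun j => ω j.succ) (fun j => (g j.succ : ℝ) / L) z s‖ ≤ K * δ ∧
          ‖ev ω0 ω (fun j => (g j : ℝ) / L) z F‖ ≤ K * δ := by
      intro g hg
      unfold bad at hg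
      rw [Finset.mem_filter] at hg ⊢
      obtain ⟨hg1, z, hz, hz1, hz2⟩ := hg
      exact ⟨hg1, z, hz, hkey (fun j => (g j : ℝ) / L) z δ hz hz1 hz2⟩
    calc ((bad ω0 ω T H P Q L δ).card : ℝ) ≤ _ := Nat.cast_le.2 (Finset.card_le_card e2)
      _ ≤ _ := e1
      _ = C * (K ^ κ * δ ^ κ * (L : ℝ) ^ (r + 1)) := by rw [hpow]; ring
      _ ≤ (C + 1) * (K ^ κ * δ ^ κ * (L : ℝ) ^ (r + 1)) :=
        mul_le_mul_of_nonneg_right (by linarith) (by positivity)
      _ = _ := by ring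
  · rw [not_le] at hKδ
    have e1 : ((bad ω0 ω T H P Q L δ).card : ℝ) ≤ (L : ℝ) ^ (r + 1) := by
      unfold bad
      have := Finset.card_filter_le (Fintype.piFinset fun _ : Fin (r + 1) => Finset.range L)
        (fun g => ∃ z ∈ Reg T H, ‖ev ω0 ω (fun j => (g j : ℝ) / L) z P‖ ≤ δ ∧
      ‖ev ω0 ω (fun j => (g j : ℝ) / L) z Q‖ ≤ δ)
      rw [Fintype.card_piFinset_const, Finset.card_range] at this
      exact_mod_cast this
    have e2 : 1 ≤ (K * δ) ^ κ := Real.one_le_rpow hKδ.le hκ.le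
    calc _ ≤ (L : ℝ) ^ (r + 1) := e1
      _ = 1 * (L : ℝ) ^ (r + 1) := (one_mul _).symm
      _ ≤ ((C + 1) * (K * δ) ^ κ) * (L : ℝ) ^ (r + 1) := by
        refine mul_le_mul_of_nonneg_right ?_ (by positivity)
        nlinarith
      _ = _ := by rw [hpow]; ring

theorem ind_tail {r : ℕ} (ω0 : ℝ) (ω : Fin (r + 1) → ℝ) (hind : Ind ω0 ω) :
    Ind ω0 (fun j => ω j.succ) := by
  intro h0 h hh
  have := hind h0 (Fin.cons 0 h) (by rw [Fin.sum_univ_succ]; simpa using hh)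
  refine ⟨this.1, ?_⟩
  funext j
  have e := congrFun this.2 j.succ
  simpa using e

theorem claim_all : ∀ {r : ℕ} (ω0 : ℝ) (ω : Fin r → ℝ), Ind ω0 ω → Claim ω0 ω := by
  intro r
  induction r with
  | zero => exact fun ω0 ω _ => claim_zero ω0 ω
  | succ r ih =>
    intro ω0 ω hind
    exact claim_succ' ω0 ω (ind_tail ω0 ω hind) (ih ω0 _ (ind_tail ω0 ω hind))

end Pool.Agent.Helper77.EHR.P
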