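import Mathlib
import Pool.Agent.Helper77.EHR.P.Fin
import Pool.Agent.Helper77.EHR.P.Succ77
import Pool.Agent.Helper77.EHR.P.Cells
import Pool.Agent.Helper77.EHR.P.Lat
import Pool.Agent.Helper77.EHR.P.PairsOf
import Pool.Agent.Helper77.EHR.P.Der

/-! MP_4f9849, all exponential sums: assembly. -/

namespace Pool.Agent.Helper77.EHR.P

open Filter Topology
open Pool.Agent.Helper77.EHR (G G_diff finite_zeros zeros_cell)

lemma cells_union {r : ℕ} (ω0 : ℝ) (ω : Fin r → ℝ) (h0 : ω0 ≠ 0) (ha0 : IsAlgebraic ℚ ω0)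
    (ha : ∀ j, IsAlgebraic ℚ (ω j)) (hind : Ind ω0 ω) (H K : ℝ) (D : Finset (A r × A r))
    (hD : ∀ p ∈ D, Irreducible p.1 ∧ ¬ p.1 ∣ p.2) :
    ∃ (A : ℕ) (κ C : ℝ), 0 < κ ∧ κ ≤ 1 ∧ 0 ≤ C ∧ ∀ (L : ℕ) (R : ℝ) (S : Finset ℤ), 1 ≤ L →
      (L : ℝ) ^ A ≤ R → 1 ≤ R → (∀ k ∈ S, |(k : ℝ)| ≤ R ∧ ∃ z : ℂ, (k : ℝ) ≤ z.re ∧ z.re < k + 1 ∧
        |z.im| ≤ H ∧ ∃ p ∈ D, ‖ev ω0 ω (fun _ => 0) z p.1‖ ≤ K / L ∧
          ‖ev ω0 ω (fun _ => 0) z p.2‖ ≤ K / L) →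
      (S.card : ℝ) ≤ C * R * (L : ℝ) ^ (-κ) := by
  classical
  induction D using Finset.induction_on with
  | empty =>
    refine ⟨0, 1, 0, one_pos, le_rfl, le_rfl, fun L R S hL _ _ h => ?_⟩
    have : S = ∅ := by
      rw [Finset.eq_empty_iff_forall_notMem]
      intro k hk
      obtain ⟨_, z, _, _, _, p, hp, _⟩ := h k hk
      simp at hp
    rw [this]; simp
  | insert p D hp ih =>
    obtain ⟨A1, κ1, C1, hκ1, hκ1', hC1, ih⟩ := ih (fun p hp => hD p (Finset.mem_insert_of_mem hp))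
    obtain ⟨hp1, hp2⟩ := hD p (Finset.mem_insert_self _ _)
    obtain ⟨A2, κ2, C2, hκ2, hκ2', hC2, h2⟩ := cells_row ω0 ω h0 ha0 ha hind (claim_all ω0 ω hind)
      H K p.1 p.2 hp1 hp2
    refine ⟨max A1 A2, min κ1 κ2, C1 + C2, lt_min hκ1 hκ2, (min_le_left _ _).trans hκ1',
      add_nonneg hC1 hC2, fun L R S hL hLR hR h => ?_⟩
    have hL1 : (1 : ℝ) ≤ L := by exact_mod_cast hL
    have hR0 : 0 < R := by linarith
    have e1 := ih L R (S.filter fun k => ∃ z : ℂ, (k : ℝ) ≤ z.re ∧ z.re < k + 1 ∧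
        |z.im| ≤ H ∧ ∃ p ∈ D, ‖ev ω0 ω (fun _ => 0) z p.1‖ ≤ K / L ∧
          ‖ev ω0 ω (fun _ => 0) z p.2‖ ≤ K / L) hL
      ((pow_le_pow_right₀ hL1 (le_max_left _ _)).trans hLR) hR (fun k hk => by
        rw [Finset.mem_filter] at hk
        exact ⟨(h k hk.1).1, hk.2⟩)
    have e2 := h2 L R (S.filter fun k => ∃ z : ℂ, (k : ℝ) ≤ z.re ∧ z.re < k + 1 ∧
        |z.im| ≤ H ∧ ‖ev ω0 ω (fun _ => 0) z p.1‖ ≤ K / L ∧
          ‖ev ω0 ω (fun _ => 0) z p.2‖ ≤ K / L) hL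
      ((pow_le_pow_right₀ hL1 (le_max_right _ _)).trans hLR) hR (fun k hk => by
        rw [Finset.mem_filter] at hk
        exact ⟨(h k hk.1).1, hk.2⟩)
    have e3 : S ⊆ (S.filter fun k => ∃ z : ℂ, (k : ℝ) ≤ z.re ∧ z.re < k + 1 ∧
        |z.im| ≤ H ∧ ∃ p ∈ D, ‖ev ω0 ω (fun _ => 0) z p.1‖ ≤ K / L ∧
          ‖ev ω0 ω (fun _ => 0) z p.2‖ ≤ K / L) ∪ (S.filter fun k => ∃ z : ℂ, (k : ℝ) ≤ z.re ∧
        z.re < k + 1 ∧ |z.im| ≤ H ∧ ‖ev ω0 ω (fun _ => 0) z p.1‖ ≤ K / L ∧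
          ‖ev ω0 ω (fun _ => 0) z p.2‖ ≤ K / L) := by
      intro k hk
      obtain ⟨_, z, h3, h4, h5, p', hp', h6⟩ := h k hk
      rw [Finset.mem_union, Finset.mem_filter, Finset.mem_filter]
      rcases Finset.mem_insert.1 hp' with rfl | hp'
      · exact Or.inr ⟨hk, z, h3, h4, h5, h6⟩
      · exact Or.inl ⟨hk, z, h3, h4, h5, p', hp', h6⟩
    have e4 := (Nat.cast_le (α := ℝ)).2 ((Finset.card_le_card e3).trans (Finset.card_union_le _ _))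
    rw [Nat.cast_add] at e4
    have e5 : (L : ℝ) ^ (-κ1) ≤ (L : ℝ) ^ (-(min κ1 κ2)) :=
      Real.rpow_le_rpow_of_exponent_le hL1 (neg_le_neg (min_le_left _ _))
    have e6 : (L : ℝ) ^ (-κ2) ≤ (L : ℝ) ^ (-(min κ1 κ2)) :=
      Real.rpow_le_rpow_of_exponent_le hL1 (neg_le_neg (min_le_right _ _))
    have e7 : C1 * R * (L : ℝ) ^ (-κ1) ≤ C1 * R * (L : ℝ) ^ (-(min κ1 κ2)) :=
      mul_le_mul_of_nonneg_left e5 (by positivity)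
    have e8 : C2 * R * (L : ℝ) ^ (-κ2) ≤ C2 * R * (L : ℝ) ^ (-(min κ1 κ2)) :=
      mul_le_mul_of_nonneg_left e6 (by positivity)
    calc (S.card : ℝ) ≤ _ := e4
      _ ≤ C1 * R * (L : ℝ) ^ (-(min κ1 κ2)) + C2 * R * (L : ℝ) ^ (-(min κ1 κ2)) :=
        add_le_add (e1.trans e7) (e2.trans e8)
      _ = _ := by ring

/-- the cells with two distinct close zeros. -/
theorem hcell {ι : Type*} [Fintype ι] (c : ι → ℂ) (l : ι → ℝ) (hl : Function.Injective l)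
    (ha : ∀ j, IsAlgebraic ℚ (l j)) (hc : ∀ j, c j ≠ 0) (j0 : ι) (H : ℝ)
    (hH : ∀ z, G c l z = 0 → |z.im| ≤ H) :
    ∃ (A : ℕ) (κ C : ℝ), 0 < κ ∧ κ ≤ 1 ∧ 0 ≤ C ∧ ∀ (L : ℕ) (R : ℝ) (S : Finset ℤ), 1 ≤ L →
      (L : ℝ) ^ A ≤ R → 1 ≤ R → (∀ k ∈ S, |(k : ℝ)| ≤ R ∧ ∃ z w : ℂ, (k : ℝ) ≤ z.re ∧ z.re < k + 1 ∧
        G c l z = 0 ∧ G c l w = 0 ∧ w ≠ z ∧ ‖z - w‖ ≤ 1 / L) →
      (S.card : ℝ) ≤ C * R * (L : ℝ) ^ (-κ) := by
  classical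
  by_cases hsub : ∀ j, j = j0
  · -- one term: no zeros
    refine ⟨0, 1, 0, one_pos, le_rfl, le_rfl, fun L R S hL _ _ h => ?_⟩
    have : S = ∅ := by
      rw [Finset.eq_empty_iff_forall_notMem]
      intro k hk
      obtain ⟨_, z, _, _, _, h1, _⟩ := h k hk
      have e : G c l z = c j0 * Complex.exp (Complex.I * (l j0 : ℂ) * z) := by
        unfold G
        exact Finset.sum_eq_single j0 (fun j _ hj => absurd (hsub j) hj) (by simp)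
      rw [e] at h1
      exact mul_ne_zero (hc j0) (Complex.exp_ne_zero _) h1
    rw [this]; simp
  push Not at hsub
  obtain ⟨j1, hj1⟩ := hsub
  obtain ⟨r, ω0, ω, μ, m0, m, h0, ha0, ha', hind, hm⟩ := lattice_row l ha j1 j0
    (fun h => hj1 (hl h))
  have : Nonempty ι := ⟨j0⟩
  obtain ⟨D, K, hD, hpairs⟩ := pairs_of c l hl hc H h0 hm (deriv_row ω0 ω hind)
    (fun T H P => ev_lip ω0 ω T H P)
  obtain ⟨A, κ, C, hκ, hκ1, hC, hcells⟩ := cells_union ω0 ω h0 ha0 ha' hind H |K| D hD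
  refine ⟨A, κ, C, hκ, hκ1, hC, fun L R S hL hLR hR h => hcells L R S hL hLR hR (fun k hk => ?_)⟩
  obtain ⟨h1, z, w, h2, h3, h4, h5, h6, h7⟩ := h k hk
  have hL1 : (1 : ℝ) ≤ L := by exact_mod_cast hL
  have h8 : ‖z - w‖ ≤ 1 := h7.trans (by rw [div_le_one (by linarith)]; exact hL1)
  obtain ⟨p, hp, h9, h10⟩ := hpairs z w (hH z h4) (hH w h5) h4 h5 h6 h8
  have h11 : K * ‖z - w‖ ≤ |K| / L := by
    calc K * ‖z - w‖ ≤ |K| * ‖z - w‖ := mul_le_mul_of_nonneg_right (le_abs_self K) (norm_nonneg _)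
      _ ≤ |K| * (1 / L) := mul_le_mul_of_nonneg_left h7 (abs_nonneg _)
      _ = _ := by ring
  exact ⟨h1, z, h2, h3, hH z h4, p, hp, h9.trans h11, h10.trans h11⟩

/-- **power law for small gaps**. -/
theorem power_law {n : ℕ} (c : Fin n → ℂ) (l : Fin n → ℝ) (hl : Function.Injective l)
    (ha : ∀ j, IsAlgebraic ℚ (l j)) (hc : ∃ j, c j ≠ 0) (f : ℂ → ℂ)
    (hf : ∀ z, f z = ∑ j, c j * Complex.exp (Complex.I * (l j : ℂ) * z)) :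
    ∃ κ C : ℝ, 0 < κ ∧ ∀ R d : ℝ, 1 ≤ R → 0 ≤ d → d ≤ 1 →
      {z : ℂ | ‖z‖ ≤ R ∧ f z = 0 ∧ ∃ w, w ≠ z ∧ f w = 0 ∧ ‖z - w‖ ≤ d}.Finite ∧
      ({z : ℂ | ‖z‖ ≤ R ∧ f z = 0 ∧ ∃ w, w ≠ z ∧ f w = 0 ∧ ‖z - w‖ ≤ d}.ncard : ℝ) ≤
        C * R * (d + 1 / R) ^ κ := by
  classical
  obtain ⟨j0, hj0⟩ := hc
  let c' : {j // c j ≠ 0} → ℂ := fun j => c j
  let l' : {j // c j ≠ 0} → ℝ := fun j => l j
  have hfG : ∀ z, f z = G c' l' z := by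
    intro z
    rw [hf]
    unfold G
    have h1 : ∑ j : {j // c j ≠ 0}, c' j * Complex.exp (Complex.I * (l' j : ℂ) * z) =
        ∑ j ∈ Finset.univ.filter (fun j => c j ≠ 0), c j * Complex.exp (Complex.I * (l j : ℂ) * z) := by
      rw [← Finset.sum_subtype_eq_sum_filter]
      simp [c', l']
    rw [h1]
    refine (Finset.sum_subset (Finset.filter_subset _ _) (fun j _ hj => ?_)).symm
    have : c j = 0 := by
      by_contra hne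
      exact hj (Finset.mem_filter.2 ⟨Finset.mem_univ _, hne⟩)
    rw [this, zero_mul]
  have hl' : Function.Injective l' := fun a b h => Subtype.ext (hl h)
  have hc' : ∀ j, c' j ≠ 0 := fun j => j.2
  obtain ⟨H, _, hH⟩ := stripG c' l' hl' ⟨⟨j0, hj0⟩, hj0⟩
  obtain ⟨κ, a, C, hκ, ha0, hC, h⟩ := final_count2 c' l' hl' ⟨⟨j0, hj0⟩, hj0⟩ H hH
    (hcell c' l' hl' (fun j => ha j) hc' ⟨j0, hj0⟩ H hH)
  have hfG' : f = G c' l' := funext hfG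
  rw [hfG']
  obtain ⟨κ', hκ'⟩ : ∃ κ' : ℝ, κ' = min κ a := ⟨_, rfl⟩
  have hκ'0 : 0 < κ' := by rw [hκ']; exact lt_min hκ ha0
  refine ⟨κ', C * (2 ^ κ + 2 ^ a), hκ'0, fun R d hR hd hd1 => ?_⟩
  have hR0 : 0 < R := by linarith
  have hfin : {z : ℂ | ‖z‖ ≤ R ∧ G c' l' z = 0 ∧ ∃ w, w ≠ z ∧ G c' l' w = 0 ∧ ‖z - w‖ ≤ d}.Finite :=
    (G_finite c' l' hl' ⟨⟨j0, hj0⟩, hj0⟩ R).subset (fun z hz => ⟨hz.1, hz.2.1⟩)
  refine ⟨hfin, ?_⟩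
  obtain ⟨x, hx⟩ : ∃ x : ℝ, x = d + 1 / R := ⟨_, rfl⟩
  have hR1 : 0 < 1 / R := by positivity
  have hx0 : 0 < x := by rw [hx]; linarith
  have hx2 : x ≤ 2 := by
    have : 1 / R ≤ 1 := by rw [div_le_one hR0]; exact hR
    rw [hx]; linarith
  rw [← hx]
  rcases hd.eq_or_lt with hd0 | hd0
  · have : {z : ℂ | ‖z‖ ≤ R ∧ G c' l' z = 0 ∧ ∃ w, w ≠ z ∧ G c' l' w = 0 ∧ ‖z - w‖ ≤ d} = ∅ := by
      rw [Set.eq_empty_iff_forall_notMem]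
      rintro z ⟨_, _, w, h1, _, h2⟩
      rw [← hd0] at h2
      have h3 := norm_eq_zero.1 (le_antisymm h2 (norm_nonneg _))
      exact h1 (sub_eq_zero.1 h3).symm
    rw [this, Set.ncard_empty, Nat.cast_zero]
    positivity
  have pw : ∀ e : ℝ, κ' ≤ e → x ^ e ≤ 2 ^ e * x ^ κ' := by
    intro e he
    have h1 : x ^ e = x ^ (e - κ') * x ^ κ' := by
      rw [← Real.rpow_add hx0]; congr 1; ring
    have h2 : x ^ (e - κ') ≤ 2 ^ e := by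
      calc x ^ (e - κ') ≤ 2 ^ (e - κ') := Real.rpow_le_rpow hx0.le hx2 (by linarith)
        _ ≤ 2 ^ e := Real.rpow_le_rpow_of_exponent_le (by norm_num) (by linarith)
    rw [h1]
    exact mul_le_mul_of_nonneg_right h2 (by positivity)
  have e1 : d ^ κ ≤ 2 ^ κ * x ^ κ' :=
    (Real.rpow_le_rpow hd (by rw [hx]; linarith) hκ.le).trans (pw κ (hκ' ▸ min_le_left _ _))
  have e2 : R ^ (1 - a) ≤ R * (2 ^ a * x ^ κ') := by
    have h1 : R ^ (1 - a) = R * (1 / R) ^ a := by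
      rw [sub_eq_add_neg, Real.rpow_add hR0, Real.rpow_one, one_div, Real.inv_rpow hR0.le,
        Real.rpow_neg hR0.le]
    rw [h1]
    refine mul_le_mul_of_nonneg_left ?_ hR0.le
    exact (Real.rpow_le_rpow hR1.le (by rw [hx]; linarith) ha0.le).trans
      (pw a (hκ' ▸ min_le_right _ _))
  calc _ ≤ C * (R * d ^ κ + R ^ (1 - a)) := h R d hR hd0 hd1
    _ ≤ C * (R * (2 ^ κ * x ^ κ') + R * (2 ^ a * x ^ κ')) := by gcongr
    _ = _ := by ring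

end Pool.Agent.Helper77.EHR.P
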