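import Mathlib
import Pool.Agent.Helper77.EHR.Zeros

/-! MP_4f9849, all exponential sums, row F: from unit cells to zeros. -/

namespace Pool.Agent.Helper77.EHR.P

open Pool.Agent.Helper77.EHR (G)

lemma cells_fin {ι : Type*} [Fintype ι] (c : ι → ℂ) (l : ι → ℝ) (H : ℝ)
    (hH : ∀ z, G c l z = 0 → |z.im| ≤ H) (Z : ℕ)
    (hZ : ∀ (k : ℤ) (S : Finset ℂ),
      (∀ a ∈ S, G c l a = 0 ∧ |a.im| ≤ H ∧ (k : ℝ) ≤ a.re ∧ a.re < k + 1) → S.card ≤ Z)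
    (B : Set ℂ) (hB : ∀ z ∈ B, G c l z = 0) (K : Finset ℤ) (hK : ∀ z ∈ B, ⌊z.re⌋ ∈ K) :
    B.Finite ∧ B.ncard ≤ Z * K.card := by
  classical
  have hcard : ∀ S : Finset ℂ, (S : Set ℂ) ⊆ B → S.card ≤ Z * K.card := by
    intro S hS
    refine Finset.card_le_mul_card_image_of_maps_to (f := fun z : ℂ => ⌊z.re⌋) (s := S) (t := K)
      (fun a ha => hK a (hS ha)) Z (fun k _ => hZ k _ (fun a ha => ?_))
    rw [Finset.mem_filter] at ha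
    have h0 := hB a (hS ha.1)
    refine ⟨h0, hH a h0, ?_, ?_⟩
    · rw [← ha.2]; exact Int.floor_le _
    · rw [← ha.2]; exact Int.lt_floor_add_one _
  have hfin : B.Finite := by
    by_contra hinf
    obtain ⟨S, hS, hc⟩ := Set.Infinite.exists_subset_card_eq hinf (Z * K.card + 1)
    have := hcard S hS
    omega
  refine ⟨hfin, ?_⟩
  rw [Set.ncard_eq_toFinset_card B hfin]
  exact hcard _ (by simp)

/-- ROW F (from cells to zeros). -/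
theorem final_count {ι : Type*} [Fintype ι] [DecidableEq ι] (c : ι → ℂ) (l : ι → ℝ)
    (hl : Function.Injective l) (hc : ∃ j, c j ≠ 0) (H : ℝ) (hH : ∀ z, G c l z = 0 → |z.im| ≤ H)
    (hcell : ∃ (A : ℕ) (κ C : ℝ), 0 < κ ∧ κ ≤ 1 ∧ 0 ≤ C ∧ ∀ (L : ℕ) (R : ℝ) (S : Finset ℤ), 1 ≤ L →
      (L : ℝ) ^ A ≤ R → 1 ≤ R → (∀ k ∈ S, |(k : ℝ)| ≤ R ∧ ∃ z w : ℂ, (k : ℝ) ≤ z.re ∧ z.re < k + 1 ∧
        G c l z = 0 ∧ G c l w = 0 ∧ w ≠ z ∧ ‖z - w‖ ≤ 1 / L) →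
      (S.card : ℝ) ≤ C * R * (L : ℝ) ^ (-κ)) (q : ℝ) (hq : 0 < q) :
    ∃ τ C : ℝ, 0 < τ ∧ ∀ R : ℝ, 1 ≤ R →
      {z : ℂ | ‖z‖ ≤ R ∧ G c l z = 0 ∧ ∃ w, w ≠ z ∧ G c l w = 0 ∧
        ‖z - w‖ < (1 + ‖z‖) ^ (-q)}.Finite ∧
      ({z : ℂ | ‖z‖ ≤ R ∧ G c l z = 0 ∧ ∃ w, w ≠ z ∧ G c l w = 0 ∧
        ‖z - w‖ < (1 + ‖z‖) ^ (-q)}.ncard : ℝ) ≤ C * R ^ (1 - τ) := by
  classical
  obtain ⟨Z, hZ⟩ := zeros_cell c l hl hc H
  obtain ⟨A, κ, C, hκ, hκ1, hC, hcell⟩ := hcell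
  set t : ℝ := min (1 / ((A : ℝ) + 1)) (q / 2) with ht
  have htpos : 0 < t := by positivity
  have ht1 : t ≤ 1 / ((A : ℝ) + 1) := min_le_left _ _
  have ht2 : t ≤ q / 2 := min_le_right _ _
  set τ : ℝ := min (1 / 2) (t * κ) with hτ
  have hτpos : 0 < τ := by positivity
  refine ⟨τ, Z * (3 + 4 * C), hτpos, fun R hR => ?_⟩
  have hR0 : 0 < R := by linarith
  set B : Set ℂ := {z : ℂ | ‖z‖ ≤ R ∧ G c l z = 0 ∧ ∃ w, w ≠ z ∧ G c l w = 0 ∧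
        ‖z - w‖ < (1 + ‖z‖) ^ (-q)} with hBdef
  have hfl : ∀ z ∈ B, |((⌊z.re⌋ : ℤ) : ℝ)| ≤ R + 1 := by
    intro z hz
    have h1 : |z.re| ≤ R := (Complex.abs_re_le_norm z).trans hz.1
    have h2 := Int.floor_le z.re
    have h3 := Int.lt_floor_add_one z.re
    rw [abs_le] at h1 ⊢
    constructor <;> linarith [h1.1, h1.2]
  have hfl2 : ∀ z ∈ B, ⌊z.re⌋ ∈ Finset.Icc (-(⌈R⌉ + 1)) (⌈R⌉ + 1) := by
    intro z hz
    have h1 := hfl z hz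
    rw [abs_le] at h1
    have h2 := Int.le_ceil R
    rw [Finset.mem_Icc]
    constructor
    · have : ((-(⌈R⌉ + 1) : ℤ) : ℝ) ≤ ((⌊z.re⌋ : ℤ) : ℝ) := by push_cast; linarith [h1.1]
      exact_mod_cast this
    · have : ((⌊z.re⌋ : ℤ) : ℝ) ≤ ((⌈R⌉ + 1 : ℤ) : ℝ) := by push_cast; linarith [h1.2]
      exact_mod_cast this
  set K1 : Finset ℤ := Finset.Icc (-⌊R ^ (1 / 2 : ℝ)⌋) ⌊R ^ (1 / 2 : ℝ)⌋ with hK1
  set K2 : Finset ℤ := (Finset.Icc (-(⌈R⌉ + 1)) (⌈R⌉ + 1)).filter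
    (fun k => R ^ (1 / 2 : ℝ) < |(k : ℝ)| ∧ ∃ z ∈ B, ⌊z.re⌋ = k) with hK2
  have hK : ∀ z ∈ B, ⌊z.re⌋ ∈ K1 ∪ K2 := by
    intro z hz
    rw [Finset.mem_union]
    by_cases h : R ^ (1 / 2 : ℝ) < |((⌊z.re⌋ : ℤ) : ℝ)|
    · right
      rw [hK2, Finset.mem_filter]
      exact ⟨hfl2 z hz, h, z, hz, rfl⟩
    · left
      rw [not_lt, abs_le] at h
      rw [hK1, Finset.mem_Icc]
      constructor
      · have h3 : -⌊z.re⌋ ≤ ⌊R ^ (1 / 2 : ℝ)⌋ := by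
          rw [Int.le_floor]; push_cast; linarith [h.1]
        omega
      · rw [Int.le_floor]; exact h.2
  obtain ⟨hfin, hcard⟩ := cells_fin c l H hH Z hZ B (fun z hz => hz.2.1) (K1 ∪ K2) hK
  refine ⟨hfin, ?_⟩
  -- sizes
  have hr1 : 1 ≤ R ^ (1 / 2 : ℝ) := Real.one_le_rpow hR (by norm_num)
  have hcK1 : (K1.card : ℝ) ≤ 3 * R ^ (1 / 2 : ℝ) := by
    rw [hK1, Int.card_Icc]
    have h1 : (0 : ℤ) ≤ ⌊R ^ (1 / 2 : ℝ)⌋ + 1 - -⌊R ^ (1 / 2 : ℝ)⌋ := by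
      have : (0 : ℤ) ≤ ⌊R ^ (1 / 2 : ℝ)⌋ := Int.floor_nonneg.2 (by linarith)
      omega
    have h2 : (((⌊R ^ (1 / 2 : ℝ)⌋ + 1 - -⌊R ^ (1 / 2 : ℝ)⌋).toNat : ℕ) : ℝ)
        = ((⌊R ^ (1 / 2 : ℝ)⌋ + 1 - -⌊R ^ (1 / 2 : ℝ)⌋ : ℤ) : ℝ) := by
      exact_mod_cast congrArg (Int.cast : ℤ → ℝ) (Int.toNat_of_nonneg h1)
    rw [h2]
    push_cast
    have := Int.floor_le (R ^ (1 / 2 : ℝ))
    linarith
  set L : ℕ := ⌊R ^ t⌋₊ with hL
  have hRt : 1 ≤ R ^ t := Real.one_le_rpow hR htpos.le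
  have hL1 : 1 ≤ L := Nat.le_floor (by simpa using hRt)
  have hL1' : (1 : ℝ) ≤ L := by exact_mod_cast hL1
  have hLle : (L : ℝ) ≤ R ^ t := Nat.floor_le (by positivity)
  have hLge : R ^ t / 2 ≤ L := by
    have := Nat.lt_floor_add_one (R ^ t)
    rw [← hL] at this
    linarith
  have hLA : (L : ℝ) ^ A ≤ R + 1 := by
    have h1 : (L : ℝ) ^ A ≤ (R ^ t) ^ A := pow_le_pow_left₀ (by positivity) hLle A
    have h2 : (R ^ t) ^ A = R ^ (t * A) := by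
      rw [← Real.rpow_natCast, ← Real.rpow_mul hR0.le]
    have h3 : R ^ (t * A) ≤ R ^ (1 : ℝ) := by
      refine Real.rpow_le_rpow_of_exponent_le hR ?_
      calc t * A ≤ 1 / ((A : ℝ) + 1) * A := by gcongr
        _ ≤ 1 := by
          rw [one_div, inv_mul_le_iff₀ (by positivity)]
          linarith
    rw [Real.rpow_one] at h3
    linarith [h2 ▸ h1]
  have hLq : R ^ (-(q / 2)) ≤ 1 / L := by
    rw [Real.rpow_neg hR0.le, ← one_div]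
    refine one_div_le_one_div_of_le (by positivity) (hLle.trans ?_)
    exact Real.rpow_le_rpow_of_exponent_le hR ht2
  have hcK2 : (K2.card : ℝ) ≤ C * (R + 1) * (L : ℝ) ^ (-κ) := by
    refine hcell L (R + 1) K2 hL1 hLA (by linarith) (fun k hk => ?_)
    rw [hK2, Finset.mem_filter] at hk
    obtain ⟨_, hk1, z, hz, rfl⟩ := hk
    refine ⟨hfl z hz, ?_⟩
    obtain ⟨w, hw1, hw2, hw3⟩ := hz.2.2
    refine ⟨z, w, Int.floor_le _, Int.lt_floor_add_one _, hz.2.1, hw2, hw1, ?_⟩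
    have h1 : R ^ (1 / 2 : ℝ) ≤ 1 + ‖z‖ := by
      have h2 := Complex.abs_re_le_norm z
      have h3 := Int.floor_le z.re
      have h4 := Int.lt_floor_add_one z.re
      have h5 : |((⌊z.re⌋ : ℤ) : ℝ)| ≤ |z.re| + 1 := by
        rw [abs_le]
        constructor
        · linarith [neg_abs_le z.re]
        · linarith [le_abs_self z.re]
      linarith
    have h2 : (1 + ‖z‖) ^ (-q) ≤ R ^ (-(q / 2)) := by
      have h3 : R ^ (-(q / 2)) = (R ^ (1 / 2 : ℝ)) ^ (-q) := by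
        rw [← Real.rpow_mul hR0.le]
        congr 1; ring
      rw [h3]
      exact Real.rpow_le_rpow_of_nonpos (by linarith) h1 (by linarith)
    exact (hw3.le.trans h2).trans hLq
  have hLκ : (L : ℝ) ^ (-κ) ≤ 2 * R ^ (-(t * κ)) := by
    calc (L : ℝ) ^ (-κ) ≤ (R ^ t / 2) ^ (-κ) :=
          Real.rpow_le_rpow_of_nonpos (by positivity) hLge (by linarith)
      _ = 2 ^ κ * R ^ (-(t * κ)) := by
          rw [Real.div_rpow (by positivity) (by norm_num), ← Real.rpow_mul hR0.le,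
            Real.rpow_neg (by norm_num : (0 : ℝ) ≤ 2)]
          rw [div_inv_eq_mul, mul_comm]
          congr 2
          ring
      _ ≤ 2 * R ^ (-(t * κ)) := by
          have : (2 : ℝ) ^ κ ≤ 2 ^ (1 : ℝ) :=
            Real.rpow_le_rpow_of_exponent_le (by norm_num) hκ1
          rw [Real.rpow_one] at this
          gcongr
  have hR12 : R ^ (1 / 2 : ℝ) ≤ R ^ (1 - τ) :=
    Real.rpow_le_rpow_of_exponent_le hR (by linarith [min_le_left (1 / 2 : ℝ) (t * κ)])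
  have hRtk : R * R ^ (-(t * κ)) ≤ R ^ (1 - τ) := by
    have h1 : R * R ^ (-(t * κ)) = R ^ (1 - t * κ) := by
      rw [sub_eq_add_neg, Real.rpow_add hR0, Real.rpow_one]
    rw [h1]
    exact Real.rpow_le_rpow_of_exponent_le hR (by linarith [min_le_right (1 / 2 : ℝ) (t * κ)])
  have hun : ((K1 ∪ K2).card : ℝ) ≤ (3 + 4 * C) * R ^ (1 - τ) := by
    have h1 : ((K1 ∪ K2).card : ℝ) ≤ K1.card + K2.card := by
      exact_mod_cast Finset.card_union_le _ _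
    have h2 : C * (R + 1) * (L : ℝ) ^ (-κ) ≤ 4 * C * (R * R ^ (-(t * κ))) := by
      calc C * (R + 1) * (L : ℝ) ^ (-κ) ≤ C * (2 * R) * (2 * R ^ (-(t * κ))) := by
            have : R + 1 ≤ 2 * R := by linarith
            gcongr
        _ = _ := by ring
    have h3 : 4 * C * (R * R ^ (-(t * κ))) ≤ 4 * C * R ^ (1 - τ) :=
      mul_le_mul_of_nonneg_left hRtk (by positivity)
    calc ((K1 ∪ K2).card : ℝ) ≤ 3 * R ^ (1 / 2 : ℝ) + 4 * C * R ^ (1 - τ) := by linarith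
      _ ≤ 3 * R ^ (1 - τ) + 4 * C * R ^ (1 - τ) := by linarith
      _ = _ := by ring
  calc (B.ncard : ℝ) ≤ ((Z * (K1 ∪ K2).card : ℕ) : ℝ) := by exact_mod_cast hcard
    _ = Z * ((K1 ∪ K2).card : ℝ) := by push_cast; ring
    _ ≤ Z * ((3 + 4 * C) * R ^ (1 - τ)) := by gcongr
    _ = _ := by ring

end Pool.Agent.Helper77.EHR.P
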