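import Pool.Agent.Helper77.EHR.P.PairsOf
import Pool.Agent.Helper77.EHR.P.Lat
import Pool.Agent.Helper77.EHR.P.Lip
import Pool.Agent.Helper77.EHR.P.Der

/-! MP_4f9849, all exponential sums: row Q3. -/

namespace Pool.Agent.Helper77.EHR.P

open Pool.Agent.Helper77.EHR (G)

/-- ROW Q3 (factorization): close distinct zeros are near common zeros of one of finitely many
pairs. -/
theorem pairs {ι : Type*} [Fintype ι] (c : ι → ℂ) (l : ι → ℝ) (hl : Function.Injective l)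
    (ha : ∀ j, IsAlgebraic ℚ (l j)) (hc : ∀ j, c j ≠ 0) (i0 i1 : ι) (h : i0 ≠ i1) (H : ℝ) :
    ∃ (r : ℕ) (ω0 : ℝ) (ω : Fin r → ℝ) (D : Finset (A r × A r)) (K : ℝ),
      ω0 ≠ 0 ∧ IsAlgebraic ℚ ω0 ∧ (∀ j, IsAlgebraic ℚ (ω j)) ∧ Ind ω0 ω ∧
      (∀ p ∈ D, Irreducible p.1 ∧ ¬ p.1 ∣ p.2) ∧
      ∀ z w : ℂ, |z.im| ≤ H → |w.im| ≤ H → G c l z = 0 → G c l w = 0 → w ≠ z → ‖z - w‖ ≤ 1 →
        ∃ p ∈ D, ‖ev ω0 ω (fun _ => 0) z p.1‖ ≤ K * ‖z - w‖ ∧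
          ‖ev ω0 ω (fun _ => 0) z p.2‖ ≤ K * ‖z - w‖ := by
  have : Nonempty ι := ⟨i0⟩
  obtain ⟨r, ω0, ω, μ, m0, m, h0, ha0, haω, hind, hm⟩ := lattice_row l ha i0 i1 (hl.ne h)
  obtain ⟨D, K, hD, hK⟩ := pairs_of c l hl hc H h0 hm (deriv_row ω0 ω hind) (ev_lip ω0 ω)
  exact ⟨r, ω0, ω, D, K, h0, ha0, haω, hind, hD, hK⟩

end Pool.Agent.Helper77.EHR.P
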